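import Pool.Agent.Lib.Saus.Defs

/-!
# MP_dcaa2d_co: the sausage radius is finite

`Δ_n(ρ)` does not exceed `2^d + o(1)` along `n = k^d` (cubic grids).
-/

set_option autoImplicit false

open MeasureTheory Metric Set Filter Topology
open scoped Pointwise RealInnerProductSpace

namespace Pool.Agent.Saus

private lemma bdd_kappa_pos (m : ℕ) : 0 < kappa m :=
  ENNReal.toReal_pos (measure_closedBall_pos volume (0 : E m) one_pos).ne'
    (isCompact_closedBall (0 : E m) 1).measure_lt_top.ne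

/-- the points of the cubic grid -/
private noncomputable def gp (d k : ℕ) (j : Fin d → Fin k) : E d :=
  WithLp.toLp 2 (fun i => 2 * ((j i : ℕ) : ℝ))

private lemma gp_apply {d k : ℕ} (j : Fin d → Fin k) (i : Fin d) :
    gp d k j i = 2 * ((j i : ℕ) : ℝ) := rfl

private lemma gp_dist {d k : ℕ} {j j' : Fin d → Fin k} (h : j ≠ j') :
    2 ≤ dist (gp d k j) (gp d k j') := by
  obtain ⟨i, hi⟩ := Function.ne_iff.1 h
  have h1 : ‖(gp d k j - gp d k j') i‖ ≤ ‖gp d k j - gp d k j'‖ := PiLp.norm_apply_le _ i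
  rw [dist_eq_norm]
  refine le_trans ?_ h1
  rw [PiLp.sub_apply, gp_apply, gp_apply, Real.norm_eq_abs, ← mul_sub, abs_mul, abs_two]
  have h2 : (1 : ℝ) ≤ |((j i : ℕ) : ℝ) - ((j' i : ℕ) : ℝ)| := by
    have h3 : ((j i : ℕ) : ℤ) - ((j' i : ℕ) : ℤ) ≠ 0 := by
      intro h4
      apply hi
      apply Fin.ext
      omega
    have h5 : (1 : ℤ) ≤ |((j i : ℕ) : ℤ) - ((j' i : ℕ) : ℤ)| := Int.one_le_abs h3
    exact_mod_cast h5
  linarith

private lemma gp_inj (d k : ℕ) : Function.Injective (gp d k) := by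
  intro j j' h
  by_contra hne
  have h1 := gp_dist hne
  rw [h, dist_self] at h1
  linarith

open Classical in
/-- the cubic grid -/
private noncomputable def grid (d k : ℕ) : Finset (E d) := Finset.univ.image (gp d k)

private lemma grid_card (d k : ℕ) : (grid d k).card = k ^ d := by
  unfold grid
  rw [Finset.card_image_of_injective _ (gp_inj d k), Finset.card_univ, Fintype.card_fun,
    Fintype.card_fin, Fintype.card_fin]

private lemma grid_pack (d k : ℕ) : IsPack (grid d k) := by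
  intro x hx y hy hxy
  obtain ⟨j, -, rfl⟩ := Finset.mem_image.1 hx
  obtain ⟨j', -, rfl⟩ := Finset.mem_image.1 hy
  exact gp_dist (fun h => hxy (by rw [h]))

/-- a box -/
private def box (d : ℕ) (a b : ℝ) : Set (E d) := {x | ∀ i, x i ∈ Icc a b}

private lemma box_convex (d : ℕ) (a b : ℝ) : Convex ℝ (box d a b) := by
  intro x hx y hy s t hs ht hst i
  exact convex_Icc a b (hx i) (hy i) hs ht hst

private lemma box_volume (d : ℕ) {a b : ℝ} (hab : a ≤ b) :
    volume (box d a b) ≠ ⊤ ∧ (volume (box d a b)).toReal = (b - a) ^ d := by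
  have h1 : box d a b = (WithLp.ofLp : E d → (Fin d → ℝ)) ⁻¹'
      (Icc (fun _ => a) (fun _ => b)) := by
    ext x
    constructor
    · intro h
      exact ⟨fun i => (h i).1, fun i => (h i).2⟩
    · intro h i
      exact ⟨h.1 i, h.2 i⟩
  have h2 : volume (box d a b) = volume (Icc (fun _ : Fin d => a) (fun _ => b)) := by
    rw [h1]
    exact (PiLp.volume_preserving_ofLp (Fin d)).measure_preimage
      measurableSet_Icc.nullMeasurableSet
  rw [h2]
  refine ⟨(isCompact_Icc.measure_lt_top).ne, ?_⟩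
  rw [Real.volume_Icc_pi_toReal (fun _ => hab), Finset.prod_const, Finset.card_univ,
    Fintype.card_fin]

private lemma V_grid (d k : ℕ) (hk : 1 ≤ k) {ρ : ℝ} (hρ : 0 < ρ) :
    V (grid d k) ρ ≤ (2 * (k : ℝ) + 2 * ρ) ^ d := by
  have hk1 : (1 : ℝ) ≤ k := by exact_mod_cast hk
  have hsub : convexHull ℝ ((grid d k : Finset (E d)) : Set (E d)) + closedBall (0 : E d) ρ
      ⊆ box d (-ρ) (2 * (k : ℝ) + ρ) := by
    have h1 : convexHull ℝ ((grid d k : Finset (E d)) : Set (E d)) ⊆ box d 0 (2 * (k : ℝ)) := by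
      refine convexHull_min ?_ (box_convex d _ _)
      intro x hx i
      obtain ⟨j, -, rfl⟩ := Finset.mem_image.1 (Finset.mem_coe.1 hx)
      rw [gp_apply]
      have h2 : ((j i : ℕ) : ℝ) ≤ k := by exact_mod_cast (j i).2.le
      exact ⟨by positivity, by linarith⟩
    rintro z ⟨x, hx, y, hy, rfl⟩ i
    have h3 := h1 hx i
    have h4 : ‖y i‖ ≤ ρ := (PiLp.norm_apply_le y i).trans (mem_closedBall_zero_iff.1 hy)
    rw [Real.norm_eq_abs, abs_le] at h4
    change x i + y i ∈ Icc _ _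
    exact ⟨by linarith [h3.1], by linarith [h3.2]⟩
  have hle : -ρ ≤ 2 * (k : ℝ) + ρ := by linarith
  obtain ⟨h5, h6⟩ := box_volume d hle
  unfold V
  refine (ENNReal.toReal_mono h5 (measure_mono hsub)).trans (le_of_eq ?_)
  rw [h6]
  congr 1
  ring

private lemma DeltaN_le (d k : ℕ) (hk : 1 ≤ k) {ρ : ℝ} (hρ : 0 < ρ) :
    DeltaN d ρ (k ^ d) ≤ (2 + 2 * ρ / k) ^ d := by
  have hk1 : (0 : ℝ) < k := by exact_mod_cast hk
  have h1 : DeltaN d ρ (k ^ d) ≤ V (grid d k) ρ / ((k ^ d : ℕ) : ℝ) := by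
    unfold DeltaN
    refine csInf_le ⟨0, ?_⟩ ⟨grid d k, grid_card d k, grid_pack d k, rfl⟩
    rintro v ⟨X, -, -, rfl⟩
    exact div_nonneg ENNReal.toReal_nonneg (Nat.cast_nonneg _)
  refine h1.trans ?_
  rw [Nat.cast_pow, div_le_iff₀ (by positivity), ← mul_pow]
  refine (V_grid d k hk hρ).trans (le_of_eq ?_)
  congr 1
  field_simp

/-- G2: `Δ_n(ρ)` does not exceed `2^d + o(1)` along `n = k^d`, so the sausage radius is finite. -/
theorem sausage_bdd (d : ℕ) (hd : 2 ≤ d) :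
    BddAbove {ρ : ℝ | 0 < ρ ∧ Tendsto (fun n : ℕ => DeltaN d ρ n) atTop
      (𝓝 (2 * kappa (d - 1) * ρ ^ (d - 1)))} := by
  have hκ := bdd_kappa_pos (d - 1)
  refine ⟨max 1 (2 ^ d / (2 * kappa (d - 1))), ?_⟩
  rintro ρ ⟨hρ, hlim⟩
  have h1 : Tendsto (fun k : ℕ => DeltaN d ρ (k ^ d)) atTop
      (𝓝 (2 * kappa (d - 1) * ρ ^ (d - 1))) :=
    hlim.comp (tendsto_pow_atTop (by omega))
  have h2 : Tendsto (fun k : ℕ => (2 + 2 * ρ / (k : ℝ)) ^ d) atTop (𝓝 (2 ^ d)) := by
    have h3 : Tendsto (fun k : ℕ => 2 + 2 * ρ / (k : ℝ)) atTop (𝓝 (2 + 0)) :=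
      tendsto_const_nhds.add (tendsto_const_div_atTop_nhds_zero_nat (2 * ρ))
    rw [add_zero] at h3
    exact h3.pow d
  have h4 : 2 * kappa (d - 1) * ρ ^ (d - 1) ≤ 2 ^ d := by
    refine le_of_tendsto_of_tendsto h1 h2 ?_
    filter_upwards [eventually_ge_atTop 1] with k hk
    exact DeltaN_le d k hk hρ
  rcases le_total ρ 1 with h5 | h5
  · exact h5.trans (le_max_left _ _)
  · refine le_trans ?_ (le_max_right _ _)
    have h6 : ρ ≤ ρ ^ (d - 1) := by
      calc ρ = ρ ^ 1 := (pow_one ρ).symm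
        _ ≤ ρ ^ (d - 1) := pow_le_pow_right₀ h5 (by omega)
    refine h6.trans ?_
    rw [le_div_iff₀ (by positivity)]
    linarith

end Pool.Agent.Saus
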