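import Pool.Agent.Lib.Saus.Rankin

/-!
# MP_dcaa2d_co: counting volumes

A lower bound for the volume of `conv X + ρ B` from sets `Q x` attached to many points `x` of `X`.
-/

set_option autoImplicit false

open MeasureTheory Metric Set Filter Topology
open scoped Pointwise RealInnerProductSpace

namespace Pool.Agent.Saus

/-- If every point lies in at most `M` of the sets `A x ⊆ W`, then their volumes sum to at most
`M * volume W`. -/
private theorem sum_volume_le {d : ℕ} {α : Type*} (I : Finset α) (A : α → Set (E d))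
    (W : Set (E d)) (hA : ∀ x ∈ I, MeasurableSet (A x)) (hW : MeasurableSet W)
    (hsub : ∀ x ∈ I, A x ⊆ W) {M : ℝ}
    (hM : ∀ y, ∀ J ⊆ I, (∀ x ∈ J, y ∈ A x) → (J.card : ℝ) ≤ M) :
    ∑ x ∈ I, volume (A x) ≤ ENNReal.ofReal M * volume W := by
  classical
  have h1 : ∑ x ∈ I, volume (A x)
      = ∫⁻ y, ∑ x ∈ I, (A x).indicator (fun _ => (1 : ENNReal)) y := by
    rw [lintegral_finsetSum']
    · refine Finset.sum_congr rfl (fun x hx => ?_)
      rw [lintegral_indicator (hA x hx)]
      simp
    · intro x hx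
      exact (measurable_const.indicator (hA x hx)).aemeasurable
  have h2 : ENNReal.ofReal M * volume W = ∫⁻ y, W.indicator (fun _ => ENNReal.ofReal M) y := by
    rw [lintegral_indicator hW]
    simp
  rw [h1, h2]
  refine lintegral_mono (fun y => ?_)
  by_cases hy : y ∈ W
  · rw [Set.indicator_of_mem hy]
    have h3 : ∑ x ∈ I, (A x).indicator (fun _ => (1 : ENNReal)) y
        = ((I.filter (fun x => y ∈ A x)).card : ENNReal) := by
      rw [Finset.card_filter]
      push_cast
      refine Finset.sum_congr rfl (fun x _ => ?_)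
      by_cases h : y ∈ A x <;> simp [h]
    rw [h3]
    have h4 := hM y (I.filter (fun x => y ∈ A x)) (Finset.filter_subset _ _)
      (fun x hx => (Finset.mem_filter.1 hx).2)
    calc ((I.filter (fun x => y ∈ A x)).card : ENNReal)
        = ENNReal.ofReal ((I.filter (fun x => y ∈ A x)).card : ℝ) := by simp
      _ ≤ ENNReal.ofReal M := ENNReal.ofReal_le_ofReal h4
  · rw [Set.indicator_of_notMem hy]
    refine le_of_eq (Finset.sum_eq_zero (fun x hx => ?_))
    exact Set.indicator_of_notMem (fun h => hy (hsub x hx h)) _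

/-- The real form of the counting bound. -/
private theorem card_mul_le {d : ℕ} {α : Type*} (I : Finset α) (A : α → Set (E d))
    (W : Set (E d)) (hA : ∀ x ∈ I, MeasurableSet (A x)) (hW : MeasurableSet W)
    (hWf : volume W ≠ ⊤)
    (hsub : ∀ x ∈ I, A x ⊆ W) {M v : ℝ} (hM0 : 0 ≤ M) (hv : 0 ≤ v)
    (hM : ∀ y, ∀ J ⊆ I, (∀ x ∈ J, y ∈ A x) → (J.card : ℝ) ≤ M)
    (hAv : ∀ x ∈ I, ENNReal.ofReal v ≤ volume (A x)) :
    (I.card : ℝ) * v ≤ M * (volume W).toReal := by
  have h1 := sum_volume_le I A W hA hW hsub hM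
  have h2 : (I.card : ENNReal) * ENNReal.ofReal v ≤ ∑ x ∈ I, volume (A x) := by
    rw [← nsmul_eq_mul]
    exact Finset.card_nsmul_le_sum I _ _ hAv
  have h3 := h2.trans h1
  have h4 : (ENNReal.ofReal M * volume W) ≠ ⊤ := ENNReal.mul_ne_top ENNReal.ofReal_ne_top hWf
  have h5 := ENNReal.toReal_mono h4 h3
  rw [ENNReal.toReal_mul, ENNReal.toReal_mul, ENNReal.toReal_natCast,
    ENNReal.toReal_ofReal hv, ENNReal.toReal_ofReal hM0] at h5
  exact h5

/-- C -/
theorem volume_counting {d : ℕ} (X : Finset (E d)) (hX : IsPack X) (I : Finset (E d)) (hI : I ⊆ X)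
    (Q : E d → Set (E d)) {ρ r1 R δ t0 v : ℝ} (hρ : 0 < ρ) (hr1 : 0 < r1) (hδ : 0 < δ)
    (hδ2 : δ ≤ 2) (ht0 : 0 ≤ t0) (ht : r1 ^ 2 - t0 ^ 2 ≤ 2 - δ)
    (hmeas : ∀ x ∈ I, MeasurableSet (Q x))
    (hQ1 : ∀ x ∈ I, Q x ⊆ convexHull ℝ (X : Set (E d)) + closedBall 0 ρ)
    (hQ2 : ∀ x ∈ I, Q x ⊆ closedBall x r1) (hv : 0 ≤ v)
    (hQv : ∀ x ∈ I, ENNReal.ofReal v ≤ volume (Q x))
    (hbig : t0 = 0 ∨ (r1 ≤ R ∧ t0 + (R - r1) ≤ ρ ∧ ∀ (c : E d) (Y : Finset (E d)), IsPack Y →
      (∀ y ∈ Y, dist y c ≤ R) → (Y.card : ℝ) ≤ (R / r1) ^ d)) :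
    δ / 8 * I.card * v ≤ V X ρ := by
  classical
  rcases I.eq_empty_or_nonempty with rfl | hIne
  · simp [V]
  set K : Set (E d) := convexHull ℝ (X : Set (E d)) with hK
  set W : Set (E d) := K + closedBall (0 : E d) ρ with hW
  have hKc : IsCompact K := X.finite_toSet.isCompact_convexHull (𝕜 := ℝ)
  have hKconv : Convex ℝ K := convex_convexHull ℝ _
  have hKne : K.Nonempty := by
    obtain ⟨x, hx⟩ := hIne
    exact ⟨x, subset_convexHull ℝ _ (hI hx)⟩
  have hWc : IsCompact W := hKc.add (isCompact_closedBall _ _)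
  have hWm : MeasurableSet W := hWc.measurableSet
  have hWf : volume W ≠ ⊤ := hWc.measure_lt_top.ne
  have hVW : V X ρ = (volume W).toReal := rfl
  have hsubpack : ∀ J ⊆ X, IsPack J := fun J hJ x hx y hy hxy => hX x (hJ hx) y (hJ hy) hxy
  -- points at distance at least `t0` from `K`
  have type1 : ∀ y, ∀ J ⊆ I, (∀ x ∈ J, y ∈ Q x ∩ {y | t0 ≤ infDist y K}) →
      (J.card : ℝ) ≤ 2 / δ := by
    intro y J hJ hy
    rcases J.eq_empty_or_nonempty with rfl | hJne
    · simp only [Finset.card_empty, Nat.cast_zero]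
      positivity
    obtain ⟨x0, hx0⟩ := hJne
    have hy0 : t0 ≤ infDist y K := (hy x0 hx0).2
    obtain ⟨p, hpK, hp⟩ := exists_norm_eq_iInf_of_complete_convex hKne hKc.isComplete hKconv y
    have hin := (norm_eq_iInf_iff_real_inner_le_zero hKconv hpK).1 hp
    have hyp : t0 ≤ ‖y - p‖ := by
      rw [← dist_eq_norm]
      exact hy0.trans (infDist_le_dist_of_mem hpK)
    refine rankin J (hsubpack J (hJ.trans hI)) p hδ (fun x hx => ?_)
    have hxK : x ∈ K := subset_convexHull ℝ _ (hI (hJ hx))
    have h1 : dist y x ≤ r1 := hQ2 x (hJ hx) (hy x hx).1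
    have h2 := hin x hxK
    have h3 : ‖y - x‖ ^ 2 = ‖y - p‖ ^ 2 - 2 * ⟪y - p, x - p⟫ + ‖x - p‖ ^ 2 := by
      rw [← norm_sub_sq_real]
      congr 2
      abel
    rw [dist_eq_norm] at h1 ⊢
    have h4 : ‖y - x‖ ^ 2 ≤ r1 ^ 2 := pow_le_pow_left₀ (norm_nonneg _) h1 2
    have h5 : t0 ^ 2 ≤ ‖y - p‖ ^ 2 := pow_le_pow_left₀ ht0 hyp 2
    linarith
  have meas1 : MeasurableSet {y : E d | t0 ≤ infDist y K} :=
    measurableSet_le measurable_const (continuous_infDist_pt K).measurable
  have meas2 : MeasurableSet {y : E d | infDist y K ≤ t0} :=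
    measurableSet_le (continuous_infDist_pt K).measurable measurable_const
  rcases hbig with h0 | ⟨hR, hρR, hN⟩
  · have key := card_mul_le I (fun x => Q x ∩ {y | t0 ≤ infDist y K}) W
      (fun x hx => (hmeas x hx).inter meas1) hWm hWf
      (fun x hx y hy => hQ1 x hx hy.1) (M := 2 / δ) (v := v) (by positivity) hv type1
      (fun x hx => by
        have : Q x ∩ {y | t0 ≤ infDist y K} = Q x := by
          refine inter_eq_left.2 (fun y _ => ?_)
          show t0 ≤ infDist y K
          rw [h0]
          exact infDist_nonneg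
        show ENNReal.ofReal v ≤ volume (Q x ∩ {y | t0 ≤ infDist y K})
        rw [this]
        exact hQv x hx)
    rw [hVW]
    have h6 : 0 ≤ (volume W).toReal := ENNReal.toReal_nonneg
    rw [div_mul_eq_mul_div, le_div_iff₀ hδ] at key
    have h7 : 0 ≤ (I.card : ℝ) * v := by positivity
    nlinarith
  · have hR0 : 0 < R := hr1.trans_le hR
    -- split `I`
    set I1 := I.filter (fun x => ENNReal.ofReal (v / 2) ≤ volume (Q x ∩ {y | t0 ≤ infDist y K}))
      with hI1
    set I2 := I.filter (fun x => ¬ ENNReal.ofReal (v / 2) ≤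
      volume (Q x ∩ {y | t0 ≤ infDist y K})) with hI2
    have hcard : I1.card + I2.card = I.card := Finset.card_filter_add_card_filter_not _
    have hI1s : I1 ⊆ I := Finset.filter_subset _ _
    have hI2s : I2 ⊆ I := Finset.filter_subset _ _
    have hB : ∀ x ∈ I2, ENNReal.ofReal (v / 2) ≤ volume (Q x ∩ {y | infDist y K ≤ t0}) := by
      intro x hx
      have hx1 := hI2s hx
      have hx2 := (Finset.mem_filter.1 hx).2
      by_contra hcon
      push Not at hx2 hcon
      have h1 : volume (Q x) ≤ volume (Q x ∩ {y | t0 ≤ infDist y K})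
          + volume (Q x ∩ {y | infDist y K ≤ t0}) := by
        refine le_trans (measure_mono ?_) (measure_union_le _ _)
        intro y hy
        rcases le_total t0 (infDist y K) with h | h
        · exact Or.inl ⟨hy, h⟩
        · exact Or.inr ⟨hy, h⟩
      have h2 := ENNReal.add_lt_add hx2 hcon
      rw [← ENNReal.ofReal_add (by positivity) (by positivity), add_halves] at h2
      exact absurd (hQv x hx1) (not_le.2 (h1.trans_lt h2))
    have key1 := card_mul_le I1 (fun x => Q x ∩ {y | t0 ≤ infDist y K}) W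
      (fun x hx => (hmeas x (hI1s hx)).inter meas1) hWm hWf
      (fun x hx y hy => hQ1 x (hI1s hx) hy.1) (M := 2 / δ) (v := v / 2) (by positivity)
      (by positivity) (fun y J hJ hy => type1 y J (hJ.trans hI1s) hy)
      (fun x hx => (Finset.mem_filter.1 hx).2)
    -- the homothetic images
    set q : ℝ := R / r1 with hq
    have hq0 : 0 < q := by positivity
    have hq1 : 1 ≤ q := by rw [hq, le_div_iff₀ hr1, one_mul]; exact hR
    have himg : ∀ x, (fun y : E d => x + q • (y - x)) '' (Q x ∩ {y | infDist y K ≤ t0})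
        = (fun y : E d => x + q⁻¹ • (y - x)) ⁻¹' (Q x ∩ {y | infDist y K ≤ t0}) := by
      intro x
      ext y
      constructor
      · rintro ⟨z, hz, rfl⟩
        show x + q⁻¹ • (x + q • (z - x) - x) ∈ Q x ∩ {y | infDist y K ≤ t0}
        rw [add_sub_cancel_left, smul_smul, inv_mul_cancel₀ hq0.ne', one_smul, add_sub_cancel]
        exact hz
      · intro hy
        refine ⟨x + q⁻¹ • (y - x), hy, ?_⟩
        show x + q • (x + q⁻¹ • (y - x) - x) = y
        rw [add_sub_cancel_left, smul_smul, mul_inv_cancel₀ hq0.ne', one_smul, add_sub_cancel]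
    have key2 := card_mul_le I2
      (fun x => (fun y : E d => x + q • (y - x)) '' (Q x ∩ {y | infDist y K ≤ t0})) W
      (fun x hx => by
        rw [himg]
        refine MeasurableSet.preimage ((hmeas x (hI2s hx)).inter meas2) ?_
        exact Continuous.measurable (by fun_prop)) hWm hWf
      (fun x hx y' hy' => by
        obtain ⟨y, ⟨hyQ, hyK⟩, rfl⟩ := hy'
        have hyK' : infDist y K ≤ t0 := hyK
        have h1 : dist y x ≤ r1 := hQ2 x (hI2s hx) hyQ
        obtain ⟨p, hpK, hp⟩ := hKc.exists_infDist_eq_dist hKne y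
        have h2 : dist (x + q • (y - x)) p ≤ ρ := by
          have h3 : dist (x + q • (y - x)) y ≤ R - r1 := by
            rw [dist_eq_norm, show x + q • (y - x) - y = (q - 1) • (y - x) by
              rw [sub_smul, one_smul]; abel, norm_smul, Real.norm_eq_abs,
              abs_of_nonneg (by linarith), ← dist_eq_norm]
            calc (q - 1) * dist y x ≤ (q - 1) * r1 :=
                  mul_le_mul_of_nonneg_left h1 (by linarith)
              _ = R - r1 := by rw [hq]; field_simp
          have h4 := dist_triangle (x + q • (y - x)) y p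
          rw [← hp] at h4
          linarith
        refine Set.mem_add.2 ⟨p, hpK, (x + q • (y - x)) - p, ?_, add_sub_cancel _ _⟩
        rw [mem_closedBall, dist_zero_right, ← dist_eq_norm]
        exact h2) (M := q ^ d) (v := q ^ d * (v / 2)) (by positivity) (by positivity)
      (fun y J hJ hy => by
        refine hN y J (hsubpack J ((hJ.trans hI2s).trans hI)) (fun x hx => ?_)
        obtain ⟨z, ⟨hzQ, hzK⟩, hz⟩ := hy x hx
        have h1 : dist z x ≤ r1 := hQ2 x (hI2s (hJ hx)) hzQ
        rw [← hz]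
        show dist x (x + q • (z - x)) ≤ R
        rw [dist_eq_norm, show x - (x + q • (z - x)) = -(q • (z - x)) by abel, norm_neg,
          norm_smul, Real.norm_eq_abs, abs_of_pos hq0, ← dist_eq_norm]
        calc q * dist z x ≤ q * r1 := mul_le_mul_of_nonneg_left h1 hq0.le
          _ = R := by rw [hq]; field_simp)
      (fun x hx => by
        have h1 : (fun y : E d => x + q • (y - x)) = AffineMap.homothety x q := by
          funext y
          simp [AffineMap.homothety_apply, add_comm]
        show ENNReal.ofReal (q ^ d * (v / 2)) ≤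
          volume ((fun y : E d => x + q • (y - x)) '' (Q x ∩ {y | infDist y K ≤ t0}))
        rw [h1, Measure.addHaar_image_homothety, finrank_euclideanSpace_fin,
          abs_of_pos (by positivity), ENNReal.ofReal_mul (by positivity)]
        exact mul_le_mul_right (hB x hx) _)
    rw [hVW]
    have h6 : 0 ≤ (volume W).toReal := ENNReal.toReal_nonneg
    have hqd : 0 < q ^ d := by positivity
    have k2 : (I2.card : ℝ) * (v / 2) ≤ (volume W).toReal := by
      have : q ^ d * ((I2.card : ℝ) * (v / 2)) ≤ q ^ d * (volume W).toReal := by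
        calc q ^ d * ((I2.card : ℝ) * (v / 2)) = (I2.card : ℝ) * (q ^ d * (v / 2)) := by ring
          _ ≤ _ := key2
      exact le_of_mul_le_mul_left this hqd
    rw [div_mul_eq_mul_div, le_div_iff₀ hδ] at key1
    have hcard' : (I1.card : ℝ) + I2.card = I.card := by exact_mod_cast hcard
    have h8 : 0 ≤ (I2.card : ℝ) * v := by positivity
    have h9 : δ * ((I2.card : ℝ) * v) ≤ 2 * ((I2.card : ℝ) * v) :=
      mul_le_mul_of_nonneg_right hδ2 h8
    rw [← hcard']
    nlinarith

end Pool.Agent.Saus
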