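import Pool.Agent.Lib.Saus.Seg

/-!
# MP_dcaa2d_co: the value of `Δ_n(ρ)` when the sausage is optimal
-/

set_option autoImplicit false

open MeasureTheory Metric Set Filter Topology
open scoped Pointwise RealInnerProductSpace

namespace Pool.Agent.Saus

/-- The points of the sausage. -/
private noncomputable def pt (m : ℕ) (t : ℝ) : E (m + 1) :=
  t • EuclideanSpace.single (0 : Fin (m + 1)) (1 : ℝ)

private theorem dist_pt (m : ℕ) (s t : ℝ) : dist (pt m s) (pt m t) = |s - t| := by
  rw [dist_eq_norm]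
  unfold pt
  rw [← sub_smul, norm_smul]
  simp

private theorem pt_inj (m : ℕ) : Function.Injective (fun i : ℕ => pt m (2 * (i : ℝ))) := by
  intro i j hij
  have h := dist_pt m (2 * (i : ℝ)) (2 * (j : ℝ))
  simp only at hij
  rw [hij, dist_self] at h
  have h2 := abs_eq_zero.mp h.symm
  have h3 : (i : ℝ) = j := by linarith
  exact_mod_cast h3

/-- The sausage. -/
private noncomputable def saus (m n : ℕ) : Finset (E (m + 1)) :=
  (Finset.range n).map ⟨fun i : ℕ => pt m (2 * (i : ℝ)), pt_inj m⟩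

private theorem card_saus (m n : ℕ) : (saus m n).card = n := by
  simp [saus]

private theorem isPack_saus (m n : ℕ) : IsPack (saus m n) := by
  intro x hx y hy hxy
  simp only [saus, Finset.mem_map, Function.Embedding.coeFn_mk] at hx hy
  obtain ⟨i, -, rfl⟩ := hx
  obtain ⟨j, -, rfl⟩ := hy
  rw [dist_pt]
  have hij : i ≠ j := fun h => hxy (by rw [h])
  have h1 : (1 : ℝ) ≤ |(i : ℝ) - j| := by
    rcases lt_or_gt_of_ne hij with h | h
    · have h2 : ((i : ℝ) + 1) ≤ j := by exact_mod_cast h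
      rw [abs_of_nonpos (by linarith)]
      linarith
    · have h2 : ((j : ℝ) + 1) ≤ i := by exact_mod_cast h
      rw [abs_of_nonneg (by linarith)]
      linarith
  have h2 : (2 * (i : ℝ) - 2 * (j : ℝ)) = 2 * ((i : ℝ) - j) := by ring
  rw [h2, abs_mul, abs_two]
  linarith

private theorem convexHull_saus (m n : ℕ) (hn : 1 ≤ n) :
    convexHull ℝ (saus m n : Set (E (m + 1))) = segment ℝ (pt m 0) (pt m (2 * ((n : ℝ) - 1))) := by
  have hn1 : (1 : ℝ) ≤ n := by exact_mod_cast hn
  apply Subset.antisymm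
  · apply convexHull_min _ (convex_segment _ _)
    intro x hx
    simp only [saus, Finset.coe_map, Function.Embedding.coeFn_mk, mem_image, Finset.mem_coe,
      Finset.mem_range] at hx
    obtain ⟨i, hi, rfl⟩ := hx
    have hi1 : (i : ℝ) + 1 ≤ n := by exact_mod_cast hi
    rw [segment_eq_image]
    by_cases h : n = 1
    · refine ⟨0, ⟨le_refl _, zero_le_one⟩, ?_⟩
      have hi0 : i = 0 := by omega
      subst hi0
      simp [pt]
    · have hn2 : (2 : ℝ) ≤ n := by exact_mod_cast (by omega : 2 ≤ n)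
      refine ⟨(i : ℝ) / ((n : ℝ) - 1), ⟨div_nonneg (Nat.cast_nonneg _) (by linarith), ?_⟩, ?_⟩
      · rw [div_le_one (by linarith)]
        linarith
      · have hne : (n : ℝ) - 1 ≠ 0 := by linarith
        simp only [pt, smul_smul, zero_smul, smul_zero, zero_add]
        congr 1
        field_simp
  · rw [← convexHull_pair]
    apply convexHull_mono
    intro x hx
    simp only [saus, Finset.coe_map, Function.Embedding.coeFn_mk, mem_image, Finset.mem_coe,
      Finset.mem_range]
    rcases hx with rfl | hx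
    · exact ⟨0, by omega, by simp⟩
    · rw [mem_singleton_iff] at hx
      refine ⟨n - 1, by omega, ?_⟩
      rw [hx, Nat.cast_sub hn]
      simp

theorem deltaN_eq {d : ℕ} (hd : 2 ≤ d) {ρ : ℝ} (hρ : 0 < ρ)
    (h : ∀ X : Finset (E d), X.Nonempty → IsPack X →
      2 * ((X.card : ℝ) - 1) * kappa (d - 1) * ρ ^ (d - 1) + kappa d * ρ ^ d ≤ V X ρ) :
    (∀ n : ℕ, 1 ≤ n → DeltaN d ρ n =
      (2 * ((n : ℝ) - 1) * kappa (d - 1) * ρ ^ (d - 1) + kappa d * ρ ^ d) / n) ∧
    Tendsto (fun n : ℕ => DeltaN d ρ n) atTop (𝓝 (2 * kappa (d - 1) * ρ ^ (d - 1))) := by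
  obtain ⟨m, rfl⟩ : ∃ m, d = m + 1 := ⟨d - 1, by omega⟩
  have hm : m + 1 - 1 = m := by omega
  rw [hm] at h ⊢
  have key : ∀ n : ℕ, 1 ≤ n → DeltaN (m + 1) ρ n =
      (2 * ((n : ℝ) - 1) * kappa m * ρ ^ m + kappa (m + 1) * ρ ^ (m + 1)) / n := by
    intro n hn
    have hn1 : (1 : ℝ) ≤ n := by exact_mod_cast hn
    have hk : ∀ j : ℕ, 0 ≤ kappa j := fun j => ENNReal.toReal_nonneg
    have hV : V (saus m n) ρ =
        2 * ((n : ℝ) - 1) * kappa m * ρ ^ m + kappa (m + 1) * ρ ^ (m + 1) := by
      unfold V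
      rw [convexHull_saus m n hn, volume_segment_add _ _ hρ.le, ENNReal.toReal_ofReal, dist_pt]
      · rw [zero_sub, abs_neg, abs_of_nonneg (by linarith)]
        ring
      · have h1 := hk m
        have h2 := hk (m + 1)
        positivity
    unfold DeltaN
    apply IsLeast.csInf_eq
    constructor
    · exact ⟨saus m n, card_saus m n, isPack_saus m n, by rw [hV]⟩
    · rintro v ⟨X, hX, hp, rfl⟩
      have hne : X.Nonempty := by
        rw [← Finset.card_pos]
        omega
      have h1 := h X hne hp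
      rw [hX] at h1
      exact div_le_div_of_nonneg_right h1 (by linarith)
  refine ⟨key, ?_⟩
  have hlim : Tendsto (fun n : ℕ => 2 * kappa m * ρ ^ m +
      (kappa (m + 1) * ρ ^ (m + 1) - 2 * kappa m * ρ ^ m) / (n : ℝ)) atTop
      (𝓝 (2 * kappa m * ρ ^ m + 0)) :=
    tendsto_const_nhds.add (tendsto_const_div_atTop_nhds_zero_nat _)
  rw [add_zero] at hlim
  refine hlim.congr' ?_
  filter_upwards [eventually_ge_atTop 1] with n hn
  have hn1 : (n : ℝ) ≠ 0 := by
    have : (1 : ℝ) ≤ n := by exact_mod_cast hn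
    linarith
  rw [key n hn]
  field_simp
  ring

end Pool.Agent.Saus
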