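import Pool.Agent.Lib.Saus.Coord

/-!
# MP_dcaa2d_co: points in a ball with mutual distances at least two give a spherical code
-/

set_option autoImplicit false

open MeasureTheory Metric Set Filter Topology
open scoped Pointwise RealInnerProductSpace ENNReal

namespace Pool.Agent.Saus

/-- The lift of a point of a ball of radius `R` to the unit sphere. -/
private noncomputable def liftPt {d : ℕ} (R : ℝ) (c y : E d) : E (d + 1) :=
  R⁻¹ • cminv (EuclideanSpace.basisFun (Fin (d + 1)) ℝ) (Real.sqrt (R ^ 2 - ‖y - c‖ ^ 2), y - c)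

private theorem cm_liftPt {d : ℕ} (R : ℝ) (c y : E d) :
    cm (EuclideanSpace.basisFun (Fin (d + 1)) ℝ) (liftPt R c y) =
      R⁻¹ • (Real.sqrt (R ^ 2 - ‖y - c‖ ^ 2), y - c) := by
  rw [liftPt, cm_smul, cm_cminv]

private theorem norm_liftPt {d : ℕ} {R : ℝ} (hR : 0 < R) {c y : E d} (hy : dist y c ≤ R) :
    ‖liftPt R c y‖ = 1 := by
  have hn : ‖y - c‖ ≤ R := by rwa [← dist_eq_norm]
  have h0 : 0 ≤ R ^ 2 - ‖y - c‖ ^ 2 := by nlinarith [norm_nonneg (y - c)]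
  have h1 := norm_sq_cm (EuclideanSpace.basisFun (Fin (d + 1)) ℝ) (liftPt R c y)
  rw [cm_liftPt] at h1
  simp only [Prod.smul_fst, Prod.smul_snd, smul_eq_mul, norm_smul, mul_pow, Real.sq_sqrt h0,
    norm_inv, Real.norm_eq_abs, abs_of_pos hR] at h1
  have h2 : ‖liftPt R c y‖ ^ 2 = 1 := by
    rw [h1]
    field_simp
    ring
  nlinarith [norm_nonneg (liftPt R c y)]

private theorem norm_sub_liftPt {d : ℕ} {R : ℝ} (hR : 0 < R) {c x y : E d} (h : 2 ≤ dist x y) :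
    4 / R ^ 2 ≤ ‖liftPt R c x - liftPt R c y‖ ^ 2 := by
  have h1 := norm_sq_cm (EuclideanSpace.basisFun (Fin (d + 1)) ℝ) (liftPt R c x - liftPt R c y)
  rw [cm_sub, cm_liftPt, cm_liftPt] at h1
  simp only [Prod.fst_sub, Prod.snd_sub, Prod.smul_fst, Prod.smul_snd, smul_eq_mul] at h1
  have h2 : R⁻¹ • (x - c) - R⁻¹ • (y - c) = R⁻¹ • (x - y) := by
    rw [← smul_sub]
    congr 1
    abel
  rw [h2, norm_smul, norm_inv, Real.norm_eq_abs, abs_of_pos hR, mul_pow] at h1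
  rw [h1]
  have h3 : 2 ≤ ‖x - y‖ := by rwa [← dist_eq_norm]
  have h4 : 4 / R ^ 2 ≤ R⁻¹ ^ 2 * ‖x - y‖ ^ 2 := by
    rw [inv_pow, div_eq_inv_mul]
    exact mul_le_mul_of_nonneg_left (by nlinarith) (by positivity)
  nlinarith [sq_nonneg (R⁻¹ * Real.sqrt (R ^ 2 - ‖x - c‖ ^ 2) - R⁻¹ * Real.sqrt (R ^ 2 - ‖y - c‖ ^ 2))]

theorem lift_code {d : ℕ} {R : ℝ} (hR : 0 < R) (c : E d) (Y : Finset (E d)) (hY : IsPack Y)
    (hYR : ∀ y ∈ Y, dist y c ≤ R) :
    ∃ C : Finset (E (d + 1)), C.card = Y.card ∧ (∀ x ∈ C, ‖x‖ = 1) ∧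
      ∀ x ∈ C, ∀ y ∈ C, x ≠ y → ⟪x, y⟫ ≤ 1 - 2 / R ^ 2 := by
  classical
  have hinj : Set.InjOn (liftPt R c) (Y : Set (E d)) := by
    intro x hx y hy hxy
    by_contra hne
    have h1 := norm_sub_liftPt hR (c := c) (hY x hx y hy hne)
    rw [hxy, sub_self, norm_zero] at h1
    have h2 : 0 < 4 / R ^ 2 := by positivity
    norm_num at h1
    linarith
  refine ⟨Y.image (liftPt R c), Finset.card_image_of_injOn hinj, ?_, ?_⟩
  · intro x hx
    obtain ⟨y, hy, rfl⟩ := Finset.mem_image.1 hx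
    exact norm_liftPt hR (hYR y hy)
  · intro x hx y hy hne
    obtain ⟨x', hx', rfl⟩ := Finset.mem_image.1 hx
    obtain ⟨y', hy', rfl⟩ := Finset.mem_image.1 hy
    have hne' : x' ≠ y' := fun h => hne (by rw [h])
    have h1 := norm_sub_liftPt hR (c := c) (hY x' hx' y' hy' hne')
    rw [norm_sub_sq_real, norm_liftPt hR (hYR x' hx'), norm_liftPt hR (hYR y' hy')] at h1
    have h2 : 4 / R ^ 2 = 2 * (2 / R ^ 2) := by ring
    rw [h2] at h1
    linarith

end Pool.Agent.Saus
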