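import Mathlib

/-!
A numerical inequality used for the Kabatiansky-Levenshtein bound in the sausage problem.
-/

set_option autoImplicit false

namespace Pool.Agent.Saus

private lemma log_17_16 : Real.log (17 / 16) ≤ 0.060625 := by
  rw [Real.log_le_iff_le_exp (by norm_num)]
  have h := Real.sum_le_exp_of_nonneg (x := (0.060625 : ℝ)) (by norm_num) 5
  refine le_trans ?_ h
  norm_num [Finset.sum_range_succ, Nat.factorial]

private lemma log_num : Real.log (4 / 3.690871875) ≤ 0.08044 := by
  rw [Real.log_le_iff_le_exp (by norm_num)]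
  have h := Real.sum_le_exp_of_nonneg (x := (0.08044 : ℝ)) (by norm_num) 6
  refine le_trans ?_ h
  norm_num [Finset.sum_range_succ, Nat.factorial]

/-- H5n -/
theorem numeric_kl : (2 : ℝ) ^ (0.599 : ℝ) * ((17 : ℝ) ^ ((17 : ℝ) / 16) / 16) <
    Real.sqrt (9 * (9 + Real.sqrt 17) / 32) := by
  have hs : (4.1231 : ℝ) < Real.sqrt 17 := by
    rw [Real.lt_sqrt (by norm_num)]
    norm_num
  have hy : (3.690871875 : ℝ) < 9 * (9 + Real.sqrt 17) / 32 := by
    linarith
  have ha : (0 : ℝ) < (2 : ℝ) ^ (0.599 : ℝ) * ((17 : ℝ) ^ ((17 : ℝ) / 16) / 16) := by positivity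
  rw [Real.lt_sqrt ha.le]
  refine lt_of_lt_of_le ?_ hy.le
  rw [← Real.log_lt_log_iff (by positivity) (by norm_num), Real.log_pow,
    Real.log_mul (by positivity) (by positivity), Real.log_div (by positivity) (by norm_num),
    Real.log_rpow (by norm_num), Real.log_rpow (by norm_num)]
  have h16 : Real.log 16 = 4 * Real.log 2 := by
    rw [show (16 : ℝ) = 2 ^ 4 by norm_num, Real.log_pow]
    norm_num
  have h17 : Real.log 17 = Real.log (17 / 16) + 4 * Real.log 2 := by
    rw [Real.log_div (by norm_num) (by norm_num), h16]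
    ring
  have h4 : Real.log 4 = 2 * Real.log 2 := by
    rw [show (4 : ℝ) = 2 ^ 2 by norm_num, Real.log_pow]
    norm_num
  have h3 : Real.log 3.690871875 = 2 * Real.log 2 - Real.log (4 / 3.690871875) := by
    rw [Real.log_div (by norm_num) (by norm_num), h4]
    ring
  have hl2 := Real.log_two_gt_d9
  have e1 := log_17_16
  have e2 := log_num
  rw [h17, h16, h3]
  push_cast
  nlinarith [e1, e2, hl2]

end Pool.Agent.Saus
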