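import Pool.Agent.Lib.Saus.Code
import Pool.Agent.Lib.Saus.Lift
import Pool.Agent.Lib.Saus.Num

/-!
# MP_dcaa2d_co: the Kabatiansky-Levenshtein bound for balls of radius less than 2

From the bound for spherical codes (`code_bound`), the lift to the sphere (`lift_code`) and the
numerical inequality (`numeric_kl`).
-/

set_option autoImplicit false

open MeasureTheory Metric Set Filter Topology
open scoped Pointwise RealInnerProductSpace

namespace Pool.Agent.Saus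

namespace KL

/-- binomial theorem with `p = 1/17` -/
private lemma choose_le (D m : ℕ) :
    ((D + m).choose m : ℝ) ≤ 17 ^ m * (17 / 16) ^ D := by
  have h1 : (1 : ℝ) = ∑ i ∈ Finset.range (D + m + 1),
      (1 / 17 : ℝ) ^ i * (16 / 17 : ℝ) ^ (D + m - i) * ((D + m).choose i : ℝ) := by
    rw [← add_pow]
    norm_num
  have hm : m ∈ Finset.range (D + m + 1) := Finset.mem_range.2 (by omega)
  have h2 : (1 / 17 : ℝ) ^ m * (16 / 17 : ℝ) ^ (D + m - m) * ((D + m).choose m : ℝ) ≤ 1 :=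
    (Finset.single_le_sum
      (f := fun i => (1 / 17 : ℝ) ^ i * (16 / 17 : ℝ) ^ (D + m - i) * ((D + m).choose i : ℝ))
      (fun i _ => by positivity) hm).trans_eq h1.symm
  rw [Nat.add_sub_cancel] at h2
  have h3 : (17 : ℝ) ^ m * (17 / 16 : ℝ) ^ D * ((1 / 17 : ℝ) ^ m * (16 / 17 : ℝ) ^ D) = 1 := by
    rw [mul_mul_mul_comm, ← mul_pow, ← mul_pow]
    norm_num
  calc ((D + m).choose m : ℝ) = (17 ^ m * (17 / 16) ^ D) *
        ((1 / 17 : ℝ) ^ m * (16 / 17 : ℝ) ^ D * ((D + m).choose m : ℝ)) := by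
        rw [← mul_assoc, h3, one_mul]
    _ ≤ (17 ^ m * (17 / 16) ^ D) * 1 := mul_le_mul_of_nonneg_left h2 (by positivity)
    _ = 17 ^ m * (17 / 16) ^ D := mul_one _

private lemma choose_le' (D : ℕ) :
    ((D + D / 16).choose (D / 16) : ℝ) ≤ ((17 : ℝ) ^ ((17 : ℝ) / 16) / 16) ^ D := by
  refine (choose_le D (D / 16)).trans ?_
  have h1 : ((17 : ℝ) ^ (D / 16) : ℝ) ≤ ((17 : ℝ) ^ ((1 : ℝ) / 16)) ^ D := by
    rw [← Real.rpow_natCast, ← Real.rpow_natCast, ← Real.rpow_mul (by norm_num)]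
    refine Real.rpow_le_rpow_of_exponent_le (by norm_num) ?_
    have := Nat.cast_div_le (α := ℝ) (m := D) (n := 16)
    push_cast at this ⊢
    linarith
  have h2 : (17 : ℝ) ^ ((17 : ℝ) / 16) / 16 = (17 : ℝ) ^ ((1 : ℝ) / 16) * (17 / 16) := by
    have : (17 : ℝ) / 16 = 1 / 16 + 1 := by norm_num
    rw [this, Real.rpow_add (by norm_num), Real.rpow_one]
    norm_num
    ring
  rw [h2, mul_pow]
  exact mul_le_mul_of_nonneg_right h1 (by positivity)

private lemma tendsto_ratio (L : ℕ) :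
    Tendsto (fun d : ℕ => (((d + 1) / 16 - L : ℕ) : ℝ) / ((d + 1 : ℕ) : ℝ)) atTop (𝓝 (1 / 16)) := by
  have h0 : Tendsto (fun d : ℕ => ((d + 1 : ℕ) : ℝ)) atTop atTop :=
    tendsto_natCast_atTop_atTop.comp (tendsto_add_atTop_nat 1)
  have h1 : Tendsto (fun d : ℕ => (1 / 16 : ℝ) - ((L : ℝ) + 1) / ((d + 1 : ℕ) : ℝ)) atTop
      (𝓝 (1 / 16 - 0)) := tendsto_const_nhds.sub (h0.const_div_atTop _)
  rw [sub_zero] at h1
  refine tendsto_of_tendsto_of_tendsto_of_le_of_le h1 tendsto_const_nhds (fun d => ?_) fun d => ?_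
  · have hp : (0 : ℝ) < ((d + 1 : ℕ) : ℝ) := by positivity
    change (1 / 16 : ℝ) - ((L : ℝ) + 1) / ((d + 1 : ℕ) : ℝ) ≤ _
    rw [le_div_iff₀ hp, sub_mul, div_mul_cancel₀ _ hp.ne']
    have h2 : (d + 1) ≤ 16 * ((d + 1) / 16 - L) + 16 * L + 16 := by omega
    have h3 : ((d + 1 : ℕ) : ℝ) ≤ 16 * (((d + 1) / 16 - L : ℕ) : ℝ) + 16 * L + 16 := by
      exact_mod_cast h2
    linarith
  · have hp : (0 : ℝ) < ((d + 1 : ℕ) : ℝ) := by positivity
    change _ ≤ (1 / 16 : ℝ)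
    rw [div_le_iff₀ hp]
    have h2 : 16 * ((d + 1) / 16 - L) ≤ d + 1 := by omega
    have h3 : 16 * (((d + 1) / 16 - L : ℕ) : ℝ) ≤ ((d + 1 : ℕ) : ℝ) := by
      exact_mod_cast h2
    linarith

private lemma tendsto_za (L : ℕ) :
    Tendsto (fun d : ℕ => 2 * za (d + 1) ((d + 1) / 16 - L)) atTop (𝓝 (Real.sqrt 17 / 9)) := by
  have h0 : Tendsto (fun d : ℕ => ((d + 1 : ℕ) : ℝ)) atTop atTop :=
    tendsto_natCast_atTop_atTop.comp (tendsto_add_atTop_nat 1)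
  have hx := tendsto_ratio L
  have hy : Tendsto (fun d : ℕ => 1 / ((d + 1 : ℕ) : ℝ)) atTop (𝓝 0) := h0.const_div_atTop 1
  have hlim : Tendsto (fun d : ℕ =>
      (((((d + 1) / 16 - L : ℕ) : ℝ) / ((d + 1 : ℕ) : ℝ) + 1 / ((d + 1 : ℕ) : ℝ)) *
        (1 + (((d + 1) / 16 - L : ℕ) : ℝ) / ((d + 1 : ℕ) : ℝ) - 2 * (1 / ((d + 1 : ℕ) : ℝ)))) /
      ((1 + 2 * ((((d + 1) / 16 - L : ℕ) : ℝ) / ((d + 1 : ℕ) : ℝ))) *
        (1 + 2 * ((((d + 1) / 16 - L : ℕ) : ℝ) / ((d + 1 : ℕ) : ℝ)) -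
          2 * (1 / ((d + 1 : ℕ) : ℝ))))) atTop
      (𝓝 (((1 / 16 + 0) * (1 + 1 / 16 - 2 * 0)) /
        ((1 + 2 * (1 / 16)) * (1 + 2 * (1 / 16) - 2 * 0)))) := by
    refine Tendsto.div ?_ ?_ (by norm_num)
    · exact (hx.add hy).mul ((hx.const_add 1).sub (hy.const_mul 2))
    · exact ((hx.const_mul 2).const_add 1).mul (((hx.const_mul 2).const_add 1).sub
        (hy.const_mul 2))
  have h2 := ((Real.continuous_sqrt.tendsto _).comp hlim).const_mul 2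
  have h3 : 2 * Real.sqrt (((1 / 16 + 0) * (1 + 1 / 16 - 2 * 0)) /
        ((1 + 2 * (1 / 16)) * (1 + 2 * (1 / 16) - 2 * 0))) = Real.sqrt 17 / 9 := by
    have : (((1 / 16 + 0) * (1 + 1 / 16 - 2 * 0)) /
        ((1 + 2 * (1 / 16)) * (1 + 2 * (1 / 16) - 2 * 0)) : ℝ) = 17 / 18 ^ 2 := by norm_num
    rw [this, Real.sqrt_div (by norm_num), Real.sqrt_sq (by norm_num)]
    ring
  rw [h3] at h2
  refine h2.congr fun d => ?_
  simp only [Function.comp, za]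
  congr 2
  have hp : (0 : ℝ) < ((d + 1 : ℕ) : ℝ) := by positivity
  generalize ((d + 1 : ℕ) : ℝ) = D at hp
  generalize ((((d + 1) / 16 - L : ℕ) : ℝ)) = k
  field_simp

private lemma exists_L {s ε : ℝ} (h : s + ε < Real.sqrt 17 / 9) :
    ∃ L : ℕ, s + ε < Real.sqrt 17 / 9 * Real.cos (Real.pi / (L + 2)) := by
  have h1 : Tendsto (fun L : ℕ => Real.pi / ((L : ℝ) + 2)) atTop (𝓝 0) :=
    (tendsto_atTop_add_const_right _ 2 tendsto_natCast_atTop_atTop).const_div_atTop _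
  have h2 := ((Real.continuous_cos.tendsto 0).comp h1).const_mul (Real.sqrt 17 / 9)
  rw [Real.cos_zero, mul_one] at h2
  exact (h2.eventually_const_lt h).exists

private lemma eventually_za {s ε : ℝ} {L : ℕ}
    (h : s + ε < Real.sqrt 17 / 9 * Real.cos (Real.pi / (L + 2))) :
    ∀ᶠ d : ℕ in atTop,
      s + ε ≤ 2 * za (d + 1) ((d + 1) / 16 - L) * Real.cos (Real.pi / (L + 2)) := by
  have h1 := (tendsto_za L).mul_const (Real.cos (Real.pi / (L + 2)))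
  exact (h1.eventually_const_lt h).mono fun d hd => hd.le

private lemma one_le_A : (1 : ℝ) ≤ (17 : ℝ) ^ ((17 : ℝ) / 16) / 16 := by
  rw [le_div_iff₀ (by norm_num), one_mul]
  calc (16 : ℝ) ≤ 17 ^ (1 : ℝ) := by norm_num
    _ ≤ 17 ^ ((17 : ℝ) / 16) := Real.rpow_le_rpow_of_exponent_le (by norm_num) (by norm_num)

private lemma sqrt17_lt : Real.sqrt 17 < 4.2 := by
  rw [Real.sqrt_lt' (by norm_num)]
  norm_num

private lemma star_le : Real.sqrt (9 * (9 + Real.sqrt 17) / 32) ≤ 1.93 := by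
  rw [Real.sqrt_le_left (by norm_num)]
  have := sqrt17_lt
  norm_num at this ⊢
  linarith

private lemma s_lt {R : ℝ} (hR : 0 < R) (h : R < Real.sqrt (9 * (9 + Real.sqrt 17) / 32)) :
    1 - 2 / R ^ 2 < Real.sqrt 17 / 9 := by
  have h0 : (Real.sqrt 17) ^ 2 = 17 := Real.sq_sqrt (by norm_num)
  have h1 : 0 ≤ Real.sqrt 17 := Real.sqrt_nonneg _
  have h2 := sqrt17_lt
  have h3 : R ^ 2 < 9 * (9 + Real.sqrt 17) / 32 := by
    have := pow_lt_pow_left₀ h hR.le (two_ne_zero)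
    rwa [Real.sq_sqrt (by positivity)] at this
  have h4 : 0 < R ^ 2 := by positivity
  have h5 : 1 - Real.sqrt 17 / 9 < 2 / R ^ 2 := by
    rw [lt_div_iff₀ h4]
    have h6 : 0 < 1 - Real.sqrt 17 / 9 := by linarith
    calc (1 - Real.sqrt 17 / 9) * R ^ 2 < (1 - Real.sqrt 17 / 9) *
          (9 * (9 + Real.sqrt 17) / 32) := mul_lt_mul_of_pos_left h3 h6
      _ = (81 - Real.sqrt 17 ^ 2) / 32 := by ring
      _ = 2 := by rw [h0]; norm_num
  linarith

private lemma growth {K A B : ℝ} (hA : 0 < A) (hAB : A < B) :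
    ∀ᶠ d : ℕ in atTop, K * A ^ (d + 1) ≤ B ^ d := by
  have h1 : Tendsto (fun d : ℕ => (B / A) ^ d) atTop atTop :=
    tendsto_pow_atTop_atTop_of_one_lt ((one_lt_div hA).2 hAB)
  filter_upwards [h1.eventually_ge_atTop (K * A)] with d hd
  rw [div_pow, le_div_iff₀ (by positivity)] at hd
  calc K * A ^ (d + 1) = K * A * A ^ d := by ring
    _ ≤ B ^ d := hd

end KL

open KL in
theorem kl_bound : ∃ R r : ℝ, (2 : ℝ) ^ (0.599 : ℝ) < r ∧ r ≤ R ∧ R ≤ 1.93 ∧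
    ∀ᶠ d : ℕ in atTop, ∀ (c : E d) (Y : Finset (E d)), IsPack Y → (∀ y ∈ Y, dist y c ≤ R) →
      (Y.card : ℝ) ≤ (R / r) ^ d := by
  have hA1 := one_le_A
  set A : ℝ := (17 : ℝ) ^ ((17 : ℝ) / 16) / 16 with hA
  have hA0 : 0 < A := by linarith
  have hnum := numeric_kl
  rw [← hA] at hnum
  have hr0 : (0 : ℝ) < (2 : ℝ) ^ (0.599 : ℝ) := by positivity
  obtain ⟨R, hR1, hR2⟩ := exists_between hnum
  have hR0 : 0 < R := lt_trans (by positivity) hR1
  obtain ⟨r, hr1, hr2⟩ := exists_between ((lt_div_iff₀ hA0).2 hR1)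
  have hrp : 0 < r := hr0.trans hr1
  have hrA : r * A < R := (lt_div_iff₀ hA0).1 hr2
  refine ⟨R, r, hr1, ?_, (hR2.le.trans star_le), ?_⟩
  · nlinarith
  have hs := s_lt hR0 hR2
  have hs1 : 1 - 2 / R ^ 2 < 1 := by
    have : 0 < 2 / R ^ 2 := by positivity
    linarith
  set s : ℝ := 1 - 2 / R ^ 2 with hsdef
  obtain ⟨e, he1, he2⟩ := exists_between hs
  have hε : 0 < e - s := by linarith
  have hse : s + (e - s) < Real.sqrt 17 / 9 := by linarith
  obtain ⟨L, hL⟩ := exists_L hse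
  have hAB : A < R / r := by
    rw [lt_div_iff₀ hrp]
    linarith
  filter_upwards [eventually_za hL, growth (K := (1 - s) / (e - s)) hA0 hAB,
    eventually_ge_atTop 3, eventually_ge_atTop (16 * L)] with d h1 h2 h3 h4 c Y hY hYR
  obtain ⟨C, hC1, hC2, hC3⟩ := lift_code hR0 c Y hY hYR
  have h5 : L ≤ (d + 1) / 16 := by omega
  have h6 := code_bound (by omega) h5 C hC2 hε hs1 hC3 h1
  rw [← hC1]
  calc (C.card : ℝ) ≤ (1 - s) / (e - s) * ((d + 1 + (d + 1) / 16).choose ((d + 1) / 16) : ℝ) := h6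
    _ ≤ (1 - s) / (e - s) * A ^ (d + 1) :=
        mul_le_mul_of_nonneg_left (choose_le' (d + 1))
          (div_nonneg (by linarith) hε.le)
    _ ≤ (R / r) ^ d := h2

end Pool.Agent.Saus
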