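import Pool.Agent.Lib.Saus.Defs

/-!
# MP_dcaa2d_co: row A2, the length of a packing with a long diameter

If all points of a packing are within `D` of the line of the diameter `x1 x2`, then consecutive points
in the order of the projection to this line have a gap of at least `2 - 2 D ^ 2`.
-/

set_option autoImplicit false

open MeasureTheory Metric Set Filter Topology
open scoped Pointwise RealInnerProductSpace

namespace Pool.Agent.Saus

private theorem spread_aux {α : Type*} (s : α → ℝ) (g : ℝ) (n : ℕ) :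
    ∀ X : Finset α, X.card = n + 1 →
      (∀ x ∈ X, ∀ y ∈ X, x ≠ y → g ≤ |s x - s y|) →
      ∃ a ∈ X, ∃ b ∈ X, (∀ x ∈ X, s a ≤ s x ∧ s x ≤ s b) ∧ g * n ≤ s b - s a := by
  classical
  induction n with
  | zero =>
    intro X hX _
    obtain ⟨a, rfl⟩ := Finset.card_eq_one.mp hX
    refine ⟨a, by simp, a, by simp, ?_, by simp⟩
    intro x hx
    rw [Finset.mem_singleton] at hx
    rw [hx]
    exact ⟨le_refl _, le_refl _⟩
  | succ n ih =>
    intro X hX hp
    have hne : X.Nonempty := by
      rw [← Finset.card_pos, hX]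
      omega
    obtain ⟨m, hm, hmax⟩ := Finset.exists_max_image X s hne
    have hc : (X.erase m).card = n + 1 := by
      rw [Finset.card_erase_of_mem hm, hX]
      rfl
    obtain ⟨a, ha, b, hb, hab, hlen⟩ := ih (X.erase m) hc (fun x hx y hy hxy =>
      hp x (Finset.mem_of_mem_erase hx) y (Finset.mem_of_mem_erase hy) hxy)
    have haX := Finset.mem_of_mem_erase ha
    have hbX := Finset.mem_of_mem_erase hb
    have hbm : b ≠ m := Finset.ne_of_mem_erase hb
    refine ⟨a, haX, m, hm, ?_, ?_⟩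
    · intro x hx
      refine ⟨?_, hmax x hx⟩
      by_cases hxm : x = m
      · rw [hxm]
        exact hmax a haX
      · exact (hab x (Finset.mem_erase.mpr ⟨hxm, hx⟩)).1
    · have h1 := hp m hm b hbX (Ne.symm hbm)
      rw [abs_of_nonneg (sub_nonneg.mpr (hmax b hbX))] at h1
      push_cast
      linarith

theorem pack_length {d : ℕ} (X : Finset (E d)) (hX : IsPack X) {x1 x2 : E d} (h1 : x1 ∈ X)
    (h2 : x2 ∈ X) (h12 : x1 ≠ x2) (hdiam : ∀ x ∈ X, ∀ y ∈ X, dist x y ≤ dist x1 x2) {D : ℝ}
    (hD : 0 ≤ D) (hz : ∀ z ∈ X, area x1 x2 z ≤ dist x1 x2 * D / 2) :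
    2 * ((X.card : ℝ) - 1) - dist x1 x2 ≤ 2 * D ^ 2 * ((X.card : ℝ) - 1) := by
  classical
  set L : ℝ := dist x1 x2 with hL
  have hL0 : 0 < L := dist_pos.mpr h12
  have hLn : ‖x2 - x1‖ = L := by rw [hL, dist_comm, dist_eq_norm]
  set u : E d := L⁻¹ • (x2 - x1) with hu
  have hun : ‖u‖ = 1 := by
    rw [hu, norm_smul, hLn, norm_inv, Real.norm_of_nonneg hL0.le, inv_mul_cancel₀ hL0.ne']
  have huu : ⟪u, u⟫ = 1 := by rw [real_inner_self_eq_norm_sq, hun, one_pow]
  have hx21 : x2 - x1 = L • u := by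
    rw [hu, smul_smul, mul_inv_cancel₀ hL0.ne', one_smul]
  set s : E d → ℝ := fun x => ⟪x - x1, u⟫ with hs
  set t : E d → E d := fun x => x - x1 - s x • u with ht
  have htu : ∀ x, ⟪t x, u⟫ = 0 := by
    intro x
    simp only [ht, inner_sub_left, real_inner_smul_left, huu, hs]
    ring
  -- the norm of a combination
  have hnorm : ∀ (c : ℝ) (v : E d), ⟪v, u⟫ = 0 → ‖c • u + v‖ ^ 2 = c ^ 2 + ‖v‖ ^ 2 := by
    intro c v hv
    rw [norm_add_sq_real, norm_smul, hun, real_inner_smul_left, real_inner_comm, hv, mul_one,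
      Real.norm_eq_abs, sq_abs]
    ring
  have hdec : ∀ x, x - x1 = s x • u + t x := by
    intro x
    simp only [ht]
    abel
  have htD : ∀ x ∈ X, ‖t x‖ ≤ D := by
    intro x hx
    have h := hz x hx
    have hin : ⟪x2 - x1, x - x1⟫ = L * s x := by
      rw [hx21, real_inner_smul_left, real_inner_comm]
    have hn := hnorm (s x) (t x) (htu x)
    rw [← hdec x] at hn
    have harea : area x1 x2 x = (1 / 2) * (L * ‖t x‖) := by
      unfold area
      congr 1
      rw [hLn, hin, hn]
      rw [show L ^ 2 * (s x ^ 2 + ‖t x‖ ^ 2) - (L * s x) ^ 2 = (L * ‖t x‖) ^ 2 by ring]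
      exact Real.sqrt_sq (by positivity)
    rw [harea] at h
    have : L * ‖t x‖ ≤ L * D := by linarith
    exact le_of_mul_le_mul_left this hL0
  have hgap : ∀ x ∈ X, ∀ y ∈ X, x ≠ y → 2 - 2 * D ^ 2 ≤ |s x - s y| := by
    intro x hx y hy hxy
    have h4 := hX x hx y hy hxy
    have hxy2 : x - y = (s x - s y) • u + (t x - t y) := by
      rw [show x - y = (x - x1) - (y - x1) by abel, hdec x, hdec y, sub_smul]
      abel
    have hn := hnorm (s x - s y) (t x - t y) (by rw [inner_sub_left, htu, htu, sub_zero])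
    rw [← hxy2] at hn
    rw [dist_eq_norm] at h4
    have ht2 : ‖t x - t y‖ ≤ 2 * D := by
      have := norm_sub_le (t x) (t y)
      have a := htD x hx
      have b := htD y hy
      linarith
    have hq : 4 ≤ |s x - s y| ^ 2 + 4 * D ^ 2 := by
      rw [sq_abs]
      nlinarith [norm_nonneg (t x - t y), norm_nonneg (x - y)]
    by_contra hlt
    push Not at hlt
    have h0 : 0 ≤ |s x - s y| := abs_nonneg _
    nlinarith [sq_nonneg D]
  have hcard : 0 < X.card := Finset.card_pos.mpr ⟨x1, h1⟩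
  obtain ⟨a, ha, b, hb, -, hlen⟩ := spread_aux s (2 - 2 * D ^ 2) (X.card - 1) X (by omega) hgap
  have hcast : ((X.card - 1 : ℕ) : ℝ) = (X.card : ℝ) - 1 := by
    rw [Nat.cast_sub (by omega), Nat.cast_one]
  rw [hcast] at hlen
  have hba : s b - s a ≤ L := by
    have h : s b - s a = ⟪b - a, u⟫ := by
      simp only [hs]
      rw [← inner_sub_left]
      congr 1
      abel
    rw [h]
    calc ⟪b - a, u⟫ ≤ ‖b - a‖ * ‖u‖ := real_inner_le_norm _ _
      _ = dist b a := by rw [hun, mul_one, dist_eq_norm]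
      _ ≤ L := hdiam b hb a ha
  linarith

end Pool.Agent.Saus
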