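import Pool.Agent.Lib.Saus.Bad

/-!
# MP_dcaa2d_co, row B2: at least half of the points carry a large triangle
-/

set_option autoImplicit false

open MeasureTheory Metric Set Filter Topology
open scoped Pointwise RealInnerProductSpace

namespace Pool.Agent.Saus

/-- reals in `[0, A)` at mutual distance at least one -/
theorem card_sep {α : Type*} (B : Finset α) (f : α → ℝ) {A : ℝ} (hA : 0 ≤ A)
    (h0 : ∀ x ∈ B, 0 ≤ f x) (h1 : ∀ x ∈ B, f x < A)
    (h2 : ∀ x ∈ B, ∀ y ∈ B, x ≠ y → 1 ≤ |f x - f y|) : (B.card : ℝ) ≤ A + 1 := by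
  have h3 : B.card ≤ (Finset.range (⌊A⌋₊ + 1)).card := by
    refine Finset.card_le_card_of_injOn (fun x => ⌊f x⌋₊) ?_ ?_
    · intro x hx
      rw [Finset.mem_coe, Finset.mem_range]
      exact Nat.lt_succ_of_le (Nat.floor_le_floor (h1 x hx).le)
    · intro x hx y hy hxy
      by_contra hne
      have h4 := h2 x hx y hy hne
      have h5 := Nat.floor_le (h0 x hx)
      have h6 := Nat.floor_le (h0 y hy)
      have h7 := Nat.lt_floor_add_one (f x)
      have h8 := Nat.lt_floor_add_one (f y)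
      have hxy' : ⌊f x⌋₊ = ⌊f y⌋₊ := hxy
      rw [hxy'] at h5 h7
      have h9 : |f x - f y| < 1 := by
        rw [abs_lt]
        constructor <;> linarith
      linarith
  rw [Finset.card_range] at h3
  have h4 := Nat.floor_le hA
  have h5 : (B.card : ℝ) ≤ ((⌊A⌋₊ + 1 : ℕ) : ℝ) := by exact_mod_cast h3
  push_cast at h5
  linarith

theorem many_triangles {d : ℕ} (X : Finset (E d)) (hX : IsPack X) (hcard : 11 ≤ X.card)
    {x1 x2 z : E d} (h1 : x1 ∈ X) (h2 : x2 ∈ X) (hzX : z ∈ X) (h12 : x1 ≠ x2)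
    (hdiam : ∀ x ∈ X, ∀ y ∈ X, dist x y ≤ dist x1 x2) {D s0 τ : ℝ} (hD : 0 < D)
    (hzD : area x1 x2 z = dist x1 x2 * D / 2) (hs0 : 0 < s0) (hs1 : s0 ≤ 1) (hτ : 0 < τ)
    (hσ : 4 * τ ≤ s0 ^ 2) (hL : 64 * τ * dist x1 x2 ≤ s0 * D * ((X.card : ℝ) - 1)) :
    ∃ I ⊆ X, X.card ≤ 2 * I.card ∧ ∀ x ∈ I, ∃ a ∈ convexHull ℝ (X : Set (E d)),
      ∃ b ∈ convexHull ℝ (X : Set (E d)), dist a x ≤ s0 ∧ dist b x ≤ s0 ∧ τ ≤ area x a b := by
  classical
  obtain ⟨K, hKdef⟩ : ∃ K : Set (E d), K = convexHull ℝ (X : Set (E d)) := ⟨_, rfl⟩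
  rw [← hKdef]
  have hK : Convex ℝ K := by
    rw [hKdef]
    exact convex_convexHull ℝ _
  have hXK : ∀ x ∈ X, x ∈ K := by
    intro x hx
    rw [hKdef]
    exact subset_convexHull ℝ _ hx
  obtain ⟨U, hU⟩ : ∃ U : E d, U = x2 - x1 := ⟨_, rfl⟩
  obtain ⟨L, hLdef⟩ : ∃ L : ℝ, L = ‖U‖ := ⟨_, rfl⟩
  have hdist : dist x1 x2 = L := by
    rw [hLdef, hU, dist_comm, dist_eq_norm]
  rw [hdist] at hdiam hzD hL
  have hL0 : 0 < L := by
    rw [← hdist]
    exact dist_pos.2 h12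
  have hUL : ⟪U, U⟫ = L ^ 2 := by rw [real_inner_self_eq_norm_sq, hLdef]
  obtain ⟨S, hS⟩ : ∃ S : E d → ℝ, ∀ y, S y = ⟪y - x1, U⟫ := ⟨fun y => ⟪y - x1, U⟫, fun _ => rfl⟩
  have hSx2 : S x2 = L ^ 2 := by rw [hS, ← hU, hUL]
  -- bounds for the coordinate
  have hSlow : ∀ y ∈ X, ‖y - x1‖ ^ 2 ≤ 2 * S y := by
    intro y hy
    have e1 : ‖y - x2‖ ≤ L := by
      rw [← dist_eq_norm]
      exact hdiam y hy x2 h2
    have e2 : y - x2 = (y - x1) - U := by rw [hU]; abel
    have e3 : ‖y - x2‖ ^ 2 = ‖y - x1‖ ^ 2 - 2 * S y + L ^ 2 := by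
      rw [e2, norm_sub_sq_real, hS, hLdef]
    have e4 : ‖y - x2‖ ^ 2 ≤ L ^ 2 := pow_le_pow_left₀ (norm_nonneg _) e1 2
    linarith
  have hShigh : ∀ y ∈ X, ‖y - x2‖ ^ 2 ≤ 2 * (L ^ 2 - S y) := by
    intro y hy
    have e1 : ‖y - x1‖ ≤ L := by
      rw [← dist_eq_norm]
      exact hdiam y hy x1 h1
    have e2 : y - x2 = (y - x1) - U := by rw [hU]; abel
    have e3 : ‖y - x2‖ ^ 2 = ‖y - x1‖ ^ 2 - 2 * S y + L ^ 2 := by
      rw [e2, norm_sub_sq_real, hS, hLdef]
    have e4 : ‖y - x1‖ ^ 2 ≤ L ^ 2 := pow_le_pow_left₀ (norm_nonneg _) e1 2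
    linarith
  have hS0 : ∀ y ∈ X, 0 ≤ S y := by
    intro y hy
    have := hSlow y hy
    nlinarith [sq_nonneg ‖y - x1‖]
  have hS1 : ∀ y ∈ X, S y ≤ L ^ 2 := by
    intro y hy
    have := hShigh y hy
    nlinarith [sq_nonneg ‖y - x2‖]
  -- the height of `z`
  have hM : L ^ 2 * ‖z - x1‖ ^ 2 - S z ^ 2 = L ^ 2 * D ^ 2 := by
    unfold area at hzD
    have e1 : Real.sqrt (‖x2 - x1‖ ^ 2 * ‖z - x1‖ ^ 2 - ⟪x2 - x1, z - x1⟫ ^ 2) = L * D := by
      linarith
    have e2 : 0 < L * D := by positivity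
    have e3 : 0 ≤ ‖x2 - x1‖ ^ 2 * ‖z - x1‖ ^ 2 - ⟪x2 - x1, z - x1⟫ ^ 2 := by
      by_contra hneg
      push Not at hneg
      rw [Real.sqrt_eq_zero_of_nonpos hneg.le] at e1
      linarith
    have e4 := Real.sq_sqrt e3
    rw [e1, ← hU, ← hLdef, real_inner_comm, ← hS] at e4
    linarith
  have hz1 : z ≠ x1 := by
    rintro rfl
    rw [sub_self, norm_zero] at hM
    have : 0 < L ^ 2 * D ^ 2 := by positivity
    nlinarith [sq_nonneg (S z)]
  have hz2 : z ≠ x2 := by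
    rintro rfl
    rw [hSx2, ← hU, ← hLdef] at hM
    have : 0 < L ^ 2 * D ^ 2 := by positivity
    nlinarith
  have hSz0 : 0 < S z := by
    have e1 := hSlow z hzX
    have e2 : 0 < ‖z - x1‖ := norm_pos_iff.2 (sub_ne_zero.2 hz1)
    nlinarith [sq_nonneg ‖z - x1‖, pow_pos e2 2]
  have hSz1 : S z < L ^ 2 := by
    have e1 := hShigh z hzX
    have e2 : 0 < ‖z - x2‖ := norm_pos_iff.2 (sub_ne_zero.2 hz2)
    nlinarith [sq_nonneg ‖z - x2‖, pow_pos e2 2]
  obtain ⟨w, hw⟩ : ∃ w : E d, w = (z - x1) - (S z / L ^ 2) • U := ⟨_, rfl⟩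
  have hwD : ‖w‖ = D := by
    have e1 : ‖w‖ ^ 2 = D ^ 2 := by
      rw [hw, norm_sub_sq_real, norm_smul, real_inner_smul_right, ← hS, Real.norm_eq_abs, mul_pow,
        sq_abs, ← hLdef]
      have e2 : ‖z - x1‖ ^ 2 = (L ^ 2 * D ^ 2 + S z ^ 2) / L ^ 2 := by
        rw [eq_div_iff (by positivity)]
        linarith
      rw [e2]
      field_simp
      ring
    have e3 := abs_eq_abs.2 (sq_eq_sq_iff_eq_or_eq_neg.1 e1)
    rwa [abs_of_nonneg (norm_nonneg _), abs_of_pos hD] at e3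
  -- bad points
  let bad : E d → Prop := fun x => ∀ a ∈ K, ∀ b ∈ K, dist a x ≤ s0 → dist b x ≤ s0 →
    area x a b < τ
  have hs2 : s0 ^ 2 = s0 * s0 := sq s0
  have hfar : ∀ x ∈ X, ∀ y ∈ X, y ≠ x → 2 ≤ ‖y - x‖ := by
    intro x hx y hy hne
    rw [← dist_eq_norm]
    exact hX y hy x hx hne
  have hdir : ∀ x ∈ X, bad x → x ≠ x1 → x ≠ x2 →
      3 * (‖x2 - x‖ ^ 2 * ‖U‖ ^ 2) ≤ 4 * ⟪x2 - x, U⟫ ^ 2 := by
    intro x hx hb hx1 hx2
    have f1 := hfar x hx x1 h1 hx1.symm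
    have f2 := hfar x hx x2 h2 hx2.symm
    have e1 : (x2 - x) - (x1 - x) = U := by rw [hU]; abel
    have e2 := bad_inner hK (hXK x hx) (v := x1 - x) (w := x2 - x) hs0 hs0 le_rfl hτ
      (by rw [← hs2]; exact hσ) (by simpa using hXK x1 h1) (by simpa using hXK x2 h2)
      (by linarith) (by linarith) hb
    have e3 := dir_close (P := x1 - x) (Q := x2 - x) (by
        rw [e1, ← hLdef, ← dist_eq_norm]
        exact hdiam x1 h1 x hx) (by
        rw [e1, ← hLdef, ← dist_eq_norm]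
        exact hdiam x2 h2 x hx) (by linarith) (by linarith) e2
    rwa [e1] at e3
  have hsep : ∀ x ∈ X, bad x → x ≠ x1 → x ≠ x2 → ∀ y ∈ X, y ≠ x → L ≤ |S y - S x| := by
    intro x hx hb hx1 hx2 y hy hyx
    have f1 := hfar x hx y hy hyx
    have f2 := hfar x hx x2 h2 hx2.symm
    have e1 := hdir x hx hb hx1 hx2
    have e2 := bad_inner hK (hXK x hx) (v := y - x) (w := x2 - x) hs0 hs0 le_rfl hτ
      (by rw [← hs2]; exact hσ) (by simpa using hXK y hy) (by simpa using hXK x2 h2)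
      (by linarith) (by linarith) hb
    have e3 := dir_three (v := y - x) (Q := x2 - x) (U := U) (by linarith) e2.le e1
    have e4 : S y - S x = ⟪y - x, U⟫ := by
      rw [hS, hS, ← inner_sub_left]
      congr 1
      abel
    rw [e4]
    rw [← hLdef] at e3
    nlinarith
  have hwid : ∀ x ∈ X, bad x → x ≠ x1 → x ≠ x2 → ∀ r : E d, ⟪r, U⟫ = 0 → x + r ∈ K →
      ‖r‖ < 4 * τ / s0 := by
    intro x hx hb hx1 hx2 r hr hrK
    have f2 := hfar x hx x2 h2 hx2.symm
    exact bad_width hK (hXK x hx) (Q := x2 - x) hs0 hτ hσ (by rw [← hLdef]; exact hL0) hr hrK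
      (by simpa using hXK x2 h2) (by linarith) (hdir x hx hb hx1 hx2) hb
  have hr1 : ∀ x ∈ X, ⟪(x1 + (S x / L ^ 2) • U) - x, U⟫ = 0 := by
    intro x _
    have e1 : (x1 + (S x / L ^ 2) • U) - x = (S x / L ^ 2) • U - (x - x1) := by abel
    rw [e1, inner_sub_left, real_inner_smul_left, hUL, ← hS]
    field_simp
    ring
  have hr1K : ∀ x ∈ X, x + ((x1 + (S x / L ^ 2) • U) - x) ∈ K := by
    intro x hx
    rw [add_sub_cancel]
    refine step_mem hK (hXK x1 h1) ?_ ?_ ?_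
    · rw [hU]
      simpa using hXK x2 h2
    · have := hS0 x hx
      positivity
    · rw [div_le_one (by positivity)]
      exact hS1 x hx
  have hcase1 : ∀ x ∈ X, bad x → x ≠ x1 → x ≠ x2 → S x ≤ S z →
      S x / L < 8 * τ * S z / (s0 * D * L) := by
    intro x hx hb hx1 hx2 hle
    have g1 := hwid x hx hb hx1 hx2 _ (hr1 x hx) (hr1K x hx)
    have g2 := hwid x hx hb hx1 hx2 ((x1 + (S x / S z) • (z - x1)) - x) (by
      have e1 : (x1 + (S x / S z) • (z - x1)) - x = (S x / S z) • (z - x1) - (x - x1) := by abel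
      rw [e1, inner_sub_left, real_inner_smul_left, ← hS, ← hS]
      field_simp
      ring) (by
      rw [add_sub_cancel]
      refine step_mem hK (hXK x1 h1) ?_ ?_ ?_
      · simpa using hXK z hzX
      · have := hS0 x hx
        positivity
      · rw [div_le_one hSz0]
        exact hle)
    have g3 : ((x1 + (S x / S z) • (z - x1)) - x) - ((x1 + (S x / L ^ 2) • U) - x)
        = (S x / S z) • w := by
      have e3 : S x / S z * (S z / L ^ 2) = S x / L ^ 2 := by field_simp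
      have e4 : (S x / S z) • w = (S x / S z) • (z - x1) - (S x / L ^ 2) • U := by
        rw [hw, smul_sub, smul_smul, e3]
      rw [e4]
      abel
    have g4 := norm_sub_le ((x1 + (S x / S z) • (z - x1)) - x) ((x1 + (S x / L ^ 2) • U) - x)
    rw [g3, norm_smul, hwD, Real.norm_eq_abs,
      abs_of_nonneg (div_nonneg (hS0 x hx) hSz0.le)] at g4
    have g5 : S x / S z * D < 8 * τ / s0 := by
      have : 8 * τ / s0 = 4 * τ / s0 + 4 * τ / s0 := by ring
      rw [this]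
      linarith
    rw [div_lt_div_iff₀ hL0 (by positivity)]
    rw [div_mul_eq_mul_div, div_lt_div_iff₀ hSz0 hs0] at g5
    nlinarith
  have hcase2 : ∀ x ∈ X, bad x → x ≠ x1 → x ≠ x2 → ¬ S x ≤ S z →
      (L ^ 2 - S x) / L < 8 * τ * (L ^ 2 - S z) / (s0 * D * L) := by
    intro x hx hb hx1 hx2 hle
    have hc0 : 0 < L ^ 2 - S z := by linarith
    have hc1 : 0 ≤ L ^ 2 - S x := by linarith [hS1 x hx]
    have g1 := hwid x hx hb hx1 hx2 _ (hr1 x hx) (hr1K x hx)
    have g2 := hwid x hx hb hx1 hx2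
      ((x2 + ((L ^ 2 - S x) / (L ^ 2 - S z)) • (z - x2)) - x) (by
      have i1 : ⟪x, U⟫ = S x + ⟪x1, U⟫ := by rw [hS, inner_sub_left]; ring
      have i2 : ⟪z, U⟫ = S z + ⟪x1, U⟫ := by rw [hS, inner_sub_left]; ring
      have i3 : ⟪x2, U⟫ = L ^ 2 + ⟪x1, U⟫ := by rw [← hSx2, hS, inner_sub_left]; ring
      rw [inner_sub_left, inner_add_left, real_inner_smul_left, inner_sub_left, i1, i2, i3]
      field_simp
      ring) (by
      rw [add_sub_cancel]
      refine step_mem hK (hXK x2 h2) ?_ ?_ ?_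
      · simpa using hXK z hzX
      · positivity
      · rw [div_le_one hc0]
        push Not at hle
        linarith)
    have g3 : ((x2 + ((L ^ 2 - S x) / (L ^ 2 - S z)) • (z - x2)) - x)
        - ((x1 + (S x / L ^ 2) • U) - x) = ((L ^ 2 - S x) / (L ^ 2 - S z)) • w := by
      have e2 : z - x2 = (z - x1) - U := by rw [hU]; abel
      have e3 : x2 = x1 + U := by rw [hU]; abel
      have e4 : ((L ^ 2 - S x) / (L ^ 2 - S z)) • w = ((L ^ 2 - S x) / (L ^ 2 - S z)) • (z - x1)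
          - ((L ^ 2 - S x) / (L ^ 2 - S z) * (S z / L ^ 2)) • U := by
        rw [hw, smul_sub, smul_smul]
      have e5 : (L ^ 2 - S x) / (L ^ 2 - S z) * (S z / L ^ 2)
          = (L ^ 2 - S x) / (L ^ 2 - S z) + S x / L ^ 2 - 1 := by
        field_simp
        ring
      rw [e4, e5, e2, smul_sub, sub_smul, add_smul, one_smul]
      rw [e3]
      abel
    have g4 := norm_sub_le ((x2 + ((L ^ 2 - S x) / (L ^ 2 - S z)) • (z - x2)) - x)
      ((x1 + (S x / L ^ 2) • U) - x)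
    rw [g3, norm_smul, hwD, Real.norm_eq_abs, abs_of_nonneg (div_nonneg hc1 hc0.le)] at g4
    have g5 : (L ^ 2 - S x) / (L ^ 2 - S z) * D < 8 * τ / s0 := by
      have : 8 * τ / s0 = 4 * τ / s0 + 4 * τ / s0 := by ring
      rw [this]
      linarith
    rw [div_lt_div_iff₀ hL0 (by positivity)]
    rw [div_mul_eq_mul_div, div_lt_div_iff₀ hc0 hs0] at g5
    nlinarith
  -- counting
  refine ⟨X.filter (fun x => ¬ bad x), Finset.filter_subset _ _, ?_, ?_⟩
  · have hsum : (X.filter bad).card + (X.filter (fun x => ¬ bad x)).card = X.card :=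
      Finset.card_filter_add_card_filter_not bad
    let B1 := X.filter (fun x => bad x ∧ x ≠ x1 ∧ x ≠ x2 ∧ S x ≤ S z)
    let B2 := X.filter (fun x => bad x ∧ x ≠ x1 ∧ x ≠ x2 ∧ ¬ S x ≤ S z)
    have hsub : X.filter bad ⊆ ({x1, x2} : Finset (E d)) ∪ (B1 ∪ B2) := by
      intro x hx
      rw [Finset.mem_filter] at hx
      rw [Finset.mem_union, Finset.mem_union, Finset.mem_insert, Finset.mem_singleton,
        Finset.mem_filter, Finset.mem_filter]
      by_cases e1 : x = x1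
      · exact Or.inl (Or.inl e1)
      · by_cases e2 : x = x2
        · exact Or.inl (Or.inr e2)
        · by_cases e3 : S x ≤ S z
          · exact Or.inr (Or.inl ⟨hx.1, hx.2, e1, e2, e3⟩)
          · exact Or.inr (Or.inr ⟨hx.1, hx.2, e1, e2, e3⟩)
    have hcb : (X.filter bad).card ≤ 2 + (B1.card + B2.card) := by
      refine (Finset.card_le_card hsub).trans ((Finset.card_union_le _ _).trans ?_)
      exact Nat.add_le_add Finset.card_le_two (Finset.card_union_le _ _)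
    have hB1 : (B1.card : ℝ) ≤ 8 * τ * S z / (s0 * D * L) + 1 := by
      refine card_sep B1 (fun x => S x / L) (by positivity) ?_ ?_ ?_
      · intro x hx
        rw [Finset.mem_filter] at hx
        exact div_nonneg (hS0 x hx.1) hL0.le
      · intro x hx
        rw [Finset.mem_filter] at hx
        exact hcase1 x hx.1 hx.2.1 hx.2.2.1 hx.2.2.2.1 hx.2.2.2.2
      · intro x hx y hy hxy
        rw [Finset.mem_filter] at hx hy
        have := hsep y hy.1 hy.2.1 hy.2.2.1 hy.2.2.2.1 x hx.1 hxy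
        rw [← sub_div, abs_div, abs_of_pos hL0, le_div_iff₀ hL0, one_mul]
        exact this
    have hB2 : (B2.card : ℝ) ≤ 8 * τ * (L ^ 2 - S z) / (s0 * D * L) + 1 := by
      refine card_sep B2 (fun x => (L ^ 2 - S x) / L) ?_ ?_ ?_ ?_
      · have : 0 < L ^ 2 - S z := by linarith
        positivity
      · intro x hx
        rw [Finset.mem_filter] at hx
        exact div_nonneg (by linarith [hS1 x hx.1]) hL0.le
      · intro x hx
        rw [Finset.mem_filter] at hx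
        exact hcase2 x hx.1 hx.2.1 hx.2.2.1 hx.2.2.2.1 hx.2.2.2.2
      · intro x hx y hy hxy
        rw [Finset.mem_filter] at hx hy
        have := hsep y hy.1 hy.2.1 hy.2.2.1 hy.2.2.2.1 x hx.1 hxy
        have e1 : L ^ 2 - S x - (L ^ 2 - S y) = -(S x - S y) := by ring
        rw [← sub_div, e1, abs_div, abs_neg, abs_of_pos hL0, le_div_iff₀ hL0, one_mul]
        exact this
    have hAsum : 8 * τ * S z / (s0 * D * L) + 8 * τ * (L ^ 2 - S z) / (s0 * D * L)
        ≤ ((X.card : ℝ) - 1) / 8 := by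
      rw [← add_div]
      have e1 : 8 * τ * S z + 8 * τ * (L ^ 2 - S z) = 8 * τ * L ^ 2 := by ring
      rw [e1, div_le_div_iff₀ (by positivity) (by norm_num)]
      nlinarith
    have hcb' : ((X.filter bad).card : ℝ) ≤ 2 + (B1.card + B2.card) := by exact_mod_cast hcb
    have hcard' : (11 : ℝ) ≤ X.card := by exact_mod_cast hcard
    have hfin : 2 * ((X.filter bad).card : ℝ) ≤ X.card := by linarith
    have hfin' : 2 * (X.filter bad).card ≤ X.card := by exact_mod_cast hfin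
    omega
  · intro x hx
    rw [Finset.mem_filter] at hx
    have hnb := hx.2
    simp only [bad] at hnb
    push Not at hnb
    obtain ⟨a, ha, b, hb, e1, e2, e3⟩ := hnb
    exact ⟨a, ha, b, hb, e1, e2, e3⟩

end Pool.Agent.Saus
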