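import Pool.Agent.Lib.Saus.Defs

/-!
# The volume of the unit ball
-/

set_option autoImplicit false

open MeasureTheory Metric Set Filter Topology
open scoped Pointwise RealInnerProductSpace

namespace Pool.Agent.Saus

theorem kappa_pos (m : ℕ) : 0 < kappa m := by
  unfold kappa
  refine ENNReal.toReal_pos ?_ ?_
  · exact (measure_closedBall_pos volume (0 : E m) one_pos).ne'
  · exact measure_closedBall_lt_top.ne

theorem volume_cball {m : ℕ} (c : E m) {r : ℝ} (hr : 0 ≤ r) :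
    volume (closedBall c r) = ENNReal.ofReal (kappa m * r ^ m) := by
  rw [MeasureTheory.Measure.addHaar_closedBall' volume c hr, finrank_euclideanSpace_fin, mul_comm,
    ENNReal.ofReal_mul (kappa_pos m).le]
  congr 1
  unfold kappa
  rw [ENNReal.ofReal_toReal measure_closedBall_lt_top.ne]

private lemma kappa_eq {m : ℕ} (hm : 1 ≤ m) :
    kappa m = Real.sqrt Real.pi ^ m / Real.Gamma ((m : ℝ) / 2 + 1) := by
  have : Nonempty (Fin m) := ⟨⟨0, hm⟩⟩
  have hG : 0 < Real.Gamma ((m : ℝ) / 2 + 1) := Real.Gamma_pos_of_pos (by positivity)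
  unfold kappa
  rw [EuclideanSpace.volume_closedBall, Fintype.card_fin]
  simp only [ENNReal.ofReal_one, one_pow, one_mul]
  rw [ENNReal.toReal_ofReal (by positivity)]

private lemma gamma_ratio {x : ℝ} (hx : 1 / 2 < x) :
    (x - 1 / 2) * Real.Gamma x ^ 2 ≤ Real.Gamma (x + 1 / 2) ^ 2 := by
  have h0 : 0 < x - 1 / 2 := by linarith
  have h1 : 0 < Real.Gamma (x - 1 / 2) := Real.Gamma_pos_of_pos h0
  have h2 : 0 < Real.Gamma (x + 1 / 2) := Real.Gamma_pos_of_pos (by linarith)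
  have h3 : 0 < Real.Gamma x := Real.Gamma_pos_of_pos (by linarith)
  have h4 := Real.Gamma_mul_add_mul_le_rpow_Gamma_mul_rpow_Gamma (s := x - 1 / 2) (t := x + 1 / 2)
    (a := 1 / 2) (b := 1 / 2) h0 (by linarith) (by norm_num) (by norm_num) (by norm_num)
  have h5 : 1 / 2 * (x - 1 / 2) + 1 / 2 * (x + 1 / 2) = x := by ring
  rw [h5, ← Real.sqrt_eq_rpow, ← Real.sqrt_eq_rpow, ← Real.sqrt_mul h1.le] at h4
  have h6 : Real.Gamma x ^ 2 ≤ Real.Gamma (x - 1 / 2) * Real.Gamma (x + 1 / 2) := by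
    have := pow_le_pow_left₀ h3.le h4 2
    rwa [Real.sq_sqrt (by positivity)] at this
  have h7 : Real.Gamma (x + 1 / 2) = (x - 1 / 2) * Real.Gamma (x - 1 / 2) := by
    rw [← Real.Gamma_add_one h0.ne']
    congr 1
    ring
  calc (x - 1 / 2) * Real.Gamma x ^ 2
      ≤ (x - 1 / 2) * (Real.Gamma (x - 1 / 2) * Real.Gamma (x + 1 / 2)) :=
        mul_le_mul_of_nonneg_left h6 h0.le
    _ = Real.Gamma (x + 1 / 2) ^ 2 := by rw [h7]; ring

theorem tendsto_kappa_ratio : Tendsto (fun m : ℕ => kappa m / kappa (m + 1)) atTop atTop := by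
  have hlim : Tendsto (fun m : ℕ => Real.sqrt (((m : ℝ) + 1) / (2 * Real.pi))) atTop atTop := by
    refine Real.tendsto_sqrt_atTop.comp (Tendsto.atTop_div_const (by positivity) ?_)
    exact tendsto_atTop_add_const_right _ _ tendsto_natCast_atTop_atTop
  refine tendsto_atTop_mono' _ ?_ hlim
  filter_upwards [eventually_ge_atTop 1] with m hm
  have hk := kappa_pos m
  have hk1 := kappa_pos (m + 1)
  refine Real.sqrt_le_iff.2 ⟨by positivity, ?_⟩
  have hG : 0 < Real.Gamma ((m : ℝ) / 2 + 1) := Real.Gamma_pos_of_pos (by positivity)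
  have hG1 : 0 < Real.Gamma ((m : ℝ) / 2 + 1 + 1 / 2) := Real.Gamma_pos_of_pos (by positivity)
  have hpi : 0 < Real.sqrt Real.pi := Real.sqrt_pos.2 Real.pi_pos
  have h1 : kappa m / kappa (m + 1)
      = Real.Gamma ((m : ℝ) / 2 + 1 + 1 / 2) / (Real.sqrt Real.pi * Real.Gamma ((m : ℝ) / 2 + 1)) := by
    rw [kappa_eq hm, kappa_eq (by omega : 1 ≤ m + 1)]
    have h2 : (((m + 1 : ℕ) : ℝ) / 2 + 1) = (m : ℝ) / 2 + 1 + 1 / 2 := by push_cast; ring
    rw [h2, pow_succ]
    field_simp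
  have h2 := gamma_ratio (x := (m : ℝ) / 2 + 1) (by
    have : (0 : ℝ) ≤ m := Nat.cast_nonneg _
    linarith)
  rw [h1, div_pow, mul_pow, Real.sq_sqrt Real.pi_pos.le, div_le_div_iff₀ (by positivity) (by positivity)]
  nlinarith [Real.pi_pos]

end Pool.Agent.Saus
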