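import Pool.Agent.Lib.Saus.Defs

/-!
# The parallel body of a segment
-/

set_option autoImplicit false

open MeasureTheory Metric Set Filter Topology
open scoped Pointwise RealInnerProductSpace

namespace Pool.Agent.Saus

private lemma seg_ball {m : ℕ} (c : E m) {r : ℝ} (hr : 0 ≤ r) :
    volume (closedBall c r) = ENNReal.ofReal (kappa m * r ^ m) := by
  have h := Measure.addHaar_closedBall' (volume : Measure (E m)) c hr
  rw [h, finrank_euclideanSpace_fin, mul_comm (kappa m), ENNReal.ofReal_mul (by positivity),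
    kappa, ENNReal.ofReal_toReal measure_closedBall_lt_top.ne]

private lemma seg_iso {m : ℕ} (v : E (m + 1)) :
    ∃ T : E (m + 1) ≃ₗᵢ[ℝ] WithLp 2 (ℝ × E m), T v = WithLp.toLp 2 (‖v‖, 0) := by
  have hf : Module.finrank ℝ (WithLp 2 (ℝ × E m)) = m + 1 := by
    rw [(WithLp.linearEquiv 2 ℝ (ℝ × E m)).finrank_eq, Module.finrank_prod,
      Module.finrank_self, finrank_euclideanSpace_fin, add_comm]
  let T0 : E (m + 1) ≃ₗᵢ[ℝ] WithLp 2 (ℝ × E m) :=
    ((stdOrthonormalBasis ℝ (WithLp 2 (ℝ × E m))).reindex (finCongr hf)).repr.symm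
  have hn : ‖T0 v‖ = ‖(WithLp.toLp 2 (‖v‖, (0 : E m)) : WithLp 2 (ℝ × E m))‖ := by
    rw [T0.norm_map, WithLp.prod_norm_eq_of_L2]
    simp
  refine ⟨T0.trans (Submodule.reflection (ℝ ∙ (T0 v - WithLp.toLp 2 (‖v‖, 0)))ᗮ), ?_⟩
  exact Submodule.reflection_sub hn

private lemma seg_prod {m : ℕ} {L ρ : ℝ} (hL : 0 ≤ L) (hρ : 0 ≤ ρ) :
    volume {q : ℝ × E m | ∃ s, 0 ≤ s ∧ s ≤ L ∧ (q.1 - s) ^ 2 + ‖q.2‖ ^ 2 ≤ ρ ^ 2} =
      volume {q : ℝ × E m | q.1 ^ 2 + ‖q.2‖ ^ 2 ≤ ρ ^ 2} +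
        ENNReal.ofReal L * ENNReal.ofReal (kappa m * ρ ^ m) := by
  set S : Set (ℝ × E m) := {q | ∃ s, 0 ≤ s ∧ s ≤ L ∧ (q.1 - s) ^ 2 + ‖q.2‖ ^ 2 ≤ ρ ^ 2} with hS
  set B : Set (ℝ × E m) := {q | q.1 ^ 2 + ‖q.2‖ ^ 2 ≤ ρ ^ 2} with hB
  have hN : MeasurableSet {q : ℝ × E m | q.1 < 0} := measurableSet_lt measurable_fst measurable_const
  have hZ : MeasurableSet {q : ℝ × E m | q.1 ≤ L} := measurableSet_le measurable_fst measurable_const
  have hZ0 : MeasurableSet {q : ℝ × E m | q.1 ≤ 0} := measurableSet_le measurable_fst measurable_const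
  have e1 : volume S = volume (S ∩ {q | q.1 < 0}) +
      (volume ((S \ {q | q.1 < 0}) ∩ {q | q.1 ≤ L}) + volume ((S \ {q | q.1 < 0}) \ {q | q.1 ≤ L})) := by
    rw [measure_inter_add_sdiff (S \ {q | q.1 < 0}) hZ, measure_inter_add_sdiff S hN]
  have e2 : volume B = volume (B ∩ {q | q.1 < 0}) +
      (volume ((B \ {q | q.1 < 0}) ∩ {q | q.1 ≤ 0}) + volume ((B \ {q | q.1 < 0}) \ {q | q.1 ≤ 0})) := by
    rw [measure_inter_add_sdiff (B \ {q | q.1 < 0}) hZ0, measure_inter_add_sdiff B hN]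
  have f1 : S ∩ {q | q.1 < 0} = B ∩ {q | q.1 < 0} := by
    ext q
    simp only [hS, hB, mem_inter_iff, mem_ofPred_eq]
    constructor
    · rintro ⟨⟨s, h0, hs, h⟩, hq⟩
      exact ⟨by nlinarith, hq⟩
    · rintro ⟨h, hq⟩
      exact ⟨⟨0, le_refl _, hL, by simpa using h⟩, hq⟩
  have f2 : (S \ {q | q.1 < 0}) ∩ {q | q.1 ≤ L} = Icc 0 L ×ˢ closedBall (0 : E m) ρ := by
    ext q
    simp only [hS, mem_inter_iff, mem_ofPred_eq, Set.mem_sdiff, mem_prod, mem_Icc, mem_closedBall,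
      dist_zero_right, not_lt]
    constructor
    · rintro ⟨⟨⟨s, h0, hs, h⟩, hq⟩, hq'⟩
      refine ⟨⟨hq, hq'⟩, ?_⟩
      have : ‖q.2‖ ^ 2 ≤ ρ ^ 2 := by nlinarith [sq_nonneg (q.1 - s)]
      exact (pow_le_pow_iff_left₀ (norm_nonneg _) hρ two_ne_zero).1 this
    · rintro ⟨⟨hq, hq'⟩, h⟩
      refine ⟨⟨⟨q.1, hq, hq', ?_⟩, hq⟩, hq'⟩
      have : ‖q.2‖ ^ 2 ≤ ρ ^ 2 := pow_le_pow_left₀ (norm_nonneg _) h 2
      simpa using this
  have f3 : volume ((B \ {q | q.1 < 0}) ∩ {q | q.1 ≤ 0}) = 0 := by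
    have : (B \ {q | q.1 < 0}) ∩ {q | q.1 ≤ 0} ⊆ ({0} : Set ℝ) ×ˢ (univ : Set (E m)) := by
      rintro q ⟨⟨_, hq⟩, hq'⟩
      refine ⟨?_, mem_univ _⟩
      exact le_antisymm hq' (not_lt.1 hq)
    refine measure_mono_null this ?_
    rw [Measure.volume_eq_prod, Measure.prod_prod]
    simp
  have : (volume : Measure (ℝ × E m)).IsAddLeftInvariant := by
    rw [Measure.volume_eq_prod]
    infer_instance
  have f4 : volume ((S \ {q | q.1 < 0}) \ {q | q.1 ≤ L}) =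
      volume ((B \ {q | q.1 < 0}) \ {q | q.1 ≤ 0}) := by
    rw [← measure_preimage_add volume ((L, 0) : ℝ × E m) ((S \ {q | q.1 < 0}) \ {q | q.1 ≤ L})]
    congr 1
    ext q
    simp only [hS, hB, mem_preimage, Set.mem_sdiff, mem_ofPred_eq, Prod.fst_add, Prod.snd_add, zero_add,
      not_lt, not_le]
    constructor
    · rintro ⟨⟨⟨s, h0, hs, h⟩, hq⟩, hq'⟩
      have hq0 : 0 < q.1 := by linarith
      exact ⟨⟨by nlinarith, hq0.le⟩, hq0⟩
    · rintro ⟨⟨h, hq⟩, hq'⟩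
      exact ⟨⟨⟨L, hL, le_refl _, by rw [add_sub_cancel_left]; exact h⟩, by linarith⟩, by linarith⟩
  have f5 : volume (Icc 0 L ×ˢ closedBall (0 : E m) ρ) =
      ENNReal.ofReal L * ENNReal.ofReal (kappa m * ρ ^ m) := by
    rw [Measure.volume_eq_prod, Measure.prod_prod, Real.volume_Icc, sub_zero, seg_ball _ hρ]
  rw [e1, e2, f1, f2, f3, f4, f5, zero_add, add_assoc, add_comm (volume _)
    (ENNReal.ofReal L * ENNReal.ofReal (kappa m * ρ ^ m))]

private lemma seg_transfer {m : ℕ} (T : E (m + 1) ≃ₗᵢ[ℝ] WithLp 2 (ℝ × E m))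
    (S : Set (ℝ × E m)) : volume ((fun p => WithLp.ofLp (T p)) ⁻¹' S) = volume S := by
  have h1 := (WithLp.volume_preserving_symm_measurableEquiv_toLp_prod ℝ (E m)).measure_preimage_equiv
    S
  have h2 := T.measurePreserving.measure_preimage_emb T.toHomeomorph.measurableEmbedding
    (((MeasurableEquiv.toLp 2 (ℝ × E m)).symm) ⁻¹' S)
  rw [h1] at h2
  exact h2

/-- T3: volume of the parallel body of a segment. -/
theorem volume_segment_add {m : ℕ} (x y : E (m + 1)) {ρ : ℝ} (hρ : 0 ≤ ρ) :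
    volume (segment ℝ x y + closedBall (0 : E (m + 1)) ρ) =
      ENNReal.ofReal (kappa (m + 1) * ρ ^ (m + 1) + dist x y * kappa m * ρ ^ m) := by
  obtain ⟨T, hT⟩ := seg_iso (y - x)
  set L : ℝ := ‖y - x‖ with hL
  have hL0 : 0 ≤ L := norm_nonneg _
  have hk : 0 ≤ kappa m := ENNReal.toReal_nonneg
  have hk1 : 0 ≤ kappa (m + 1) := ENNReal.toReal_nonneg
  -- norms in the product
  have hnorm : ∀ (p : E (m + 1)) (s : ℝ), ‖p - s • (y - x)‖ ^ 2 =
      ((WithLp.ofLp (T p)).1 - s * L) ^ 2 + ‖(WithLp.ofLp (T p)).2‖ ^ 2 := by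
    intro p s
    rw [← T.norm_map, map_sub, map_smul, hT, WithLp.prod_norm_sq_eq_of_L2]
    simp
  have hset : ∀ p : E (m + 1), x + p ∈ segment ℝ x y + closedBall (0 : E (m + 1)) ρ ↔
      WithLp.ofLp (T p) ∈ {q : ℝ × E m | ∃ s, 0 ≤ s ∧ s ≤ L ∧ (q.1 - s) ^ 2 + ‖q.2‖ ^ 2 ≤ ρ ^ 2} := by
    intro p
    rw [mem_ofPred_eq, Set.mem_add]
    constructor
    · rintro ⟨a, ha, b, hb, hab⟩
      rw [segment_eq_image'] at ha
      obtain ⟨s, ⟨hs0, hs1⟩, rfl⟩ := ha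
      refine ⟨s * L, by positivity, mul_le_of_le_one_left hL0 hs1, ?_⟩
      rw [← hnorm]
      have hb' : ‖b‖ ≤ ρ := by simpa using hb
      have : p - s • (y - x) = b := by
        have h : x + p = x + (s • (y - x) + b) := by rw [← hab]; simp only []; abel
        rw [add_left_cancel h]
        abel
      rw [this]
      exact pow_le_pow_left₀ (norm_nonneg _) hb' 2
    · rintro ⟨s, h0, hs, h⟩
      have hs' : ∃ r : ℝ, 0 ≤ r ∧ r ≤ 1 ∧ r * L = s := by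
        rcases hL0.eq_or_lt with h00 | h00
        · refine ⟨0, le_refl _, zero_le_one, ?_⟩
          rw [← h00] at hs ⊢
          linarith
        · exact ⟨s / L, by positivity, (div_le_one h00).2 hs, div_mul_cancel₀ _ h00.ne'⟩
      obtain ⟨r, hr0, hr1, hr⟩ := hs'
      rw [← hr, ← hnorm] at h
      refine ⟨x + r • (y - x), ?_, p - r • (y - x), ?_, by abel⟩
      · rw [segment_eq_image']
        exact ⟨r, ⟨hr0, hr1⟩, rfl⟩
      · rw [mem_closedBall, dist_zero_right]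
        exact (pow_le_pow_iff_left₀ (norm_nonneg _) hρ two_ne_zero).1 h
  have hball : ∀ p : E (m + 1), p ∈ closedBall (0 : E (m + 1)) ρ ↔
      WithLp.ofLp (T p) ∈ {q : ℝ × E m | q.1 ^ 2 + ‖q.2‖ ^ 2 ≤ ρ ^ 2} := by
    intro p
    rw [mem_ofPred_eq, mem_closedBall, dist_zero_right]
    have := hnorm p 0
    rw [zero_smul, sub_zero, zero_mul, sub_zero] at this
    rw [← this]
    exact (pow_le_pow_iff_left₀ (norm_nonneg _) hρ two_ne_zero).symm
  have h1 : volume (segment ℝ x y + closedBall (0 : E (m + 1)) ρ) =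
      volume {q : ℝ × E m | ∃ s, 0 ≤ s ∧ s ≤ L ∧ (q.1 - s) ^ 2 + ‖q.2‖ ^ 2 ≤ ρ ^ 2} := by
    rw [← seg_transfer T, ← measure_preimage_add volume x]
    congr 1
    ext p
    exact hset p
  have h2 : volume (closedBall (0 : E (m + 1)) ρ) =
      volume {q : ℝ × E m | q.1 ^ 2 + ‖q.2‖ ^ 2 ≤ ρ ^ 2} := by
    rw [← seg_transfer T]
    congr 1
    ext p
    exact hball p
  rw [h1, seg_prod hL0 hρ, ← h2, seg_ball _ hρ, ← ENNReal.ofReal_mul hL0,
    ← ENNReal.ofReal_add (by positivity) (by positivity), dist_comm, dist_eq_norm, mul_assoc]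

end Pool.Agent.Saus
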