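import Pool.Agent.Lib.Saus.Coord
import Pool.Agent.Lib.Saus.Kappa
import Pool.Agent.Lib.Saus.Seg

/-!
# MP_dcaa2d_co: parallel body of a triangle (row T2)
-/

set_option autoImplicit false

open MeasureTheory Metric Set Filter Topology
open scoped Pointwise RealInnerProductSpace ENNReal

namespace Pool.Agent.Saus

/-- width of the triangle, as a fraction of its height, at distance `s` from the left end -/
private noncomputable def tw (L σ s : ℝ) : ℝ := if s < σ then s / σ else (L - s) / (L - σ)

private theorem tw_spec {L σ s : ℝ} (hσ0 : 0 ≤ σ) (hσL : σ ≤ L) (hs0 : 0 ≤ s) (hsL : s ≤ L) :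
    0 ≤ tw L σ s ∧ tw L σ s * σ ≤ s ∧ tw L σ s * (L - σ) ≤ L - s := by
  unfold tw
  split_ifs with h
  · have hσ : 0 < σ := lt_of_le_of_lt hs0 h
    refine ⟨by positivity, ?_, ?_⟩
    · rw [div_mul_cancel₀ _ hσ.ne']
    · rw [div_mul_eq_mul_div, div_le_iff₀ hσ]
      nlinarith
  · push Not at h
    rcases eq_or_lt_of_le hσL with h1 | h1
    · have hs : s = L := le_antisymm hsL (h1 ▸ h)
      rw [hs, h1]
      simp
      linarith
    · have hσ : 0 < L - σ := by linarith
      have h2 : 0 ≤ L - s := by linarith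
      refine ⟨by positivity, ?_, ?_⟩
      · rw [div_mul_eq_mul_div, div_le_iff₀ hσ]
        nlinarith
      · rw [div_mul_cancel₀ _ hσ.ne']

/-- the integral of the width -/
private theorem lintegral_tw {L σ A B α : ℝ} (hσ0 : 0 ≤ σ) (hσL : σ ≤ L) (hA : 0 ≤ A)
    (hB : 0 ≤ B) :
    ENNReal.ofReal (L * A + L / 2 * B) ≤
      ∫⁻ s in Ico α (α + L), ENNReal.ofReal (A + tw L σ (s - α) * B) := by
  have h1 : ∫⁻ s in Ico α (α + L), ENNReal.ofReal (A + tw L σ (s - α) * B) =
      (∫⁻ s in Ico α (α + σ), ENNReal.ofReal (A + tw L σ (s - α) * B)) +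
      ∫⁻ s in Ico (α + σ) (α + L), ENNReal.ofReal (A + tw L σ (s - α) * B) := by
    rw [← Ico_union_Ico_eq_Ico (show α ≤ α + σ by linarith) (show α + σ ≤ α + L by linarith)]
    exact lintegral_union measurableSet_Ico (Ico_disjoint_Ico_same)
  have h2 : ∫⁻ s in Ico α (α + σ), ENNReal.ofReal (A + tw L σ (s - α) * B) =
      ENNReal.ofReal (σ * A + σ / 2 * B) := by
    have h3 : ∫⁻ s in Ico α (α + σ), ENNReal.ofReal (A + tw L σ (s - α) * B) =
        ∫⁻ s in Ico α (α + σ), ENNReal.ofReal (A + (s - α) / σ * B) := by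
      refine setLIntegral_congr_fun measurableSet_Ico ?_
      intro s hs
      have : s - α < σ := by linarith [hs.2]
      simp only [tw, if_pos this]
    rw [h3, ← ofReal_integral_eq_lintegral_ofReal]
    · congr 1
      rw [setIntegral_congr_set Ico_ae_eq_Ioc,
        ← intervalIntegral.integral_of_le (show α ≤ α + σ by linarith)]
      rw [intervalIntegral.integral_add (by simp) (by
        apply Continuous.intervalIntegrable
        fun_prop)]
      rw [intervalIntegral.integral_mul_const, intervalIntegral.integral_div,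
        intervalIntegral.integral_comp_sub_right (fun t => t)]
      rcases eq_or_lt_of_le hσ0 with h | h
      · simp [← h]
      · simp only [intervalIntegral.integral_const, smul_eq_mul, integral_id]
        field_simp
        ring
    · apply ContinuousOn.integrableOn_Icc _ |>.mono_set Ico_subset_Icc_self
      fun_prop
    · refine (ae_restrict_iff' measurableSet_Ico).2 (Filter.Eventually.of_forall ?_)
      intro s hs
      have : 0 ≤ s - α := by linarith [hs.1]
      positivity
  have h4 : ∫⁻ s in Ico (α + σ) (α + L), ENNReal.ofReal (A + tw L σ (s - α) * B) =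
      ENNReal.ofReal ((L - σ) * A + (L - σ) / 2 * B) := by
    have h3 : ∫⁻ s in Ico (α + σ) (α + L), ENNReal.ofReal (A + tw L σ (s - α) * B) =
        ∫⁻ s in Ico (α + σ) (α + L), ENNReal.ofReal (A + (L - (s - α)) / (L - σ) * B) := by
      refine setLIntegral_congr_fun measurableSet_Ico ?_
      intro s hs
      have : ¬ (s - α < σ) := by linarith [hs.1]
      simp only [tw, if_neg this]
    rw [h3, ← ofReal_integral_eq_lintegral_ofReal]
    · congr 1
      rw [setIntegral_congr_set Ico_ae_eq_Ioc,
        ← intervalIntegral.integral_of_le (show α + σ ≤ α + L by linarith)]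
      rw [intervalIntegral.integral_add (by simp) (by
        apply Continuous.intervalIntegrable
        fun_prop)]
      rw [intervalIntegral.integral_mul_const, intervalIntegral.integral_div,
        intervalIntegral.integral_comp_sub_right (fun t => L - t)]
      rw [intervalIntegral.integral_comp_sub_left (fun t => t)]
      rcases eq_or_lt_of_le hσL with h | h
      · simp [← h]
      · have h' : L - σ ≠ 0 := by linarith
        simp only [intervalIntegral.integral_const, smul_eq_mul, integral_id]
        field_simp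
        ring
    · apply ContinuousOn.integrableOn_Icc _ |>.mono_set Ico_subset_Icc_self
      fun_prop
    · refine (ae_restrict_iff' measurableSet_Ico).2 (Filter.Eventually.of_forall ?_)
      intro s hs
      have h5 : 0 ≤ L - (s - α) := by linarith [hs.2]
      have h6 : 0 ≤ L - σ := by linarith
      positivity
  rw [h1, h2, h4, ← ENNReal.ofReal_add (by positivity) (by
    have h6 : 0 ≤ L - σ := by linarith
    positivity)]
  apply le_of_eq
  congr 1
  ring

private theorem conv3 {F : Type*} [AddCommGroup F] [Module ℝ F] {S : Set F} (hS : Convex ℝ S)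
    {x y z : F} (hx : x ∈ S) (hy : y ∈ S) (hz : z ∈ S) {a b c : ℝ} (ha : 0 ≤ a) (hb : 0 ≤ b)
    (hc : 0 ≤ c) (h : a + b + c = 1) : a • x + b • y + c • z ∈ S := by
  rcases eq_or_lt_of_le (add_nonneg ha hb) with h0 | h0
  · have ha0 : a = 0 := by linarith
    have hb0 : b = 0 := by linarith
    have hc0 : c = 1 := by linarith
    simpa [ha0, hb0, hc0] using hz
  · have h1 : (a / (a + b)) • x + (b / (a + b)) • y ∈ S :=
      hS hx hy (by positivity) (by positivity) (by field_simp)
    have h2 := hS h1 hz h0.le hc h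
    have h3 : (a + b) • ((a / (a + b)) • x + (b / (a + b)) • y) + c • z = a • x + b • y + c • z := by
      rw [smul_add, smul_smul, smul_smul, mul_div_cancel₀ _ h0.ne', mul_div_cancel₀ _ h0.ne']
    rwa [h3] at h2

/-- Parallel body of a triangle, whose longest side is `xy`. -/
theorem volume_triangle_add {m : ℕ} (x y z : E (m + 2)) {ρ : ℝ} (hρ : 0 < ρ)
    (hxy : x ≠ y) (hxz : dist x z ≤ dist x y) (hyz : dist y z ≤ dist x y) :
    ENNReal.ofReal (kappa (m + 2) * ρ ^ (m + 2) + dist x y * kappa (m + 1) * ρ ^ (m + 1)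
      + area x y z * kappa m * ρ ^ m) ≤ volume (convexHull ℝ {x, y, z} + closedBall (0 : E (m + 2)) ρ) := by
  set L : ℝ := dist x y with hLdef
  have hL : 0 < L := dist_pos.2 hxy
  have hLn : ‖y - x‖ = L := by rw [hLdef, dist_comm, dist_eq_norm]
  set u : E (m + 2) := L⁻¹ • (y - x) with hudef
  have hu : ‖u‖ = 1 := by
    rw [hudef, norm_smul, hLn, Real.norm_of_nonneg (inv_nonneg.2 hL.le), inv_mul_cancel₀ hL.ne']
  obtain ⟨b, hb⟩ := exists_onb_fst u hu
  set K : Set (E (m + 2)) := convexHull ℝ {x, y, z} + closedBall (0 : E (m + 2)) ρ with hKdef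
  have hKc : IsCompact K := by
    apply IsCompact.add
    · exact Set.Finite.isCompact_convexHull ℝ (Set.toFinite _)
    · exact isCompact_closedBall _ _
  have hKm : MeasurableSet K := hKc.measurableSet
  -- coordinates
  set α : ℝ := (cm b x).1 with hα
  set σ : ℝ := (cm b z).1 - α with hσ
  set q : E (m + 1) := (cm b z).2 - (cm b x).2 with hq
  have hyx : cm b (y - x) = (L, 0) := by
    have h1 : (cm b (y - x)).1 = L := by
      rw [cm_fst, hb, hudef, real_inner_smul_left, real_inner_self_eq_norm_sq, hLn]
      field_simp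
    have h2 := norm_sq_cm b (y - x)
    rw [h1, hLn] at h2
    have h3 : ‖(cm b (y - x)).2‖ = 0 := by
      have : ‖(cm b (y - x)).2‖ ^ 2 = 0 := by linarith
      exact pow_eq_zero_iff (by norm_num) |>.1 this
    exact Prod.ext h1 (norm_eq_zero.1 h3)
  have hy1 : (cm b y).1 = α + L := by
    have := congrArg Prod.fst hyx
    rw [cm_sub] at this
    simp only [Prod.fst_sub] at this
    linarith
  have hy2 : (cm b y).2 = (cm b x).2 := by
    have := congrArg Prod.snd hyx
    rw [cm_sub] at this
    simp only [Prod.snd_sub] at this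
    exact sub_eq_zero.1 this
  have hz1 : (cm b z).1 = α + σ := by rw [hσ]; ring
  have hz2 : (cm b z).2 = (cm b x).2 + q := by rw [hq]; abel
  have hzx : ‖z - x‖ ^ 2 = σ ^ 2 + ‖q‖ ^ 2 := by
    rw [norm_sq_cm b, cm_sub]
    simp only [Prod.fst_sub, Prod.snd_sub]
    rw [hσ, hq, hα]
  have hzy : ‖z - y‖ ^ 2 = (σ - L) ^ 2 + ‖q‖ ^ 2 := by
    rw [norm_sq_cm b, cm_sub]
    simp only [Prod.fst_sub, Prod.snd_sub]
    rw [hy1, hy2, hz1]
    congr 2
    ring
  have hσ0 : 0 ≤ σ := by
    have h1 : ‖z - y‖ ≤ L := by rw [← dist_eq_norm, dist_comm]; exact hyz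
    have h2 : ‖z - y‖ ^ 2 ≤ L ^ 2 := by gcongr
    nlinarith [sq_nonneg ‖q‖]
  have hσL : σ ≤ L := by
    have h1 : ‖z - x‖ ≤ L := by rw [← dist_eq_norm, dist_comm]; exact hxz
    have h2 : ‖z - x‖ ^ 2 ≤ L ^ 2 := by gcongr
    nlinarith [sq_nonneg ‖q‖]
  have harea : area x y z = L * ‖q‖ / 2 := by
    unfold area
    have h1 : ⟪y - x, z - x⟫ = L * σ := by
      rw [inner_cm b, hyx]
      rw [cm_sub]
      simp only [Prod.fst_sub, inner_zero_left, add_zero]
      rw [hz1]; ring
    rw [h1, hLn, hzx, show L ^ 2 * (σ ^ 2 + ‖q‖ ^ 2) - (L * σ) ^ 2 = (L * ‖q‖) ^ 2 by ring,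
      Real.sqrt_sq (by positivity)]
    ring
  -- points of the hull
  have hxT : x ∈ convexHull ℝ ({x, y, z} : Set (E (m + 2))) := subset_convexHull _ _ (by simp)
  have hyT : y ∈ convexHull ℝ ({x, y, z} : Set (E (m + 2))) := subset_convexHull _ _ (by simp)
  have hzT : z ∈ convexHull ℝ ({x, y, z} : Set (E (m + 2))) := subset_convexHull _ _ (by simp)
  have hpt : ∀ s l : ℝ, 0 ≤ l → l * σ ≤ s → l * (L - σ) ≤ L - s →
      cminv b (α + s, (cm b x).2 + l • q) ∈ convexHull ℝ ({x, y, z} : Set (E (m + 2))) := by
    intro s l hl h1 h2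
    have h3 : cminv b (α + s, (cm b x).2 + l • q) =
        ((L - s - l * (L - σ)) / L) • x + ((s - l * σ) / L) • y + l • z := by
      apply (Function.LeftInverse.injective (cminv_cm b))
      rw [cm_cminv, cm_add, cm_add, cm_smul, cm_smul, cm_smul]
      apply Prod.ext
      · simp only [Prod.fst_add, Prod.smul_fst, smul_eq_mul]
        rw [hy1, hz1, ← hα]
        field_simp
        ring
      · simp only [Prod.snd_add, Prod.smul_snd]
        rw [hy2, hz2, smul_add, ← add_smul, ← add_assoc, ← add_smul]
        congr 1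
        have : (L - s - l * (L - σ)) / L + (s - l * σ) / L + l = 1 := by
          field_simp
          ring
        rw [this, one_smul]
    rw [h3]
    have hconv := convex_convexHull ℝ ({x, y, z} : Set (E (m + 2)))
    exact conv3 hconv hxT hyT hzT (by
      apply div_nonneg _ hL.le
      linarith) (by
      apply div_nonneg _ hL.le
      linarith) hl (by
      field_simp
      ring)
  -- closed balls in K
  have hball : ∀ p ∈ convexHull ℝ ({x, y, z} : Set (E (m + 2))), closedBall p ρ ⊆ K := by
    intro p hp w hw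
    refine ⟨p, hp, w - p, ?_, by simp⟩
    rw [mem_closedBall_zero_iff]
    rwa [mem_closedBall_iff_norm] at hw
  -- the three parts
  set H1 : Set (E (m + 2)) := {p | (cm b p).1 < α} with hH1
  set H2 : Set (E (m + 2)) := {p | α + L ≤ (cm b p).1} with hH2
  have hc1 : Continuous (fun p : E (m + 2) => (cm b p).1) := (continuous_cm b).fst
  have hH1m : MeasurableSet H1 := (isOpen_lt hc1 continuous_const).measurableSet
  have hH2m : MeasurableSet H2 := (isClosed_le continuous_const hc1).measurableSet
  have hdis : Disjoint H1 H2 := by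
    rw [Set.disjoint_left]
    intro p h1 h2
    simp only [hH1, hH2, Set.mem_ofPred_eq] at h1 h2
    linarith
  have hsplit : volume K = volume (K ∩ H1) + volume (K ∩ H2) + volume (K \ (H1 ∪ H2)) := by
    rw [← measure_inter_add_sdiff K (hH1m.union hH2m), inter_union_distrib_left,
      measure_union (hdis.mono inter_subset_right inter_subset_right) (hKm.inter hH2m)]
  -- the half balls
  have hhalf : ENNReal.ofReal (kappa (m + 2) * ρ ^ (m + 2)) ≤ volume (K ∩ H1) + volume (K ∩ H2) := by
    have h1 : volume (closedBall x ρ ∩ H1) ≤ volume (K ∩ H1) :=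
      measure_mono (inter_subset_inter_left _ (hball x hxT))
    have h2 : volume (closedBall x ρ \ H1) ≤ volume (K ∩ H2) := by
      have h3 : closedBall x ρ \ H1 ⊆ (fun p => p + (y - x)) ⁻¹' (K ∩ H2) := by
        rintro p ⟨hp1, hp2⟩
        simp only [hH1, Set.mem_ofPred_eq, not_lt] at hp2
        refine ⟨hball y hyT ?_, ?_⟩
        · rw [mem_closedBall_iff_norm] at hp1 ⊢
          have : p + (y - x) - y = p - x := by abel
          rw [this]; exact hp1
        · show α + L ≤ (cm b (p + (y - x))).1
          rw [cm_add, hyx]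
          simp only [Prod.fst_add]
          linarith
      refine le_trans (measure_mono h3) ?_
      rw [measure_preimage_add_right]
    calc ENNReal.ofReal (kappa (m + 2) * ρ ^ (m + 2)) = volume (closedBall x ρ) :=
          (volume_cball x hρ.le).symm
      _ = volume (closedBall x ρ ∩ H1) + volume (closedBall x ρ \ H1) :=
          (measure_inter_add_sdiff _ hH1m).symm
      _ ≤ _ := add_le_add h1 h2
  -- the slab
  have hslab : ENNReal.ofReal (L * (kappa (m + 1) * ρ ^ (m + 1)) + L / 2 * (‖q‖ * kappa m * ρ ^ m)) ≤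
      volume (K \ (H1 ∪ H2)) := by
    set S : Set (ℝ × E (m + 1)) := cminv b ⁻¹' (K \ (H1 ∪ H2)) with hS
    have hKS : K \ (H1 ∪ H2) = cm b ⁻¹' S := by
      ext p
      simp only [hS, mem_preimage, cminv_cm]
    have hSm : MeasurableSet S := by
      have h1 : S = cm b '' (K \ (H1 ∪ H2)) := by
        ext p
        constructor
        · intro hp
          exact ⟨cminv b p, hp, cm_cminv b p⟩
        · rintro ⟨w, hw, rfl⟩
          simp only [hS, mem_preimage, cminv_cm]
          exact hw
      rw [h1]
      exact (measurableEmbedding_cm b).measurableSet_image.2 (hKm.diff (hH1m.union hH2m))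
    rw [hKS, volume_preimage_cm, Measure.prod_apply hSm]
    have hk0 : 0 ≤ kappa (m + 1) * ρ ^ (m + 1) := by
      have := kappa_pos (m + 1)
      positivity
    have hk1 : 0 ≤ ‖q‖ * kappa m * ρ ^ m := by
      have := kappa_pos m
      positivity
    refine le_trans (lintegral_tw (α := α) hσ0 hσL hk0 hk1) ?_
    refine le_trans ?_ (setLIntegral_le_lintegral (Ico α (α + L)) _)
    refine setLIntegral_mono' measurableSet_Ico ?_
    intro s hs
    set l : ℝ := tw L σ (s - α) with hl
    obtain ⟨hl0, hl1, hl2⟩ := tw_spec (L := L) (σ := σ) (s := s - α) hσ0 hσL (by linarith [hs.1])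
      (by linarith [hs.2])
    have hseg : segment ℝ ((cm b x).2) ((cm b x).2 + l • q) + closedBall (0 : E (m + 1)) ρ ⊆
        Prod.mk s ⁻¹' S := by
      rintro w ⟨p, hp, r, hr, rfl⟩
      rw [segment_eq_image'] at hp
      obtain ⟨θ, hθ, rfl⟩ := hp
      simp only [add_sub_cancel_left]
      rw [mem_closedBall_zero_iff] at hr
      show cminv b (s, (cm b x).2 + θ • l • q + r) ∈ K \ (H1 ∪ H2)
      constructor
      · have h1 := hpt (s - α) (θ * l) (mul_nonneg hθ.1 hl0)
          (le_trans (by
            have : 0 ≤ l * σ := mul_nonneg hl0 hσ0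
            nlinarith [hθ.2]) hl1)
          (le_trans (by
            have : 0 ≤ l * (L - σ) := mul_nonneg hl0 (by linarith)
            nlinarith [hθ.2]) hl2)
        refine hball _ h1 ?_
        rw [mem_closedBall_iff_norm]
        have h2 : ‖cminv b (s, (cm b x).2 + θ • l • q + r) -
            cminv b (α + (s - α), (cm b x).2 + (θ * l) • q)‖ ^ 2 = ‖r‖ ^ 2 := by
          rw [norm_sq_cm b, cm_sub, cm_cminv, cm_cminv]
          simp only [Prod.fst_sub, Prod.snd_sub]
          rw [show s - (α + (s - α)) = 0 by ring, smul_smul]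
          simp
        have h3 : ‖cminv b (s, (cm b x).2 + θ • l • q + r) -
            cminv b (α + (s - α), (cm b x).2 + (θ * l) • q)‖ = ‖r‖ :=
          (pow_left_inj₀ (norm_nonneg _) (norm_nonneg _) (by norm_num)).1 h2
        rw [h3]
        exact hr
      · rintro (h | h)
        · simp only [hH1, Set.mem_ofPred_eq, cm_cminv] at h
          linarith [hs.1]
        · simp only [hH2, Set.mem_ofPred_eq, cm_cminv] at h
          linarith [hs.2]
    refine le_trans (le_of_eq ?_) (measure_mono hseg)
    rw [volume_segment_add _ _ hρ.le]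
    congr 1
    rw [dist_eq_norm]
    have : (cm b x).2 - ((cm b x).2 + l • q) = -(l • q) := by abel
    rw [this, norm_neg, norm_smul, Real.norm_of_nonneg hl0]
    ring
  rw [hsplit]
  have hk0 : 0 ≤ kappa (m + 2) * ρ ^ (m + 2) := by
    have := kappa_pos (m + 2)
    positivity
  have hk1 : 0 ≤ L * (kappa (m + 1) * ρ ^ (m + 1)) + L / 2 * (‖q‖ * kappa m * ρ ^ m) := by
    have := kappa_pos (m + 1)
    have := kappa_pos m
    positivity
  refine le_trans (le_of_eq ?_) (add_le_add hhalf hslab)
  rw [← ENNReal.ofReal_add hk0 hk1, harea]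
  congr 1
  ring

end Pool.Agent.Saus
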