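import Pool.Agent.Lib.Saus.Coord

/-!
# MP_dcaa2d_co: the tube over a triangle
-/

set_option autoImplicit false

open MeasureTheory Metric Set Filter Topology
open scoped Pointwise RealInnerProductSpace ENNReal

namespace Pool.Agent.Saus

private theorem tube_volume_cball {m : ℕ} (c : E m) {r : ℝ} (hr : 0 ≤ r) :
    volume (closedBall c r) = ENNReal.ofReal (kappa m * r ^ m) := by
  have h1 : volume (closedBall c r) = ENNReal.ofReal (r ^ m) * volume (closedBall (0 : E m) 1) := by
    have := Measure.addHaar_closedBall' (volume : Measure (E m)) c hr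
    simpa using this
  have h2 : volume (closedBall (0 : E m) 1) = ENNReal.ofReal (kappa m) := by
    unfold kappa
    rw [ENNReal.ofReal_toReal]
    exact (measure_closedBall_lt_top).ne
  rw [h1, h2, ← ENNReal.ofReal_mul (pow_nonneg hr m), mul_comm]

/-- Three coordinates: first, second, the others. -/
private noncomputable def c3 {m : ℕ} (b : OrthonormalBasis (Fin (m + 2)) ℝ (E (m + 2)))
    (b' : OrthonormalBasis (Fin (m + 1)) ℝ (E (m + 1))) (y : E (m + 2)) : ℝ × (ℝ × E m) :=
  ((cm b y).1, cm b' (cm b y).2)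

private theorem c3_add {m : ℕ} (b : OrthonormalBasis (Fin (m + 2)) ℝ (E (m + 2)))
    (b' : OrthonormalBasis (Fin (m + 1)) ℝ (E (m + 1))) (y z : E (m + 2)) :
    c3 b b' (y + z) = c3 b b' y + c3 b b' z := by
  unfold c3
  rw [cm_add]
  simp [cm_add]

private theorem c3_sub {m : ℕ} (b : OrthonormalBasis (Fin (m + 2)) ℝ (E (m + 2)))
    (b' : OrthonormalBasis (Fin (m + 1)) ℝ (E (m + 1))) (y z : E (m + 2)) :
    c3 b b' (y - z) = c3 b b' y - c3 b b' z := by
  unfold c3
  rw [cm_sub]
  simp [cm_sub]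

private theorem c3_smul {m : ℕ} (b : OrthonormalBasis (Fin (m + 2)) ℝ (E (m + 2)))
    (b' : OrthonormalBasis (Fin (m + 1)) ℝ (E (m + 1))) (r : ℝ) (y : E (m + 2)) :
    c3 b b' (r • y) = r • c3 b b' y := by
  unfold c3
  rw [cm_smul]
  simp [cm_smul]

private theorem norm_sq_c3 {m : ℕ} (b : OrthonormalBasis (Fin (m + 2)) ℝ (E (m + 2)))
    (b' : OrthonormalBasis (Fin (m + 1)) ℝ (E (m + 1))) (y : E (m + 2)) :
    ‖y‖ ^ 2 = (c3 b b' y).1 ^ 2 + ((c3 b b' y).2.1 ^ 2 + ‖(c3 b b' y).2.2‖ ^ 2) := by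
  rw [norm_sq_cm b y, norm_sq_cm b' (cm b y).2]
  rfl

private theorem continuous_c3 {m : ℕ} (b : OrthonormalBasis (Fin (m + 2)) ℝ (E (m + 2)))
    (b' : OrthonormalBasis (Fin (m + 1)) ℝ (E (m + 1))) : Continuous (c3 b b') := by
  unfold c3
  exact (continuous_fst.comp (continuous_cm b)).prodMk
    ((continuous_cm b').comp (continuous_snd.comp (continuous_cm b)))

private theorem mp_c3 {m : ℕ} (b : OrthonormalBasis (Fin (m + 2)) ℝ (E (m + 2)))
    (b' : OrthonormalBasis (Fin (m + 1)) ℝ (E (m + 1))) :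
    MeasurePreserving (c3 b b') volume (volume.prod (volume.prod volume)) := by
  have h1 := mp_cm b
  have h2 : MeasurePreserving (Prod.map (id : ℝ → ℝ) (cm b')) (volume.prod volume)
      (volume.prod (volume.prod volume)) := (MeasurePreserving.id _).prod (mp_cm b')
  exact h2.comp h1

/-- The prism in coordinates. -/
private def prism (m : ℕ) (l α β ρ : ℝ) : Set (ℝ × (ℝ × E m)) :=
  {c | 0 ≤ c.2.1 ∧ c.2.1 ≤ β ∧ α * c.2.1 / β ≤ c.1 ∧ c.1 ≤ l + (α - l) * c.2.1 / β ∧
    ‖c.2.2‖ ≤ ρ}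

private theorem measurableSet_prism (m : ℕ) (l α β ρ : ℝ) : MeasurableSet (prism m l α β ρ) := by
  have h1 : Continuous (fun c : ℝ × (ℝ × E m) => c.2.1) := continuous_fst.comp continuous_snd
  have h2 : Continuous (fun c : ℝ × (ℝ × E m) => ‖c.2.2‖) :=
    (continuous_snd.comp continuous_snd).norm
  have h3 : Continuous (fun c : ℝ × (ℝ × E m) => α * c.2.1 / β) :=
    (continuous_const.mul h1).div_const β
  have h4 : Continuous (fun c : ℝ × (ℝ × E m) => l + (α - l) * c.2.1 / β) :=
    continuous_const.add ((continuous_const.mul h1).div_const β)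
  apply IsClosed.measurableSet
  unfold prism
  refine (isClosed_le continuous_const h1).inter ?_
  refine (isClosed_le h1 continuous_const).inter ?_
  refine (isClosed_le h3 continuous_fst).inter ?_
  refine (isClosed_le continuous_fst h4).inter ?_
  exact isClosed_le h2 continuous_const

private theorem lintegral_tri {l β : ℝ} (hl : 0 < l) (hβ : 0 < β) :
    ∫⁻ c in Icc 0 β, ENNReal.ofReal (l * (1 - c / β)) = ENNReal.ofReal (l * β / 2) := by
  have hint : IntegrableOn (fun c : ℝ => l * (1 - c / β)) (Icc 0 β) :=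
    (Continuous.continuousOn (by fun_prop)).integrableOn_compact isCompact_Icc
  have hnn : 0 ≤ᵐ[volume.restrict (Icc 0 β)] fun c : ℝ => l * (1 - c / β) := by
    refine (ae_restrict_iff' measurableSet_Icc).mpr (Eventually.of_forall fun c hc => ?_)
    have : c / β ≤ 1 := (div_le_one hβ).mpr hc.2
    exact mul_nonneg hl.le (by linarith)
  rw [← ofReal_integral_eq_lintegral_ofReal hint hnn, integral_Icc_eq_integral_Ioc,
    ← intervalIntegral.integral_of_le hβ.le]
  congr 1
  have h1 : ∀ c : ℝ, l * (1 - c / β) = l - (l / β) * c := by intro c; ring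
  simp_rw [h1]
  rw [intervalIntegral.integral_sub (by simp) (by
    exact (Continuous.intervalIntegrable (by fun_prop) _ _))]
  rw [intervalIntegral.integral_const_mul, integral_id]
  simp
  field_simp
  ring

private theorem volume_prism (m : ℕ) {l α β ρ : ℝ} (hl : 0 < l) (hβ : 0 < β) (hρ : 0 < ρ) :
    ENNReal.ofReal (l * β / 2 * kappa m * ρ ^ m) ≤
      ((volume : Measure ℝ).prod ((volume : Measure ℝ).prod (volume : Measure (E m))))
        (prism m l α β ρ) := by
  rw [Measure.prod_apply_symm (measurableSet_prism m l α β ρ)]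
  have hslice : ∀ z : ℝ × E m,
      (Icc (0:ℝ) β).indicator (fun c => ENNReal.ofReal (l * (1 - c / β))) z.1 *
        (closedBall (0 : E m) ρ).indicator (fun _ => (1 : ℝ≥0∞)) z.2 ≤
      volume ((fun x : ℝ => (x, z)) ⁻¹' (prism m l α β ρ)) := by
    rintro ⟨c, w⟩
    by_cases hc : c ∈ Icc (0:ℝ) β
    · by_cases hw : w ∈ closedBall (0 : E m) ρ
      · rw [indicator_of_mem hc, indicator_of_mem hw, mul_one]
        have hset : ((fun x : ℝ => (x, ((c, w) : ℝ × E m))) ⁻¹' (prism m l α β ρ))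
            = Icc (α * c / β) (l + (α - l) * c / β) := by
          ext x
          simp only [prism, mem_preimage, mem_ofPred_eq, mem_Icc]
          have hw' : ‖w‖ ≤ ρ := by simpa using hw
          constructor
          · rintro ⟨_, _, h3, h4, _⟩
            exact ⟨h3, h4⟩
          · rintro ⟨h3, h4⟩
            exact ⟨hc.1, hc.2, h3, h4, hw'⟩
        rw [hset, Real.volume_Icc]
        apply le_of_eq
        congr 1
        ring
      · rw [indicator_of_notMem hw, mul_zero]
        exact zero_le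
    · rw [indicator_of_notMem hc, zero_mul]
      exact zero_le
  refine le_trans (le_of_eq ?_) (lintegral_mono hslice)
  rw [lintegral_prod_mul]
  · have hone : ∫⁻ y : E m, (closedBall (0 : E m) ρ).indicator (fun _ => (1 : ℝ≥0∞)) y
        = volume (closedBall (0 : E m) ρ) :=
      lintegral_indicator_one measurableSet_closedBall
    rw [lintegral_indicator measurableSet_Icc, lintegral_tri hl hβ, hone,
      tube_volume_cball _ hρ.le, ← ENNReal.ofReal_mul (by positivity)]
    congr 1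
    ring
  · refine (Measurable.indicator ?_ measurableSet_Icc).aemeasurable
    fun_prop
  · exact (measurable_const.indicator measurableSet_closedBall).aemeasurable

/-! T1: tube over a triangle -/
theorem exists_tube {m : ℕ} (x a b : E (m + 2)) {ρ s0 : ℝ} (hρ : 0 < ρ) (ha : dist a x ≤ s0)
    (hb : dist b x ≤ s0) :
    ∃ Q : Set (E (m + 2)), MeasurableSet Q ∧ Q ⊆ convexHull ℝ {x, a, b} + closedBall 0 ρ ∧
      Q ⊆ closedBall x (Real.sqrt (ρ ^ 2 + s0 ^ 2)) ∧
      ENNReal.ofReal (area x a b * kappa m * ρ ^ m) ≤ volume Q := by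
  set p : E (m + 2) := a - x with hp
  set q : E (m + 2) := b - x with hq
  have hs0 : 0 ≤ s0 := dist_nonneg.trans ha
  have hpn : ‖p‖ ≤ s0 := by rw [hp, ← dist_eq_norm]; exact ha
  have hqn : ‖q‖ ≤ s0 := by rw [hq, ← dist_eq_norm]; exact hb
  by_cases harea : area x a b = 0
  · exact ⟨∅, MeasurableSet.empty, empty_subset _, empty_subset _, by simp [harea]⟩
  have harea' : area x a b = (1 / 2) * Real.sqrt (‖p‖ ^ 2 * ‖q‖ ^ 2 - ⟪p, q⟫ ^ 2) := rfl
  have hp0 : p ≠ 0 := by
    intro h
    apply harea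
    rw [harea', h]
    simp
  have hpn0 : 0 < ‖p‖ := norm_pos_iff.mpr hp0
  set u : E (m + 2) := (‖p‖)⁻¹ • p with hu
  have hun : ‖u‖ = 1 := by
    rw [hu, norm_smul, norm_inv, norm_norm, inv_mul_cancel₀ hpn0.ne']
  set α : ℝ := ⟪u, q⟫ with hα
  set q' : E (m + 2) := q - α • u with hq'
  have huu : ⟪u, u⟫ = (1 : ℝ) := by rw [real_inner_self_eq_norm_sq, hun]; norm_num
  have huq' : ⟪u, q'⟫ = 0 := by
    rw [hq', inner_sub_right, real_inner_smul_right, huu, ← hα]; ring
  have hqdec : q = q' + α • u := by rw [hq']; abel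
  have hqnorm : ‖q‖ ^ 2 = ‖q'‖ ^ 2 + α ^ 2 := by
    have h := norm_add_sq_real q' (α • u)
    rw [← hqdec, real_inner_smul_right, real_inner_comm, huq', norm_smul, hun] at h
    rw [h]
    simp
  have hpu : p = ‖p‖ • u := by
    rw [hu, smul_smul, mul_inv_cancel₀ hpn0.ne', one_smul]
  have hpq : ⟪p, q⟫ = ‖p‖ * α := by
    conv_lhs => rw [hpu]
    rw [real_inner_smul_left]
  have harea2 : area x a b = ‖p‖ * ‖q'‖ / 2 := by
    rw [harea', hpq, hqnorm]
    have : ‖p‖ ^ 2 * (‖q'‖ ^ 2 + α ^ 2) - (‖p‖ * α) ^ 2 = (‖p‖ * ‖q'‖) ^ 2 := by ring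
    rw [this, Real.sqrt_sq (by positivity)]
    ring
  set β : ℝ := ‖q'‖ with hβ
  have hβ0 : 0 < β := by
    rcases (norm_nonneg q').lt_or_eq with h | h
    · exact h
    · exact absurd (by rw [harea2, ← hβ] at *; rw [← h]; ring) harea
  set v : E (m + 2) := β⁻¹ • q' with hv
  have hvn : ‖v‖ = 1 := by
    rw [hv, norm_smul, norm_inv, Real.norm_of_nonneg hβ0.le, ← hβ, inv_mul_cancel₀ hβ0.ne']
  have huv : ⟪u, v⟫ = 0 := by rw [hv, real_inner_smul_right, huq', mul_zero]
  obtain ⟨bb, hb0, hb1⟩ := exists_onb_two u v hun hvn huv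
  let b' : OrthonormalBasis (Fin (m + 1)) ℝ (E (m + 1)) := EuclideanSpace.basisFun (Fin (m + 1)) ℝ
  have hc1 : ∀ y : E (m + 2), (c3 bb b' y).2.1 = ⟪v, y⟫ := by
    intro y
    show (cm b' (cm bb y).2).1 = _
    rw [cm_fst]
    have : ⟪b' 0, (cm bb y).2⟫ = (cm bb y).2 0 := by
      rw [← b'.repr_apply_apply]
      rfl
    rw [this, cm_snd_apply, ← hb1]
    rfl
  have hc0 : ∀ y : E (m + 2), (c3 bb b' y).1 = ⟪u, y⟫ := by
    intro y
    show (cm bb y).1 = _
    rw [cm_fst, hb0]
  have hCp : c3 bb b' p = (‖p‖, ((0 : ℝ), (0 : E m))) := by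
    have h0 : (c3 bb b' p).1 = ‖p‖ := by
      rw [hc0]; conv_lhs => rw [hpu]
      rw [real_inner_smul_right, huu, mul_one]
    have h1 : (c3 bb b' p).2.1 = 0 := by
      rw [hc1]; conv_lhs => rw [hpu]
      rw [real_inner_smul_right, real_inner_comm, huv, mul_zero]
    have h2 : (c3 bb b' p).2.2 = 0 := by
      have h := norm_sq_c3 bb b' p
      rw [h0, h1] at h
      have : ‖(c3 bb b' p).2.2‖ ^ 2 = 0 := by linarith
      exact norm_eq_zero.mp (by simpa using this)
    exact Prod.ext h0 (Prod.ext h1 h2)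
  have hvq : ⟪v, q⟫ = β := by
    have hvu : ⟪v, u⟫ = 0 := by rw [real_inner_comm]; exact huv
    have hvq' : ⟪v, q'⟫ = β := by
      rw [hv, real_inner_smul_left, real_inner_self_eq_norm_sq, ← hβ]
      field_simp
    conv_lhs => rw [hqdec]
    rw [inner_add_right, real_inner_smul_right, hvu, hvq']
    ring
  have hCq : c3 bb b' q = (α, (β, (0 : E m))) := by
    have h0 : (c3 bb b' q).1 = α := by rw [hc0]
    have h1 : (c3 bb b' q).2.1 = β := by rw [hc1, hvq]
    have h2 : (c3 bb b' q).2.2 = 0 := by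
      have h := norm_sq_c3 bb b' q
      rw [h0, h1, hqnorm] at h
      have : ‖(c3 bb b' q).2.2‖ ^ 2 = 0 := by linarith
      exact norm_eq_zero.mp (by simpa using this)
    exact Prod.ext h0 (Prod.ext h1 h2)
  have hdec : ∀ y : E (m + 2), c3 bb b' (y - x) ∈ prism m ‖p‖ α β ρ → ∃ s t : ℝ, 0 ≤ s ∧ 0 ≤ t ∧
      s + t ≤ 1 ∧ ‖y - x - (s • p + t • q)‖ ≤ ρ ∧
      ‖y - x‖ ^ 2 = ‖s • p + t • q‖ ^ 2 + ‖y - x - (s • p + t • q)‖ ^ 2 := by
    intro y hy
    obtain ⟨h1, h2, h3, h4, h5⟩ := hy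
    set C := c3 bb b' (y - x) with hC
    have ht : α * C.2.1 / β = α * (C.2.1 / β) := by ring
    have ht' : (α - ‖p‖) * C.2.1 / β = (α - ‖p‖) * (C.2.1 / β) := by ring
    rw [ht] at h3
    rw [ht'] at h4
    have hsum : c3 bb b' (((C.1 - α * (C.2.1 / β)) / ‖p‖) • p + (C.2.1 / β) • q)
        = (C.1, (C.2.1, (0 : E m))) := by
      rw [c3_add, c3_smul, c3_smul, hCp, hCq]
      refine Prod.ext ?_ (Prod.ext ?_ ?_)
      · simp only [Prod.smul_mk, Prod.mk_add_mk, smul_eq_mul]
        field_simp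
        ring
      · simp only [Prod.smul_mk, Prod.mk_add_mk, smul_eq_mul]
        field_simp
        ring
      · simp
    have hres : c3 bb b' (y - x - (((C.1 - α * (C.2.1 / β)) / ‖p‖) • p + (C.2.1 / β) • q))
        = ((0 : ℝ), ((0 : ℝ), C.2.2)) := by
      rw [c3_sub, hsum, ← hC]
      refine Prod.ext ?_ (Prod.ext ?_ ?_) <;> simp
    refine ⟨(C.1 - α * (C.2.1 / β)) / ‖p‖, C.2.1 / β, ?_, ?_, ?_, ?_, ?_⟩
    · exact div_nonneg (by linarith) hpn0.le
    · exact div_nonneg h1 hβ0.le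
    · have : (C.1 - α * (C.2.1 / β)) / ‖p‖ ≤ 1 - C.2.1 / β := by
        rw [div_le_iff₀ hpn0]
        nlinarith
      linarith
    · have h := norm_sq_c3 bb b'
        (y - x - (((C.1 - α * (C.2.1 / β)) / ‖p‖) • p + (C.2.1 / β) • q))
      rw [hres] at h
      have h6 : ‖y - x - (((C.1 - α * (C.2.1 / β)) / ‖p‖) • p + (C.2.1 / β) • q)‖ ^ 2
          ≤ ρ ^ 2 := by
        rw [h]
        simp only
        have : ‖C.2.2‖ ^ 2 ≤ ρ ^ 2 := pow_le_pow_left₀ (norm_nonneg _) h5 2
        linarith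
      exact (pow_le_pow_iff_left₀ (norm_nonneg _) hρ.le (by norm_num)).mp h6
    · have ha1 := norm_sq_c3 bb b'
        (y - x - (((C.1 - α * (C.2.1 / β)) / ‖p‖) • p + (C.2.1 / β) • q))
      have ha2 := norm_sq_c3 bb b' (((C.1 - α * (C.2.1 / β)) / ‖p‖) • p + (C.2.1 / β) • q)
      have ha3 := norm_sq_c3 bb b' (y - x)
      rw [hres] at ha1
      rw [hsum] at ha2
      rw [← hC] at ha3
      rw [ha1, ha2, ha3]
      simp
      ring
  refine ⟨(fun y => y - x) ⁻¹' (c3 bb b' ⁻¹' (prism m ‖p‖ α β ρ)), ?_, ?_, ?_, ?_⟩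
  · exact ((measurableSet_prism _ _ _ _ _).preimage (continuous_c3 bb b').measurable).preimage
      (by fun_prop)
  · intro y hy
    obtain ⟨s, t, hs, ht, hst, hr, -⟩ := hdec y hy
    refine Set.mem_add.mpr ⟨x + (s • p + t • q), ?_, y - x - (s • p + t • q), ?_, by abel⟩
    · have hmem := (convex_convexHull ℝ ({x, a, b} : Set (E (m + 2)))).sum_mem
        (t := (Finset.univ : Finset (Fin 3))) (w := ![1 - s - t, s, t]) (z := ![x, a, b])
        (by
          intro i _
          fin_cases i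
          · show (0 : ℝ) ≤ 1 - s - t
            linarith
          · exact hs
          · exact ht)
        (by rw [Fin.sum_univ_three]
            show (1 - s - t) + s + t = 1
            ring)
        (by
          intro i _
          fin_cases i
          · exact subset_convexHull ℝ _ (by simp)
          · exact subset_convexHull ℝ _ (by simp)
          · exact subset_convexHull ℝ _ (by simp))
      have heq : x + (s • p + t • q) = ∑ i : Fin 3, (![1 - s - t, s, t] : Fin 3 → ℝ) i •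
          (![x, a, b] : Fin 3 → E (m + 2)) i := by
        rw [Fin.sum_univ_three]
        show _ = (1 - s - t) • x + s • a + t • b
        rw [hp, hq]
        module
      rw [heq]
      exact hmem
    · simpa using hr
  · intro y hy
    obtain ⟨s, t, hs, ht, hst, hr, hn⟩ := hdec y hy
    rw [mem_closedBall, dist_eq_norm]
    apply Real.le_sqrt_of_sq_le
    have h1 : ‖s • p + t • q‖ ≤ s0 := by
      calc ‖s • p + t • q‖ ≤ ‖s • p‖ + ‖t • q‖ := norm_add_le _ _
        _ = s * ‖p‖ + t * ‖q‖ := by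
            rw [norm_smul, norm_smul, Real.norm_of_nonneg hs, Real.norm_of_nonneg ht]
        _ ≤ s * s0 + t * s0 := add_le_add (mul_le_mul_of_nonneg_left hpn hs)
            (mul_le_mul_of_nonneg_left hqn ht)
        _ = (s + t) * s0 := by ring
        _ ≤ 1 * s0 := mul_le_mul_of_nonneg_right hst hs0
        _ = s0 := one_mul _
    have h2 : ‖s • p + t • q‖ ^ 2 ≤ s0 ^ 2 := pow_le_pow_left₀ (norm_nonneg _) h1 2
    have h3 : ‖y - x - (s • p + t • q)‖ ^ 2 ≤ ρ ^ 2 := pow_le_pow_left₀ (norm_nonneg _) hr 2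
    linarith
  · have h1 : volume ((fun y => y - x) ⁻¹' (c3 bb b' ⁻¹' (prism m ‖p‖ α β ρ)))
        = volume (c3 bb b' ⁻¹' (prism m ‖p‖ α β ρ)) :=
      (measurePreserving_sub_right volume x).measure_preimage
        ((measurableSet_prism _ _ _ _ _).preimage
          (continuous_c3 bb b').measurable).nullMeasurableSet
    rw [h1, (mp_c3 bb b').measure_preimage (measurableSet_prism _ _ _ _ _).nullMeasurableSet,
      harea2]
    exact volume_prism m hpn0 hβ0 hρ

end Pool.Agent.Saus
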