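import Pool.Agent.Lib.Saus.Kappa
import Pool.Agent.Lib.Saus.Tube
import Pool.Agent.Lib.Saus.Trib
import Pool.Agent.Lib.Saus.Order
import Pool.Agent.Lib.Saus.Triangles
import Pool.Agent.Lib.Saus.Count
import Pool.Agent.Lib.Saus.KL
import Pool.Agent.Lib.Saus.DeltaN
import Pool.Agent.Lib.Saus.Bdd

/-!
# MP_dcaa2d_co: the main inequality
-/

set_option autoImplicit false

open MeasureTheory Metric Set Filter Topology
open scoped Pointwise RealInnerProductSpace

namespace Pool.Agent.Saus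

/-- Monotonicity: `V X ρ` dominates the volume of `conv S + ρ B` for `S ⊆ X`. -/
theorem le_V_of_subset {d : ℕ} (X : Finset (E d)) {S : Set (E d)} (hS : S ⊆ (X : Set (E d)))
    {ρ v : ℝ} (hv : 0 ≤ v)
    (h : ENNReal.ofReal v ≤ volume (convexHull ℝ S + closedBall (0 : E d) ρ)) : v ≤ V X ρ := by
  have hK : IsCompact (convexHull ℝ (X : Set (E d)) + closedBall (0 : E d) ρ) :=
    (X.finite_toSet.isCompact_convexHull ℝ).add (isCompact_closedBall _ _)
  have h1 : volume (convexHull ℝ S + closedBall (0 : E d) ρ) ≤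
      volume (convexHull ℝ (X : Set (E d)) + closedBall (0 : E d) ρ) :=
    measure_mono (Set.add_subset_add_right (convexHull_mono hS))
  have h2 := h.trans h1
  unfold V
  rw [← ENNReal.toReal_ofReal hv]
  exact ENNReal.toReal_mono hK.measure_lt_top.ne h2

theorem pow_599_lt : (2 : ℝ) ^ (0.599 : ℝ) ≤ 1.52 := by
  have h1 : (2 : ℝ) ^ (0.599 : ℝ) ≤ (2 : ℝ) ^ (0.6 : ℝ) :=
    Real.rpow_le_rpow_of_exponent_le (by norm_num) (by norm_num)
  have h2 : (2 : ℝ) ^ (0.6 : ℝ) = ((8 : ℝ)) ^ ((1 : ℝ) / 5) := by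
    rw [show (8 : ℝ) = (2 : ℝ) ^ (3 : ℝ) by norm_num, ← Real.rpow_mul (by norm_num)]
    norm_num
  have h3 : (8 : ℝ) ^ ((1 : ℝ) / 5) ≤ 1.52 := by
    have h4 : ((8 : ℝ) ^ ((1 : ℝ) / 5)) ^ (5 : ℕ) ≤ (1.52 : ℝ) ^ (5 : ℕ) := by
      rw [← Real.rpow_natCast, ← Real.rpow_mul (by norm_num)]
      norm_num
    exact le_of_pow_le_pow_left₀ (by norm_num) (by norm_num) h4
  linarith [h2 ▸ h1]

theorem area_nonneg {d : ℕ} (x a b : E d) : 0 ≤ area x a b := by
  unfold area
  positivity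

theorem area_le {d : ℕ} (x a b : E d) : area x a b ≤ dist x a * dist x b / 2 := by
  unfold area
  have h1 : Real.sqrt (‖a - x‖ ^ 2 * ‖b - x‖ ^ 2 - ⟪a - x, b - x⟫ ^ 2) ≤ ‖a - x‖ * ‖b - x‖ := by
    refine Real.sqrt_le_iff.2 ⟨by positivity, ?_⟩
    nlinarith [sq_nonneg (⟪a - x, b - x⟫ : ℝ)]
  rw [dist_comm x a, dist_comm x b, dist_eq_norm, dist_eq_norm]
  linarith

/-- One dimension, all parameters fixed. -/
theorem main_fixed {m : ℕ} {R r s0 δ ρ : ℝ} (hρ : 0 < ρ) (hs0 : 0 < s0) (hs01 : s0 ≤ 1 / 10)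
    (hδ : δ = 1 / 100) (hr1r : ρ ^ 2 + s0 ^ 2 ≤ r ^ 2) (hrR : r ≤ R) (hr0 : 0 < r) (hR : R ≤ 1.93)
    (hρ2 : ρ ≤ 1.52)
    (hKL : ∀ (c : E (m + 2)) (Y : Finset (E (m + 2))), IsPack Y → (∀ y ∈ Y, dist y c ≤ R) →
      (Y.card : ℝ) ≤ (R / r) ^ (m + 2))
    (hk2 : ρ * kappa (m + 2) ≤ 2 * kappa (m + 1))
    (hq : 0 < kappa m / kappa (m + 1)) (hq1 : 10 * (4 * ρ) < kappa m / kappa (m + 1))
    (hq2 : 128 * ρ ≤ s0 ^ 2 * δ * (kappa m / kappa (m + 1)))
    (hq3 : 8192 * ρ ^ 2 ≤ s0 * δ * (kappa m / kappa (m + 1)) ^ 2)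
    (X : Finset (E (m + 2))) (hXne : X.Nonempty) (hX : IsPack X) :
    2 * ((X.card : ℝ) - 1) * kappa (m + 1) * ρ ^ (m + 1) + kappa (m + 2) * ρ ^ (m + 2) ≤
      V X ρ := by
  classical
  set q := kappa m / kappa (m + 1) with hqdef
  have hkm := kappa_pos m
  have hk1 := kappa_pos (m + 1)
  have hk2' := kappa_pos (m + 2)
  have hkq : kappa m = q * kappa (m + 1) := by
    rw [hqdef]; field_simp
  -- the diametral pair
  obtain ⟨⟨x1, x2⟩, hp, hmax⟩ := Finset.exists_max_image (X ×ˢ X) (fun p => dist p.1 p.2)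
    (hXne.product hXne)
  rw [Finset.mem_product] at hp
  obtain ⟨h1, h2⟩ := hp
  have hdiam : ∀ x ∈ X, ∀ y ∈ X, dist x y ≤ dist x1 x2 := fun x hx y hy =>
    hmax (x, y) (Finset.mem_product.2 ⟨hx, hy⟩)
  by_cases h12 : x1 = x2
  · -- one point
    have hcard : X.card = 1 := by
      rw [Finset.card_eq_one]
      refine ⟨x1, ?_⟩
      ext y
      constructor
      · intro hy
        have := hdiam y hy x1 h1
        rw [← h12, dist_self] at this
        rw [Finset.mem_singleton]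
        exact dist_le_zero.1 this
      · intro hy
        rw [Finset.mem_singleton] at hy
        rw [hy]; exact h1
    rw [hcard]
    have h3 : ENNReal.ofReal (kappa (m + 2) * ρ ^ (m + 2)) ≤
        volume (convexHull ℝ {x1} + closedBall (0 : E (m + 2)) ρ) := by
      rw [convexHull_singleton, singleton_add_closedBall, add_zero, volume_cball _ hρ.le]
    have h4 := le_V_of_subset X (S := {x1}) (by simpa using h1) (by positivity) h3
    simpa using h4
  -- at least two points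
  have hL0 : 0 < dist x1 x2 := dist_pos.2 h12
  obtain ⟨z, hzX, hzmax⟩ := Finset.exists_max_image X (fun z => area x1 x2 z) hXne
  set L := dist x1 x2 with hLdef
  set D := 2 * area x1 x2 z / L with hDdef
  have hD0 : 0 ≤ D := by
    have := area_nonneg x1 x2 z
    positivity
  have hareaD : area x1 x2 z = L * D / 2 := by
    rw [hDdef]; field_simp
  have hzall : ∀ z' ∈ X, area x1 x2 z' ≤ L * D / 2 := fun z' hz' => hareaD ▸ hzmax z' hz'
  have hDL : D ≤ L := by
    have h3 := area_le x1 x2 z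
    have h4 : dist x1 z ≤ L := hdiam x1 h1 z hzX
    have h5 : L * D / 2 ≤ L * L / 2 := by
      rw [← hareaD]
      refine h3.trans ?_
      have : dist x1 x2 * dist x1 z ≤ L * L := mul_le_mul le_rfl h4 dist_nonneg hL0.le
      linarith
    nlinarith
  have hcard1 : (1 : ℝ) ≤ X.card := by exact_mod_cast hXne.card_pos
  by_cases hstar : 4 * ρ * D * ((X.card : ℝ) - 1) ≤ q * L
  · -- slicing
    have h3 := pack_length X hX h1 h2 h12 hdiam hD0 hzall
    have h4 := volume_triangle_add x1 x2 z hρ h12 (hdiam x1 h1 z hzX) (hdiam x2 h2 z hzX)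
    have h5 := le_V_of_subset X (S := {x1, x2, z}) (by
      intro y hy
      simp only [Set.mem_insert_iff, Set.mem_singleton_iff] at hy
      rcases hy with rfl | rfl | rfl
      · exact h1
      · exact h2
      · exact hzX) (by have := area_nonneg x1 x2 z; positivity) h4
    refine le_trans ?_ h5
    rw [hareaD, hkq]
    have h6 : 2 * D ^ 2 * ((X.card : ℝ) - 1) * (kappa (m + 1) * ρ ^ (m + 1)) ≤
        L * D / 2 * (q * kappa (m + 1)) * ρ ^ m := by
      have h7 : 4 * ρ * D * ((X.card : ℝ) - 1) * (D / 2 * kappa (m + 1) * ρ ^ m) ≤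
          q * L * (D / 2 * kappa (m + 1) * ρ ^ m) :=
        mul_le_mul_of_nonneg_right hstar (by positivity)
      calc 2 * D ^ 2 * ((X.card : ℝ) - 1) * (kappa (m + 1) * ρ ^ (m + 1))
          = 4 * ρ * D * ((X.card : ℝ) - 1) * (D / 2 * kappa (m + 1) * ρ ^ m) := by ring
        _ ≤ q * L * (D / 2 * kappa (m + 1) * ρ ^ m) := h7
        _ = L * D / 2 * (q * kappa (m + 1)) * ρ ^ m := by ring
    have h8 : (2 * ((X.card : ℝ) - 1) - L) * (kappa (m + 1) * ρ ^ (m + 1)) ≤
        2 * D ^ 2 * ((X.card : ℝ) - 1) * (kappa (m + 1) * ρ ^ (m + 1)) :=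
      mul_le_mul_of_nonneg_right h3 (by positivity)
    nlinarith
  · -- many triangles
    push Not at hstar
    have hDpos : 0 < D := by
      rcases hD0.lt_or_eq with h | h
      · exact h
      · exfalso
        rw [← h] at hstar
        simp only [mul_zero, zero_mul] at hstar
        have : 0 < q * L := by positivity
        linarith
    have hn : q / (4 * ρ) < (X.card : ℝ) - 1 := by
      rw [div_lt_iff₀ (by positivity)]
      have h3 : q * D ≤ q * L := mul_le_mul_of_nonneg_left hDL hq.le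
      have h4 : q * D < 4 * ρ * D * ((X.card : ℝ) - 1) := lt_of_le_of_lt h3 hstar
      have h5 : D * q < D * (((X.card : ℝ) - 1) * (4 * ρ)) := by linarith
      exact lt_of_mul_lt_mul_left h5 hDpos.le
    have hn10 : (10 : ℝ) < (X.card : ℝ) - 1 := by
      refine lt_trans ?_ hn
      rw [lt_div_iff₀ (by positivity)]
      exact hq1
    have hcard11 : 11 ≤ X.card := by
      have : (11 : ℝ) < X.card := by linarith
      exact_mod_cast this.le
    have hδ0 : 0 < δ := by rw [hδ]; norm_num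
    set τ := 32 * ρ / (δ * q) with hτdef
    have hτ0 : 0 < τ := by positivity
    have hτq : δ * q * τ = 32 * ρ := by rw [hτdef]; field_simp
    have hσ : 4 * τ ≤ s0 ^ 2 := by
      have h3 : δ * q * (4 * τ) ≤ δ * q * s0 ^ 2 := by nlinarith
      exact le_of_mul_le_mul_left h3 (by positivity)
    have hL64 : 64 * τ * L ≤ s0 * D * ((X.card : ℝ) - 1) := by
      have h3 : q * L * (64 * τ) ≤ 4 * ρ * D * ((X.card : ℝ) - 1) * (64 * τ) :=
        mul_le_mul_of_nonneg_right hstar.le (by positivity)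
      have h4 : δ * q * (q * (64 * τ * L)) ≤ δ * q * (q * (s0 * D * ((X.card : ℝ) - 1))) := by
        have h5 : δ * q * (q * (64 * τ * L)) ≤ δ * q * (4 * ρ * D * ((X.card : ℝ) - 1) * (64 * τ)) :=
          mul_le_mul_of_nonneg_left (by linarith) (by positivity)
        have h6 : δ * q * (4 * ρ * D * ((X.card : ℝ) - 1) * (64 * τ)) =
            8192 * ρ ^ 2 * (D * ((X.card : ℝ) - 1)) := by
          calc δ * q * (4 * ρ * D * ((X.card : ℝ) - 1) * (64 * τ))
              = (δ * q * τ) * (256 * ρ * D * ((X.card : ℝ) - 1)) := by ring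
            _ = 32 * ρ * (256 * ρ * D * ((X.card : ℝ) - 1)) := by rw [hτq]
            _ = _ := by ring
        have h7 : 8192 * ρ ^ 2 * (D * ((X.card : ℝ) - 1)) ≤
            s0 * δ * q ^ 2 * (D * ((X.card : ℝ) - 1)) :=
          mul_le_mul_of_nonneg_right hq3 (by nlinarith)
        nlinarith
      have h8 := le_of_mul_le_mul_left h4 (by positivity)
      exact le_of_mul_le_mul_left h8 hq
    obtain ⟨I, hIX, hIcard, hI⟩ := many_triangles X hX hcard11 h1 h2 hzX h12 hdiam hDpos hareaD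
      hs0 (by linarith) hτ0 hσ hL64
    choose! a ha b hb hda hdb hab using hI
    have hT : ∀ x : E (m + 2), ∃ Q : Set (E (m + 2)), x ∈ I → (MeasurableSet Q ∧
        Q ⊆ convexHull ℝ {x, a x, b x} + closedBall 0 ρ ∧
        Q ⊆ closedBall x (Real.sqrt (ρ ^ 2 + s0 ^ 2)) ∧
        ENNReal.ofReal (area x (a x) (b x) * kappa m * ρ ^ m) ≤ volume Q) := by
      intro x
      by_cases hx : x ∈ I
      · obtain ⟨Q, hQ⟩ := exists_tube x (a x) (b x) hρ (hda x hx) (hdb x hx)
        exact ⟨Q, fun _ => hQ⟩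
      · exact ⟨∅, fun h => absurd h hx⟩
    choose Q hQ using hT
    set r1 := Real.sqrt (ρ ^ 2 + s0 ^ 2) with hr1def
    have hr1sq : r1 ^ 2 = ρ ^ 2 + s0 ^ 2 := Real.sq_sqrt (by positivity)
    have hr1pos : 0 < r1 := Real.sqrt_pos.2 (by positivity)
    have hr1r' : r1 ≤ r := by
      rw [hr1def]
      exact Real.sqrt_le_iff.2 ⟨hr0.le, hr1r⟩
    have hρr1 : ρ ≤ r1 := by
      rw [hr1def]
      exact Real.le_sqrt_of_sq_le (by nlinarith [sq_nonneg s0])
    set t0 := Real.sqrt (max (r1 ^ 2 - 2 + δ) 0) with ht0def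
    have ht0 : 0 ≤ t0 := Real.sqrt_nonneg _
    have ht0sq : t0 ^ 2 = max (r1 ^ 2 - 2 + δ) 0 := Real.sq_sqrt (le_max_right _ _)
    have hcount := volume_counting X hX I hIX Q (ρ := ρ) (r1 := r1) (R := R) (δ := δ) (t0 := t0)
      (v := τ * kappa m * ρ ^ m) hρ hr1pos hδ0 (by rw [hδ]; norm_num) ht0
      (by
        rw [ht0sq]
        have := le_max_left (r1 ^ 2 - 2 + δ) 0
        linarith)
      (fun x hx => (hQ x hx).1)
      (fun x hx => by
        refine (hQ x hx).2.1.trans (Set.add_subset_add_right ?_)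
        refine convexHull_min ?_ (convex_convexHull ℝ _)
        intro y hy
        simp only [Set.mem_insert_iff, Set.mem_singleton_iff] at hy
        rcases hy with rfl | rfl | rfl
        · exact subset_convexHull ℝ _ (hIX hx)
        · exact ha x hx
        · exact hb x hx)
      (fun x hx => (hQ x hx).2.2.1) (by positivity)
      (fun x hx => by
        refine le_trans (ENNReal.ofReal_le_ofReal ?_) (hQ x hx).2.2.2
        have := hab x hx
        have h3 : 0 ≤ kappa m * ρ ^ m := by positivity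
        nlinarith)
      (by
        by_cases hsmall : r1 ^ 2 - 2 + δ ≤ 0
        · left
          rw [ht0def, max_eq_right hsmall, Real.sqrt_zero]
        · right
          push Not at hsmall
          refine ⟨hr1r'.trans hrR, ?_, ?_⟩
          · have hρ14 : 1.4 ≤ ρ := by
              have h3 : 1.98 - s0 ^ 2 ≤ ρ ^ 2 := by
                rw [hδ] at hsmall
                nlinarith
              have h4 : s0 ^ 2 ≤ 0.01 := by nlinarith
              nlinarith
            have h5 : t0 ≤ 0.6 := by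
              rw [ht0def, max_eq_left hsmall.le]
              refine Real.sqrt_le_iff.2 ⟨by norm_num, ?_⟩
              rw [hr1sq, hδ]
              nlinarith
            linarith
          · intro c Y hY hYR
            refine (hKL c Y hY hYR).trans ?_
            exact pow_le_pow_left₀ (div_nonneg (by linarith) hr0.le)
              (div_le_div_of_nonneg_left (by linarith) hr1pos hr1r') _)
    have hI2 : (X.card : ℝ) ≤ 2 * I.card := by exact_mod_cast hIcard
    have h9 : 2 * (X.card : ℝ) * kappa (m + 1) * ρ ^ (m + 1) ≤ δ / 8 * I.card * (τ * kappa m * ρ ^ m) := by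
      have h10 : δ / 8 * I.card * (τ * kappa m * ρ ^ m) =
          (2 * I.card) * (2 * kappa (m + 1) * ρ ^ (m + 1)) := by
        rw [hkq]
        calc δ / 8 * I.card * (τ * (q * kappa (m + 1)) * ρ ^ m)
            = (δ * q * τ) * (I.card / 8 * kappa (m + 1) * ρ ^ m) := by ring
          _ = 32 * ρ * (I.card / 8 * kappa (m + 1) * ρ ^ m) := by rw [hτq]
          _ = _ := by ring
      rw [h10]
      have : 0 ≤ 2 * kappa (m + 1) * ρ ^ (m + 1) := by positivity
      nlinarith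
    have h11 : kappa (m + 2) * ρ ^ (m + 2) ≤ 2 * kappa (m + 1) * ρ ^ (m + 1) := by
      have : ρ * kappa (m + 2) * ρ ^ (m + 1) ≤ 2 * kappa (m + 1) * ρ ^ (m + 1) :=
        mul_le_mul_of_nonneg_right hk2 (by positivity)
      calc kappa (m + 2) * ρ ^ (m + 2) = ρ * kappa (m + 2) * ρ ^ (m + 1) := by ring
        _ ≤ _ := this
    nlinarith

/-- **Main inequality.** -/
theorem main_ineq : ∃ d₀ : ℕ, ∀ d ≥ d₀, ∀ ρ : ℝ, 0 < ρ → ρ ≤ (2 : ℝ) ^ (0.599 : ℝ) →
    ∀ X : Finset (E d), X.Nonempty → IsPack X →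
      2 * ((X.card : ℝ) - 1) * kappa (d - 1) * ρ ^ (d - 1) + kappa d * ρ ^ d ≤ V X ρ := by
  obtain ⟨R, r, hr, hrR, hR, hKL⟩ := kl_bound
  set c0 := (2 : ℝ) ^ (0.599 : ℝ) with hc0
  have hc00 : 0 < c0 := by positivity
  have hc0152 : c0 ≤ 1.52 := pow_599_lt
  obtain ⟨s0, hs0, hs01, hs0r⟩ : ∃ s0 : ℝ, 0 < s0 ∧ s0 ≤ 1 / 10 ∧ c0 ^ 2 + s0 ^ 2 ≤ r ^ 2 := by
    refine ⟨min (1 / 10) (r - c0), lt_min (by norm_num) (by linarith), min_le_left _ _, ?_⟩
    have h1 : 0 < min (1 / 10) (r - c0) := lt_min (by norm_num) (by linarith)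
    have h2 : min (1 / 10) (r - c0) ≤ r - c0 := min_le_right _ _
    nlinarith
  have hq : ∀ M : ℝ, ∀ᶠ m : ℕ in atTop, M ≤ kappa m / kappa (m + 1) := fun M =>
    tendsto_kappa_ratio.eventually_ge_atTop M
  have hq' : ∀ᶠ m : ℕ in atTop, 1 ≤ kappa (m + 1) / kappa (m + 2) :=
    ((tendsto_add_atTop_iff_nat 1).2 tendsto_kappa_ratio).eventually_ge_atTop 1
  obtain ⟨M, hM1, hM2, hM3⟩ : ∃ M : ℝ, 61 ≤ M ∧ 128 * 1.52 ≤ s0 ^ 2 * (1 / 100) * M ∧
      8192 * 1.52 ^ 2 ≤ s0 * (1 / 100) * M ^ 2 := by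
    refine ⟨max 61 (max (128 * 1.52 / (s0 ^ 2 * (1 / 100))) (8192 * 1.52 ^ 2 / (s0 * (1 / 100)))),
      le_max_left _ _, ?_, ?_⟩
    · have h1 : 128 * 1.52 / (s0 ^ 2 * (1 / 100)) ≤ max 61 (max (128 * 1.52 / (s0 ^ 2 * (1 / 100))) (8192 * 1.52 ^ 2 / (s0 * (1 / 100)))) :=
        (le_max_left _ _).trans (le_max_right _ _)
      rw [div_le_iff₀ (by positivity)] at h1
      linarith
    · set M := max 61 (max (128 * 1.52 / (s0 ^ 2 * (1 / 100))) (8192 * 1.52 ^ 2 / (s0 * (1 / 100))))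
      have h1 : 8192 * 1.52 ^ 2 / (s0 * (1 / 100)) ≤ M :=
        (le_max_right _ _).trans (le_max_right _ _)
      have h61 : (61 : ℝ) ≤ M := le_max_left _ _
      rw [div_le_iff₀ (by positivity)] at h1
      have h2 : M ≤ M ^ 2 := by nlinarith
      have h3 : s0 * (1 / 100) * M ≤ s0 * (1 / 100) * M ^ 2 :=
        mul_le_mul_of_nonneg_left h2 (by positivity)
      linarith
  have hKL' : ∀ᶠ m : ℕ in atTop, ∀ (c : E (m + 2)) (Y : Finset (E (m + 2))), IsPack Y →
      (∀ y ∈ Y, dist y c ≤ R) → (Y.card : ℝ) ≤ (R / r) ^ (m + 2) :=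
    (tendsto_add_atTop_nat 2).eventually hKL
  obtain ⟨m0, hm0⟩ := eventually_atTop.1 ((hq M).and (hq'.and hKL'))
  refine ⟨m0 + 2, fun d hd ρ hρ hρc X hXne hX => ?_⟩
  obtain ⟨m, rfl⟩ : ∃ m, d = m + 2 := ⟨d - 2, by omega⟩
  obtain ⟨hqM, hq1, hKLm⟩ := hm0 m (by omega)
  have hρ152 : ρ ≤ 1.52 := hρc.trans hc0152
  have hk1 := kappa_pos (m + 1)
  have hk2 := kappa_pos (m + 2)
  have hkle : kappa (m + 2) ≤ kappa (m + 1) := by
    rwa [one_le_div hk2] at hq1
  have h1 := main_fixed (m := m) (R := R) (r := r) (s0 := s0) (δ := 1 / 100) (ρ := ρ) hρ hs0 hs01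
    rfl (by nlinarith) hrR (by linarith) hR hρ152 hKLm
    (by nlinarith) (by linarith) (by nlinarith)
    (by
      have h2 : s0 ^ 2 * (1 / 100) * M ≤ s0 ^ 2 * (1 / 100) * (kappa m / kappa (m + 1)) :=
        mul_le_mul_of_nonneg_left hqM (by positivity)
      nlinarith)
    (by
      have h2 : M ^ 2 ≤ (kappa m / kappa (m + 1)) ^ 2 := pow_le_pow_left₀ (by linarith) hqM 2
      have h3 : s0 * (1 / 100) * M ^ 2 ≤ s0 * (1 / 100) * (kappa m / kappa (m + 1)) ^ 2 :=
        mul_le_mul_of_nonneg_left h2 (by positivity)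
      nlinarith)
    X hXne hX
  simpa using h1

end Pool.Agent.Saus
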