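import Pool.Agent.Lib.Saus.Defs

/-!
# MP_dcaa2d_co: coordinates

`cm b : E (m+1) → ℝ × E m` (first coordinate with respect to the orthonormal basis `b`, and the
others) preserves the volume; it is linear and bijective and
`‖x‖^2 = (cm b x).1^2 + ‖(cm b x).2‖^2`.
-/

set_option autoImplicit false

open MeasureTheory Metric Set Filter Topology
open scoped Pointwise RealInnerProductSpace ENNReal

namespace Pool.Agent.Saus

variable {m : ℕ} (b : OrthonormalBasis (Fin (m + 1)) ℝ (E (m + 1)))

/-- First coordinate and the other coordinates. -/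
noncomputable def cm (x : E (m + 1)) : ℝ × E m :=
  (b.repr x 0, WithLp.toLp 2 (fun i : Fin m => b.repr x i.succ))

/-- The inverse of `cm`. -/
noncomputable def cminv (p : ℝ × E m) : E (m + 1) :=
  b.repr.symm (WithLp.toLp 2 (Fin.cons p.1 (fun i : Fin m => p.2 i) : Fin (m + 1) → ℝ))

theorem cm_fst (x : E (m + 1)) : (cm b x).1 = ⟪b 0, x⟫ := by
  simp [cm, b.repr_apply_apply]

theorem cm_snd_apply (x : E (m + 1)) (i : Fin m) : (cm b x).2 i = ⟪b i.succ, x⟫ := by
  simp [cm, b.repr_apply_apply]

theorem cm_add (x y : E (m + 1)) : cm b (x + y) = cm b x + cm b y := by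
  ext
  · simp [cm]
  · simp [cm]

theorem cm_sub (x y : E (m + 1)) : cm b (x - y) = cm b x - cm b y := by
  ext
  · simp [cm]
  · simp [cm]

theorem cm_smul (r : ℝ) (x : E (m + 1)) : cm b (r • x) = r • cm b x := by
  ext
  · simp [cm]
  · simp [cm]

theorem cm_cminv (p : ℝ × E m) : cm b (cminv b p) = p := by
  ext
  · simp [cm, cminv]
  · simp [cm, cminv]

theorem cminv_cm (x : E (m + 1)) : cminv b (cm b x) = x := by
  apply b.repr.injective
  ext i
  refine Fin.cases ?_ (fun j => ?_) i
  · simp [cm, cminv]
  · simp [cm, cminv]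

theorem continuous_cm : Continuous (cm b) := by
  unfold cm
  fun_prop

theorem norm_sq_cm (x : E (m + 1)) : ‖x‖ ^ 2 = (cm b x).1 ^ 2 + ‖(cm b x).2‖ ^ 2 := by
  have h : ‖x‖ ^ 2 = ‖b.repr x‖ ^ 2 := by rw [b.repr.norm_map]
  rw [h, EuclideanSpace.norm_sq_eq, EuclideanSpace.norm_sq_eq, Fin.sum_univ_succ]
  simp [cm]

theorem inner_cm (x y : E (m + 1)) :
    ⟪x, y⟫ = (cm b x).1 * (cm b y).1 + ⟪(cm b x).2, (cm b y).2⟫ := by
  have h1 := norm_sq_cm b (x + y)
  have h2 := norm_sq_cm b x
  have h3 := norm_sq_cm b y
  rw [cm_add] at h1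
  have h4 := norm_add_sq_real x y
  have h5 := norm_add_sq_real (cm b x).2 (cm b y).2
  simp only [Prod.fst_add, Prod.snd_add] at h1
  nlinarith

theorem mp_cm : MeasurePreserving (cm b) volume (volume.prod volume) := by
  have h1 : MeasurePreserving (fun x => b.repr x) volume volume := b.measurePreserving_repr
  have h2 := PiLp.volume_preserving_ofLp (Fin (m + 1))
  have h3 := volume_preserving_piFinSuccAbove (fun _ : Fin (m + 1) => ℝ) 0
  have h5 := PiLp.volume_preserving_toLp (Fin m)
  have h4 : MeasurePreserving (Prod.map (id : ℝ → ℝ) (WithLp.toLp 2 : (Fin m → ℝ) → E m))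
      (volume.prod volume) (volume.prod volume) := (MeasurePreserving.id _).prod h5
  exact h4.comp (h3.comp (h2.comp h1))

theorem measurableEmbedding_cm : MeasurableEmbedding (cm b) :=
  (continuous_cm b).measurableEmbedding (Function.LeftInverse.injective (cminv_cm b))

/-- Volume of a set in the coordinates `cm b`. -/
theorem volume_preimage_cm (S : Set (ℝ × E m)) :
    volume (cm b ⁻¹' S) = (volume.prod volume : Measure (ℝ × E m)) S :=
  (mp_cm b).measure_preimage_emb (measurableEmbedding_cm b) S

/-- Every unit vector is the first vector of an orthonormal basis. -/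
theorem exists_onb_fst (u : E (m + 1)) (hu : ‖u‖ = 1) :
    ∃ b : OrthonormalBasis (Fin (m + 1)) ℝ (E (m + 1)), b 0 = u := by
  have h : Orthonormal ℝ (({0} : Set (Fin (m + 1))).domRestrict (fun _ => u)) := by
    constructor
    · intro i; exact hu
    · intro i j hij
      exact absurd (Subsingleton.elim i j) hij
  obtain ⟨b, hb⟩ := h.exists_orthonormalBasis_extension_of_card_eq (by simp)
  exact ⟨b, hb 0 rfl⟩

/-- Two orthogonal unit vectors are the first two vectors of an orthonormal basis. -/
theorem exists_onb_two (u v : E (m + 2)) (hu : ‖u‖ = 1) (hv : ‖v‖ = 1) (huv : ⟪u, v⟫ = 0) :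
    ∃ b : OrthonormalBasis (Fin (m + 2)) ℝ (E (m + 2)), b 0 = u ∧ b 1 = v := by
  have h : Orthonormal ℝ (({0, 1} : Set (Fin (m + 2))).domRestrict
      (fun i => if i = 0 then u else v)) := by
    constructor
    · rintro ⟨i, hi⟩
      show ‖(if i = 0 then u else v)‖ = 1
      split_ifs
      · exact hu
      · exact hv
    · rintro ⟨i, hi⟩ ⟨j, hj⟩ hij
      show ⟪(if i = 0 then u else v), (if j = 0 then u else v)⟫ = 0
      have hij' : i ≠ j := fun h => hij (Subtype.ext h)
      rcases hi with rfl | hi
      · have hj1 : j = 1 := by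
          rcases hj with rfl | hj
          · exact absurd rfl hij'
          · exact hj
        subst hj1
        simpa using huv
      · have hi1 : i = 1 := hi
        subst hi1
        have hj0 : j = 0 := by
          rcases hj with rfl | hj
          · rfl
          · exact absurd hj.symm hij'
        subst hj0
        simpa [real_inner_comm] using huv
  obtain ⟨b, hb⟩ := h.exists_orthonormalBasis_extension_of_card_eq (by simp)
  refine ⟨b, ?_, ?_⟩
  · simpa using hb 0 (by simp)
  · simpa using hb 1 (by simp)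

end Pool.Agent.Saus
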