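import Pool.Agent.Lib.Saus.Defs

/-!
# MP_dcaa2d_co, row B1: geometry of one bad point

A point `x` of the packing is bad if all triangles `x, a, b` in the convex hull within `s0` of `x`
have area below `τ`, `4 τ ≤ s0 ^ 2`.
-/

set_option autoImplicit false

open MeasureTheory Metric Set Filter Topology
open scoped Pointwise RealInnerProductSpace

namespace Pool.Agent.Saus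

theorem area_sq_lt {d : ℕ} {x a b : E d} {τ : ℝ} (hτ : 0 < τ) (h : area x a b < τ) :
    ‖a - x‖ ^ 2 * ‖b - x‖ ^ 2 - ⟪a - x, b - x⟫ ^ 2 < 4 * τ ^ 2 := by
  unfold area at h
  have h1 : Real.sqrt (‖a - x‖ ^ 2 * ‖b - x‖ ^ 2 - ⟪a - x, b - x⟫ ^ 2) < 2 * τ := by linarith
  rw [Real.sqrt_lt' (by linarith)] at h1
  nlinarith

/-- points on the segment from `x` to `x + v` -/
theorem step_mem {d : ℕ} {K : Set (E d)} (hK : Convex ℝ K) {x : E d} (hx : x ∈ K) {v : E d}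
    (hv : x + v ∈ K) {t : ℝ} (h0 : 0 ≤ t) (h1 : t ≤ 1) : x + t • v ∈ K := by
  have h := hK.add_smul_sub_mem hx hv ⟨h0, h1⟩
  simpa using h

/-- the area test along two directions -/
theorem bad_inner {d : ℕ} {K : Set (E d)} (hK : Convex ℝ K) {x : E d} (hx : x ∈ K) {v w : E d}
    {s0 s1 τ : ℝ} (hs0 : 0 < s0) (hs1 : 0 < s1) (hs10 : s1 ≤ s0) (hτ : 0 < τ)
    (hσ : 4 * τ ≤ s1 * s0)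
    (hv : x + v ∈ K) (hw : x + w ∈ K) (hv1 : s1 ≤ ‖v‖) (hw1 : s0 ≤ ‖w‖)
    (hbad : ∀ a ∈ K, ∀ b ∈ K, dist a x ≤ s0 → dist b x ≤ s0 → area x a b < τ) :
    3 * (‖v‖ ^ 2 * ‖w‖ ^ 2) < 4 * ⟪v, w⟫ ^ 2 := by
  have hvp : 0 < ‖v‖ := lt_of_lt_of_le hs1 hv1
  have hwp : 0 < ‖w‖ := lt_of_lt_of_le hs0 hw1
  have h1 : ‖(s1 / ‖v‖) • v‖ = s1 := by
    rw [norm_smul, Real.norm_eq_abs, abs_of_pos (by positivity)]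
    field_simp
  have h2 : ‖(s0 / ‖w‖) • w‖ = s0 := by
    rw [norm_smul, Real.norm_eq_abs, abs_of_pos (by positivity)]
    field_simp
  have ha : x + (s1 / ‖v‖) • v ∈ K := step_mem hK hx hv (by positivity) ((div_le_one hvp).2 hv1)
  have hb : x + (s0 / ‖w‖) • w ∈ K := step_mem hK hx hw (by positivity) ((div_le_one hwp).2 hw1)
  have h3 := area_sq_lt hτ (hbad _ ha _ hb (by simp [h1, hs10]) (by simp [h2]))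
  rw [add_sub_cancel_left, add_sub_cancel_left, h1, h2, real_inner_smul_left,
    real_inner_smul_right] at h3
  have h4 : (s1 / ‖v‖ * (s0 / ‖w‖ * ⟪v, w⟫)) ^ 2 * (‖v‖ ^ 2 * ‖w‖ ^ 2)
      = s1 ^ 2 * s0 ^ 2 * ⟪v, w⟫ ^ 2 := by
    field_simp
  have h5 : 16 * τ ^ 2 ≤ s1 ^ 2 * s0 ^ 2 := by
    have : (4 * τ) ^ 2 ≤ (s1 * s0) ^ 2 := pow_le_pow_left₀ (by positivity) hσ 2
    nlinarith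
  have h6 : 0 < ‖v‖ ^ 2 * ‖w‖ ^ 2 := by positivity
  have h7 : 0 < s1 ^ 2 * s0 ^ 2 := by positivity
  have h8 : 3 * (s1 ^ 2 * s0 ^ 2) < 4 * (s1 / ‖v‖ * (s0 / ‖w‖ * ⟪v, w⟫)) ^ 2 := by linarith
  have h9 : 3 * (s1 ^ 2 * s0 ^ 2) * (‖v‖ ^ 2 * ‖w‖ ^ 2)
      < 4 * (s1 / ‖v‖ * (s0 / ‖w‖ * ⟪v, w⟫)) ^ 2 * (‖v‖ ^ 2 * ‖w‖ ^ 2) :=
    mul_lt_mul_of_pos_right h8 h6
  have h10 : 4 * (s1 / ‖v‖ * (s0 / ‖w‖ * ⟪v, w⟫)) ^ 2 * (‖v‖ ^ 2 * ‖w‖ ^ 2)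
      = (s1 ^ 2 * s0 ^ 2) * (4 * ⟪v, w⟫ ^ 2) := by
    rw [mul_assoc, h4]
    ring
  rw [h10] at h9
  have h11 : (s1 ^ 2 * s0 ^ 2) * (3 * (‖v‖ ^ 2 * ‖w‖ ^ 2)) < (s1 ^ 2 * s0 ^ 2) * (4 * ⟪v, w⟫ ^ 2) := by
    calc (s1 ^ 2 * s0 ^ 2) * (3 * (‖v‖ ^ 2 * ‖w‖ ^ 2))
        = 3 * (s1 ^ 2 * s0 ^ 2) * (‖v‖ ^ 2 * ‖w‖ ^ 2) := by ring
      _ < _ := h9
  exact lt_of_mul_lt_mul_left h11 h7.le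

/-- `P = x1 - x`, `Q = x2 - x`: the direction of `Q` is close to the one of `Q - P`. -/
theorem dir_close {d : ℕ} {P Q : E d} (hP : ‖P‖ ≤ ‖Q - P‖) (hQ : ‖Q‖ ≤ ‖Q - P‖)
    (hP0 : 0 < ‖P‖) (hQ0 : 0 < ‖Q‖) (h : 3 * (‖P‖ ^ 2 * ‖Q‖ ^ 2) < 4 * ⟪P, Q⟫ ^ 2) :
    3 * (‖Q‖ ^ 2 * ‖Q - P‖ ^ 2) ≤ 4 * ⟪Q, Q - P⟫ ^ 2 := by
  have hL : ‖Q - P‖ ^ 2 = ‖P‖ ^ 2 + ‖Q‖ ^ 2 - 2 * ⟪P, Q⟫ := by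
    rw [norm_sub_sq_real, real_inner_comm]
    ring
  have hin : ⟪Q, Q - P⟫ = ‖Q‖ ^ 2 - ⟪P, Q⟫ := by
    rw [inner_sub_right, real_inner_self_eq_norm_sq, real_inner_comm]
  have hP2 : ‖P‖ ^ 2 ≤ ‖Q - P‖ ^ 2 := pow_le_pow_left₀ (norm_nonneg _) hP 2
  have hQ2 : ‖Q‖ ^ 2 ≤ ‖Q - P‖ ^ 2 := pow_le_pow_left₀ (norm_nonneg _) hQ 2
  rw [hin]
  have e1 : (‖Q‖ ^ 2 - ⟪P, Q⟫) ^ 2 = ‖Q‖ ^ 2 * ‖Q - P‖ ^ 2 - (‖P‖ ^ 2 * ‖Q‖ ^ 2 - ⟪P, Q⟫ ^ 2) := by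
    rw [hL]
    ring
  rw [e1]
  have e2 : ‖P‖ ^ 2 * ‖Q‖ ^ 2 ≤ ‖Q‖ ^ 2 * ‖Q - P‖ ^ 2 := by
    rw [mul_comm]
    exact mul_le_mul_of_nonneg_left hP2 (by positivity)
  nlinarith

/-- two directions close to `Q` are close to each other -/
theorem dir_three {d : ℕ} {v Q U : E d} (hQ0 : 0 < ‖Q‖)
    (h1 : 3 * (‖v‖ ^ 2 * ‖Q‖ ^ 2) ≤ 4 * ⟪v, Q⟫ ^ 2)
    (h2 : 3 * (‖Q‖ ^ 2 * ‖U‖ ^ 2) ≤ 4 * ⟪Q, U⟫ ^ 2) : ‖v‖ * ‖U‖ ≤ 2 * |⟪v, U⟫| := by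
  set q := ‖Q‖ with hq
  have hqq : ⟪Q, Q⟫ = q ^ 2 := real_inner_self_eq_norm_sq Q
  have n1 : ‖(q ^ 2) • v - ⟪v, Q⟫ • Q‖ ^ 2 = q ^ 2 * (q ^ 2 * ‖v‖ ^ 2 - ⟪v, Q⟫ ^ 2) := by
    rw [norm_sub_sq_real, norm_smul, norm_smul, real_inner_smul_left, real_inner_smul_right,
      Real.norm_eq_abs, Real.norm_eq_abs, mul_pow, mul_pow, sq_abs, sq_abs, ← hq]
    ring
  have n2 : ‖(q ^ 2) • U - ⟪Q, U⟫ • Q‖ ^ 2 = q ^ 2 * (q ^ 2 * ‖U‖ ^ 2 - ⟪Q, U⟫ ^ 2) := by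
    rw [norm_sub_sq_real, norm_smul, norm_smul, real_inner_smul_left, real_inner_smul_right,
      Real.norm_eq_abs, Real.norm_eq_abs, mul_pow, mul_pow, sq_abs, sq_abs, ← hq,
      real_inner_comm Q U]
    ring
  have n3 : ⟪(q ^ 2) • v - ⟪v, Q⟫ • Q, (q ^ 2) • U - ⟪Q, U⟫ • Q⟫
      = q ^ 2 * (q ^ 2 * ⟪v, U⟫ - ⟪v, Q⟫ * ⟪Q, U⟫) := by
    simp only [inner_sub_left, inner_sub_right, real_inner_smul_left, real_inner_smul_right, hqq]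
    ring
  have b1 : ‖(q ^ 2) • v - ⟪v, Q⟫ • Q‖ ≤ q ^ 2 * ‖v‖ / 2 := by
    refine le_of_sq_le_sq ?_ (by positivity)
    rw [n1]
    nlinarith [sq_nonneg q]
  have b2 : ‖(q ^ 2) • U - ⟪Q, U⟫ • Q‖ ≤ q ^ 2 * ‖U‖ / 2 := by
    refine le_of_sq_le_sq ?_ (by positivity)
    rw [n2]
    nlinarith [sq_nonneg q]
  have b3 := abs_real_inner_le_norm ((q ^ 2) • v - ⟪v, Q⟫ • Q) ((q ^ 2) • U - ⟪Q, U⟫ • Q)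
  rw [n3] at b3
  have b4 : |q ^ 2 * (q ^ 2 * ⟪v, U⟫ - ⟪v, Q⟫ * ⟪Q, U⟫)| ≤ (q ^ 2 * ‖v‖ / 2) * (q ^ 2 * ‖U‖ / 2) :=
    b3.trans (mul_le_mul b1 b2 (norm_nonneg _) (by positivity))
  have hq2 : 0 < q ^ 2 := by positivity
  rw [abs_mul, abs_of_pos hq2] at b4
  have b5 : |q ^ 2 * ⟪v, U⟫ - ⟪v, Q⟫ * ⟪Q, U⟫| ≤ q ^ 2 * (‖v‖ * ‖U‖) / 4 := by
    have : q ^ 2 * |q ^ 2 * ⟪v, U⟫ - ⟪v, Q⟫ * ⟪Q, U⟫| ≤ q ^ 2 * (q ^ 2 * (‖v‖ * ‖U‖) / 4) := by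
      calc q ^ 2 * |q ^ 2 * ⟪v, U⟫ - ⟪v, Q⟫ * ⟪Q, U⟫|
          ≤ (q ^ 2 * ‖v‖ / 2) * (q ^ 2 * ‖U‖ / 2) := b4
        _ = q ^ 2 * (q ^ 2 * (‖v‖ * ‖U‖) / 4) := by ring
    exact le_of_mul_le_mul_left this hq2
  have b6 : 3 * (q ^ 2 * (‖v‖ * ‖U‖)) / 4 ≤ |⟪v, Q⟫ * ⟪Q, U⟫| := by
    refine le_of_sq_le_sq ?_ (abs_nonneg _)
    rw [sq_abs, mul_pow]
    have := mul_le_mul h1 h2 (by positivity) (by positivity)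
    nlinarith
  have b7 : |⟪v, Q⟫ * ⟪Q, U⟫| ≤ q ^ 2 * |⟪v, U⟫| + q ^ 2 * (‖v‖ * ‖U‖) / 4 := by
    have e : ⟪v, Q⟫ * ⟪Q, U⟫ = q ^ 2 * ⟪v, U⟫ - (q ^ 2 * ⟪v, U⟫ - ⟪v, Q⟫ * ⟪Q, U⟫) := by ring
    calc |⟪v, Q⟫ * ⟪Q, U⟫| = |q ^ 2 * ⟪v, U⟫ - (q ^ 2 * ⟪v, U⟫ - ⟪v, Q⟫ * ⟪Q, U⟫)| := by rw [← e]
      _ ≤ |q ^ 2 * ⟪v, U⟫| + |q ^ 2 * ⟪v, U⟫ - ⟪v, Q⟫ * ⟪Q, U⟫| := abs_sub _ _
      _ ≤ q ^ 2 * |⟪v, U⟫| + q ^ 2 * (‖v‖ * ‖U‖) / 4 := by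
          rw [abs_mul, abs_of_pos hq2]
          linarith
  have b8 : q ^ 2 * (‖v‖ * ‖U‖) ≤ q ^ 2 * (2 * |⟪v, U⟫|) := by linarith
  exact le_of_mul_le_mul_left b8 hq2

/-- a vector orthogonal to `U` is far from the direction of `Q` -/
theorem dir_orth {d : ℕ} {r Q U : E d} (hU0 : 0 < ‖U‖) (hr : ⟪r, U⟫ = 0)
    (h2 : 3 * (‖Q‖ ^ 2 * ‖U‖ ^ 2) ≤ 4 * ⟪Q, U⟫ ^ 2) : 4 * ⟪r, Q⟫ ^ 2 ≤ ‖r‖ ^ 2 * ‖Q‖ ^ 2 := by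
  set q := ‖U‖ with hq
  have hqq : ⟪U, U⟫ = q ^ 2 := real_inner_self_eq_norm_sq U
  have n2 : ‖(q ^ 2) • Q - ⟪Q, U⟫ • U‖ ^ 2 = q ^ 2 * (q ^ 2 * ‖Q‖ ^ 2 - ⟪Q, U⟫ ^ 2) := by
    rw [norm_sub_sq_real, norm_smul, norm_smul, real_inner_smul_left, real_inner_smul_right,
      Real.norm_eq_abs, Real.norm_eq_abs, mul_pow, mul_pow, sq_abs, sq_abs, ← hq]
    ring
  have n3 : ⟪r, (q ^ 2) • Q - ⟪Q, U⟫ • U⟫ = q ^ 2 * ⟪r, Q⟫ := by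
    rw [inner_sub_right, real_inner_smul_right, real_inner_smul_right, hr]
    ring
  have b3 := abs_real_inner_le_norm r ((q ^ 2) • Q - ⟪Q, U⟫ • U)
  rw [n3] at b3
  have b4 : (q ^ 2 * ⟪r, Q⟫) ^ 2 ≤ (‖r‖ * ‖(q ^ 2) • Q - ⟪Q, U⟫ • U‖) ^ 2 := by
    rw [← sq_abs (q ^ 2 * ⟪r, Q⟫)]
    exact pow_le_pow_left₀ (abs_nonneg _) b3 2
  rw [mul_pow, mul_pow, n2] at b4
  have hq4 : 0 < (q ^ 2) ^ 2 := by positivity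
  have b5 : (q ^ 2) ^ 2 * (4 * ⟪r, Q⟫ ^ 2) ≤ (q ^ 2) ^ 2 * (‖r‖ ^ 2 * ‖Q‖ ^ 2) := by
    have e : 4 * (q ^ 2 * (q ^ 2 * ‖Q‖ ^ 2 - ⟪Q, U⟫ ^ 2)) ≤ (q ^ 2) ^ 2 * ‖Q‖ ^ 2 := by
      nlinarith [sq_nonneg q]
    calc (q ^ 2) ^ 2 * (4 * ⟪r, Q⟫ ^ 2) = 4 * ((q ^ 2) ^ 2 * ⟪r, Q⟫ ^ 2) := by ring
      _ ≤ 4 * (‖r‖ ^ 2 * (q ^ 2 * (q ^ 2 * ‖Q‖ ^ 2 - ⟪Q, U⟫ ^ 2))) := by linarith
      _ = ‖r‖ ^ 2 * (4 * (q ^ 2 * (q ^ 2 * ‖Q‖ ^ 2 - ⟪Q, U⟫ ^ 2))) := by ring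
      _ ≤ ‖r‖ ^ 2 * ((q ^ 2) ^ 2 * ‖Q‖ ^ 2) := mul_le_mul_of_nonneg_left e (by positivity)
      _ = (q ^ 2) ^ 2 * (‖r‖ ^ 2 * ‖Q‖ ^ 2) := by ring
  exact le_of_mul_le_mul_left b5 hq4

/-- (ii) the slice of `K` orthogonal to `U` through a bad point is small -/
theorem bad_width {d : ℕ} {K : Set (E d)} (hK : Convex ℝ K) {x : E d} (hx : x ∈ K) {r Q U : E d}
    {s0 τ : ℝ} (hs0 : 0 < s0) (hτ : 0 < τ) (hσ : 4 * τ ≤ s0 ^ 2)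
    (hU0 : 0 < ‖U‖) (hr : ⟪r, U⟫ = 0) (hrK : x + r ∈ K) (hQK : x + Q ∈ K) (hQ1 : s0 ≤ ‖Q‖)
    (h2 : 3 * (‖Q‖ ^ 2 * ‖U‖ ^ 2) ≤ 4 * ⟪Q, U⟫ ^ 2)
    (hbad : ∀ a ∈ K, ∀ b ∈ K, dist a x ≤ s0 → dist b x ≤ s0 → area x a b < τ) :
    ‖r‖ < 4 * τ / s0 := by
  by_contra hcon
  push Not at hcon
  have h1 : (0 : ℝ) < 4 * τ / s0 := by positivity
  have hle : 4 * τ / s0 ≤ s0 := by
    rw [div_le_iff₀ hs0]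
    nlinarith
  have h3 := bad_inner hK hx (v := r) (w := Q) hs0 h1 hle hτ
    (by rw [div_mul_cancel₀ _ hs0.ne']) hrK hQK hcon hQ1 hbad
  have h4 := dir_orth hU0 hr h2
  have h5 : 0 ≤ ‖r‖ ^ 2 * ‖Q‖ ^ 2 := by positivity
  linarith

end Pool.Agent.Saus
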