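import Pool.Agent.Lib.Saus.Fischer

/-!
# MP_dcaa2d_co: the zonal polynomials and their features

`Z k y` is the harmonic polynomial that reproduces in the Fischer form: `fis k (Z k y) q = q(y)`
for `q` harmonic and homogeneous of degree `k`.  On the unit sphere `Z k y (x) = zon D k ⟨x, y⟩`,
so the kernel `zon D k` has `(D + k - 1).choose k` features.
-/

set_option autoImplicit false

open MvPolynomial
open scoped RealInnerProductSpace

namespace Pool.Agent.Saus

/-- `|y|²`. -/
noncomputable def nsq {D : ℕ} (y : Fin D → ℝ) : ℝ := ∑ i, y i * y i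

/-- The solid zonal harmonics. -/
noncomputable def Zon (D : ℕ) (y : Fin D → ℝ) : ℕ → MvPolynomial (Fin D) ℝ
  | 0 => 1
  | 1 => ly y
  | (k + 2) => C (1 / ((k : ℝ) + 2)) *
      (ly y * Zon D y (k + 1) - C (zc D (k + 1) * nsq y) * (r2 D * Zon D y k))

theorem Zon_homog (D : ℕ) (y : Fin D → ℝ) : ∀ k, (Zon D y k).IsHomogeneous k
  | 0 => by
      unfold Zon
      exact isHomogeneous_one _ _
  | 1 => by
      unfold Zon
      exact ly_homog y
  | (k + 2) => by
      unfold Zon
      have h1 : (ly y * Zon D y (k + 1)).IsHomogeneous (k + 2) := by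
        have h := (ly_homog y).mul (Zon_homog D y (k + 1))
        rwa [show 1 + (k + 1) = k + 2 by ring] at h
      have h2 : (C (zc D (k + 1) * nsq y) * (r2 D * Zon D y k)).IsHomogeneous (k + 2) := by
        have h := (isHomogeneous_C (Fin D) (zc D (k + 1) * nsq y)).mul
          ((r2_homog D).mul (Zon_homog D y k))
        rwa [show 0 + (2 + k) = k + 2 by ring] at h
      have h := (isHomogeneous_C (Fin D) (1 / ((k : ℝ) + 2))).mul (h1.sub h2)
      rwa [zero_add] at h

/-- The factor of the derivative of the zonal harmonics. -/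
noncomputable def ze (D k : ℕ) : ℝ := ((D : ℝ) + k - 3) / ((D : ℝ) + 2 * k - 4)

theorem dy_Zon (D : ℕ) (hD : 3 ≤ D) (y : Fin D → ℝ) :
    ∀ k, dy y (Zon D y (k + 1)) = C (ze D (k + 1) * nsq y) * Zon D y k
  | 0 => by
      have hD' : (3 : ℝ) ≤ D := by exact_mod_cast hD
      have h1 : ze D (0 + 1) = 1 := by
        unfold ze
        push_cast
        rw [div_eq_one_iff_eq (by linarith)]
        ring
      rw [h1, one_mul]
      unfold Zon
      rw [dy_ly, mul_one]
      rfl
  | 1 => by
      have hD' : (3 : ℝ) ≤ D := by exact_mod_cast hD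
      have e1 : (1 / (((0 : ℕ) : ℝ) + 2)) * (nsq y + nsq y - 2 * (zc D (0 + 1) * nsq y))
          = ze D (1 + 1) * nsq y := by
        have a1 : (D : ℝ) ≠ 0 := by linarith
        have a2 : (D : ℝ) - 2 ≠ 0 := by
          intro h; linarith
        have n1 : zc D (0 + 1) = 1 / (D : ℝ) := by
          unfold zc
          push_cast
          rw [show (D : ℝ) + 1 - 3 = D - 2 by ring,
            show (D : ℝ) + 2 * 1 - 2 = D by ring,
            show (D : ℝ) + 2 * 1 - 4 = D - 2 by ring]
          field_simp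
        have n2 : ze D (1 + 1) = ((D : ℝ) - 1) / D := by
          unfold ze
          push_cast
          rw [show (D : ℝ) + 2 - 3 = D - 1 by ring,
            show (D : ℝ) + 2 * 2 - 4 = D by ring]
        rw [n1, n2]
        push_cast
        field_simp
        ring
      have h2 : Zon D y (1 + 1) = C (1 / (((0 : ℕ) : ℝ) + 2)) *
          (ly y * ly y - C (zc D (0 + 1) * nsq y) * (r2 D * 1)) := by
        rfl
      have h3 : Zon D y 1 = ly y := rfl
      have hn : (C (∑ i, y i * y i) : MvPolynomial (Fin D) ℝ) = C (nsq y) := rfl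
      rw [h2, h3, ← e1, dy_C_mul, dy_sub, dy_mul, dy_C_mul, dy_mul, dy_one, dy_ly, dy_r2, hn]
      simp only [C_mul, C_sub, C_add]
      ring
  | (k + 2) => by
      have hD' : (3 : ℝ) ≤ D := by exact_mod_cast hD
      have hk : (0 : ℝ) ≤ k := Nat.cast_nonneg k
      have ih1 := dy_Zon D hD y (k + 1)
      have ih2 := dy_Zon D hD y k
      have e1 : Zon D y (k + 2 + 1) = C (1 / (((k + 1 : ℕ) : ℝ) + 2)) *
          (ly y * Zon D y (k + 2) - C (zc D (k + 2) * nsq y) * (r2 D * Zon D y (k + 1))) := rfl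
      have e2 : Zon D y (k + 2) = C (1 / ((k : ℝ) + 2)) *
          (ly y * Zon D y (k + 1) - C (zc D (k + 1) * nsq y) * (r2 D * Zon D y k)) := rfl
      have e3 : C ((k : ℝ) + 2) * Zon D y (k + 2) =
          ly y * Zon D y (k + 1) - C (zc D (k + 1) * nsq y) * (r2 D * Zon D y k) := by
        rw [e2, ← mul_assoc, ← C_mul, mul_one_div_cancel (by positivity), C_1, one_mul]
      -- numerical identities
      have a1 : (D : ℝ) + 2 * k + 2 ≠ 0 := by positivity
      have a2 : (D : ℝ) + 2 * k ≠ 0 := by linarith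
      have a3 : (D : ℝ) + 2 * k - 2 ≠ 0 := by
        intro h; linarith
      have n1 : zc D (k + 2) = ((D : ℝ) + k - 1) / (((D : ℝ) + 2 * k + 2) * ((D : ℝ) + 2 * k)) := by
        unfold zc
        push_cast
        rw [show (D : ℝ) + (k + 2) - 3 = D + k - 1 by ring,
          show (D : ℝ) + 2 * (k + 2) - 2 = D + 2 * k + 2 by ring,
          show (D : ℝ) + 2 * (k + 2) - 4 = D + 2 * k by ring]
      have n2 : zc D (k + 1) = ((D : ℝ) + k - 2) / (((D : ℝ) + 2 * k) * ((D : ℝ) + 2 * k - 2)) := by
        unfold zc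
        push_cast
        rw [show (D : ℝ) + (k + 1) - 3 = D + k - 2 by ring,
          show (D : ℝ) + 2 * (k + 1) - 2 = D + 2 * k by ring,
          show (D : ℝ) + 2 * (k + 1) - 4 = D + 2 * k - 2 by ring]
      have n3 : ze D (k + 2) = ((D : ℝ) + k - 1) / ((D : ℝ) + 2 * k) := by
        unfold ze
        push_cast
        rw [show (D : ℝ) + (k + 2) - 3 = D + k - 1 by ring,
          show (D : ℝ) + 2 * (k + 2) - 4 = D + 2 * k by ring]
      have n4 : ze D (k + 1) = ((D : ℝ) + k - 2) / ((D : ℝ) + 2 * k - 2) := by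
        unfold ze
        push_cast
        rw [show (D : ℝ) + (k + 1) - 3 = D + k - 2 by ring,
          show (D : ℝ) + 2 * (k + 1) - 4 = D + 2 * k - 2 by ring]
      have n5 : ze D (k + 2 + 1) = ((D : ℝ) + k) / ((D : ℝ) + 2 * k + 2) := by
        unfold ze
        push_cast
        rw [show (D : ℝ) + (k + 2 + 1) - 3 = D + k by ring,
          show (D : ℝ) + 2 * (k + 2 + 1) - 4 = D + 2 * k + 2 by ring]
      have m1 : zc D (k + 2) * ze D (k + 1) = (ze D (k + 2) - 2 * zc D (k + 2)) * zc D (k + 1) := by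
        rw [n1, n2, n3, n4]
        field_simp
        ring
      have m2 : (1 / (((k + 1 : ℕ) : ℝ) + 2)) *
          (1 + (ze D (k + 2) - 2 * zc D (k + 2)) * ((k : ℝ) + 2)) = ze D (k + 2 + 1) := by
        rw [n1, n3, n5]
        push_cast
        have a4 : (k : ℝ) + 1 + 2 ≠ 0 := by positivity
        field_simp
        ring
      have key : dy y (ly y * Zon D y (k + 2) - C (zc D (k + 2) * nsq y) *
          (r2 D * Zon D y (k + 1)))
          = C (nsq y) * (Zon D y (k + 2) + C (ze D (k + 2) - 2 * zc D (k + 2)) *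
            (C ((k : ℝ) + 2) * Zon D y (k + 2))) := by
        rw [dy_sub, dy_mul, dy_C_mul, dy_mul, dy_ly, dy_r2, ih1, ih2, e3]
        have hm : C (zc D (k + 2)) * C (ze D (k + 1)) = (C (ze D (k + 2) - 2 * zc D (k + 2))) *
          (C (zc D (k + 1)) : MvPolynomial (Fin D) ℝ) := by
          rw [← C_mul, ← C_mul, m1]
        have hn : (C (∑ i, y i * y i) : MvPolynomial (Fin D) ℝ) = C (nsq y) := rfl
        have e4 : ze D (k + 1 + 1) = ze D (k + 2) := rfl
        have e5 : Zon D y (k + 1 + 1) = Zon D y (k + 2) := rfl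
        rw [hn, e4]
        simp only [C_mul, C_sub] at hm ⊢
        linear_combination (-(C (nsq y) * C (nsq y) * r2 D * Zon D y k)) * hm
      rw [e1, dy_C_mul, key, ← m2]
      simp only [C_mul, C_add, C_sub, C_1]
      ring

theorem lap_Zon (D : ℕ) (hD : 3 ≤ D) (y : Fin D → ℝ) : ∀ k, lap (Zon D y k) = 0
  | 0 => by
      unfold Zon
      exact lap_one
  | 1 => by
      have h := lap_ly_mul y (1 : MvPolynomial (Fin D) ℝ)
      rw [mul_one, dy_one, lap_one, mul_zero, mul_zero, add_zero] at h
      exact h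
  | (k + 2) => by
      have hD' : (3 : ℝ) ≤ D := by exact_mod_cast hD
      have hk : (0 : ℝ) ≤ k := Nat.cast_nonneg k
      have ih1 := lap_Zon D hD y (k + 1)
      have ih2 := lap_Zon D hD y k
      have e2 : Zon D y (k + 2) = C (1 / ((k : ℝ) + 2)) *
          (ly y * Zon D y (k + 1) - C (zc D (k + 1) * nsq y) * (r2 D * Zon D y k)) := rfl
      have a2 : (D : ℝ) + 2 * k ≠ 0 := by linarith
      have a3 : (D : ℝ) + 2 * k - 2 ≠ 0 := by
        intro h; linarith
      have n2 : zc D (k + 1) = ((D : ℝ) + k - 2) / (((D : ℝ) + 2 * k) * ((D : ℝ) + 2 * k - 2)) := by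
        unfold zc
        push_cast
        rw [show (D : ℝ) + (k + 1) - 3 = D + k - 2 by ring,
          show (D : ℝ) + 2 * (k + 1) - 2 = D + 2 * k by ring,
          show (D : ℝ) + 2 * (k + 1) - 4 = D + 2 * k - 2 by ring]
      have n4 : ze D (k + 1) = ((D : ℝ) + k - 2) / ((D : ℝ) + 2 * k - 2) := by
        unfold ze
        push_cast
        rw [show (D : ℝ) + (k + 1) - 3 = D + k - 2 by ring,
          show (D : ℝ) + 2 * (k + 1) - 4 = D + 2 * k - 2 by ring]
      have m : 2 * (ze D (k + 1) * nsq y) = zc D (k + 1) * nsq y * (2 * (D : ℝ) + 4 * k) := by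
        rw [n2, n4]
        field_simp
        ring
      rw [e2, lap_C_mul, lap_sub, lap_ly_mul, lap_C_mul, lap_r2_mul k _ (Zon_homog D y k), ih1, ih2,
        dy_Zon D hD, mul_zero, mul_zero, add_zero, add_zero, ← mul_assoc, ← mul_assoc, ← C_mul,
        ← C_mul, m, sub_self, mul_zero]

/-- The reproducing property. -/
theorem fis_Zon (D : ℕ) (hD : 3 ≤ D) (y : Fin D → ℝ) :
    ∀ k (q : MvPolynomial (Fin D) ℝ), q.IsHomogeneous k → lap q = 0 →
      fis k (Zon D y k) q = eval y q
  | 0, q, hq, _ => by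
      have h0 : q = C (coeff 0 q) := by
        have h := (totalDegree_eq_zero_iff_eq_C (p := q)).1
          (Nat.le_zero.1 hq.totalDegree_le)
        exact h
      have hc : expo D 0 = {0} := by
        ext a
        rw [mem_expo, Finset.mem_singleton, Finset.sum_eq_zero_iff]
        constructor
        · intro h
          ext i
          exact h i (Finset.mem_univ i)
        · intro h i _
          rw [h]; rfl
      unfold fis Zon
      rw [hc, Finset.sum_singleton]
      have hw : wt (0 : Fin D →₀ ℕ) = 1 := by simp [wt]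
      rw [hw, coeff_zero_one, one_mul, one_mul]
      conv_rhs => rw [h0, eval_C]
  | 1, q, hq, hl => by
      have h1 : fis 1 (ly y * 1) q = fis 0 1 (dy y q) := fis_ly_mul 0 y 1 q
      have h2 := fis_Zon D hD y 0 (dy y q) (dy_homog y 0 q hq) (by
        rw [lap_dy, hl]; simp [dy])
      have h3 := eval_dy y 1 q hq
      rw [mul_one] at h1
      have h4 : Zon D y 1 = ly y := rfl
      have h5 : Zon D y 0 = 1 := rfl
      rw [h5] at h2
      rw [h4, h1, h2, h3, Nat.cast_one, one_mul]
  | (k + 2), q, hq, hl => by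
      have e2 : Zon D y (k + 2) = C (1 / ((k : ℝ) + 2)) *
          (ly y * Zon D y (k + 1) - C (zc D (k + 1) * nsq y) * (r2 D * Zon D y k)) := rfl
      have h2 := fis_Zon D hD y (k + 1) (dy y q) (dy_homog y (k + 1) q hq) (by
        rw [lap_dy, hl]; simp [dy])
      have h3 := eval_dy y (k + 2) q hq
      rw [e2, fis_C_mul_left, fis_sub_left, fis_ly_mul (k + 1), h2, h3, fis_C_mul_left,
        fis_r2_mul k, hl, fis_zero_right, mul_zero, sub_zero]
      push_cast
      have a4 : (k : ℝ) + 2 ≠ 0 := by positivity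
      field_simp

theorem eval_Zon (D : ℕ) (x y : Fin D → ℝ) (hx : nsq x = 1) (hy : nsq y = 1) :
    ∀ k, eval x (Zon D y k) = zon D k (∑ i, y i * x i)
  | 0 => by
      unfold Zon zon
      simp
  | 1 => by
      unfold Zon zon ly
      rw [map_sum]
      refine Finset.sum_congr rfl fun i _ => ?_
      rw [map_mul, eval_C, eval_X]
  | (k + 2) => by
      have ih1 := eval_Zon D x y hx hy (k + 1)
      have ih2 := eval_Zon D x y hx hy k
      have h1 : eval x (ly y) = ∑ i, y i * x i := eval_Zon D x y hx hy 1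
      have h2 : eval x (r2 D) = 1 := by
        rw [← hx]
        unfold r2 nsq
        rw [map_sum]
        refine Finset.sum_congr rfl fun i _ => ?_
        rw [map_mul, eval_X]
      have e2 : Zon D y (k + 2) = C (1 / ((k : ℝ) + 2)) *
          (ly y * Zon D y (k + 1) - C (zc D (k + 1) * nsq y) * (r2 D * Zon D y k)) := rfl
      have e3 : ∀ t, zon D (k + 2) t
          = (t * zon D (k + 1) t - zc D (k + 1) * zon D k t) / ((k : ℝ) + 2) := fun t => rfl
      rw [e2, e3]
      simp only [map_mul, map_sub, eval_C, h1, h2, ih1, ih2, hy]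
      ring

theorem nsq_eq_one {D : ℕ} (x : E D) (hx : ‖x‖ = 1) : nsq (fun i => x i) = 1 := by
  have h : ⟪x, x⟫ = 1 := by rw [real_inner_self_eq_norm_sq, hx, one_pow]
  rw [← h, PiLp.inner_apply]
  unfold nsq
  refine Finset.sum_congr rfl fun i _ => ?_
  simp [sq]

theorem zonal_features (D : ℕ) (hD : 3 ≤ D) (k : ℕ) :
    ∃ F : E D → Fin ((D + k - 1).choose k) → ℝ, ∀ x y : E D, ‖x‖ = 1 → ‖y‖ = 1 →
      zon D k ⟪x, y⟫ = ∑ i, F x i * F y i := by
  classical
  have hcard : Fintype.card (Fin ((D + k - 1).choose k)) = Fintype.card (expo D k) := by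
    rw [Fintype.card_fin, Fintype.card_coe, card_expo]
  let e : Fin ((D + k - 1).choose k) ≃ expo D k := Fintype.equivOfCardEq hcard
  refine ⟨fun x i => Real.sqrt (wt (e i : Fin D →₀ ℕ)) *
    coeff (e i : Fin D →₀ ℕ) (Zon D (fun j => x j) k), fun x y hx hy => ?_⟩
  have hx' := nsq_eq_one x hx
  have hy' := nsq_eq_one y hy
  have h1 : ⟪x, y⟫ = ∑ i, y i * x i := by
    rw [PiLp.inner_apply]
    refine Finset.sum_congr rfl fun i _ => ?_
    simp
  have h2 := eval_Zon D (fun j => x j) (fun j => y j) hx' hy' k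
  have h3 := fis_Zon D hD (fun j => x j) k (Zon D (fun j => y j) k)
    (Zon_homog D _ k) (lap_Zon D hD _ k)
  rw [h1, ← h2, ← h3]
  unfold fis
  rw [← Finset.sum_coe_sort (expo D k), ← Equiv.sum_comp e]
  refine Finset.sum_congr rfl fun i _ => ?_
  dsimp only
  have hs := Real.mul_self_sqrt (wt_pos (e i : Fin D →₀ ℕ)).le
  generalize Real.sqrt (wt (e i : Fin D →₀ ℕ)) = r at hs ⊢
  rw [← hs]
  ring

end Pool.Agent.Saus
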