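import Pool.Agent.Lib.Saus.LP
import Pool.Agent.Lib.Saus.Zonal

/-!
# MP_dcaa2d_co: the linear programming bound for spherical codes
-/

set_option autoImplicit false
set_option linter.unusedVariables false

open MeasureTheory Metric Set Filter Topology
open scoped Pointwise RealInnerProductSpace

namespace Pool.Agent.Saus

private lemma sum_choose (D : ℕ) (hD : 1 ≤ D) (m : ℕ) :
    ∑ k ∈ Finset.range (m + 1), (D + k - 1).choose k = (D + m).choose m := by
  induction m with
  | zero => simp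
  | succ m ih =>
    rw [Finset.sum_range_succ, ih]
    have h1 : D + (m + 1) - 1 = D + m := by omega
    have h2 : D + (m + 1) = (D + m) + 1 := by omega
    rw [h1, h2, Nat.choose_succ_succ]

private lemma zc_pos {D : ℕ} (hD : 4 ≤ D) (k : ℕ) : 0 < zc D (k + 1) := by
  have hD' : (4 : ℝ) ≤ D := by exact_mod_cast hD
  have hk : (0 : ℝ) ≤ k := Nat.cast_nonneg k
  unfold zc
  push_cast
  apply div_pos
  · linarith
  · apply mul_pos <;> linarith

private lemma za_sq {D : ℕ} (hD : 4 ≤ D) (k : ℕ) :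
    za D k ^ 2 = ((k : ℝ) + 1) * zc D (k + 1) := by
  have hD' : (4 : ℝ) ≤ D := by exact_mod_cast hD
  have hk : (0 : ℝ) ≤ k := Nat.cast_nonneg k
  unfold za
  rw [Real.sq_sqrt]
  · unfold zc
    push_cast
    rw [mul_div_assoc]
    congr 1
    congr 1
    · ring
    · ring
  · apply div_nonneg
    · apply mul_nonneg <;> linarith
    · apply mul_nonneg <;> linarith

private lemma za_pos {D : ℕ} (hD : 4 ≤ D) (k : ℕ) : 0 < za D k := by
  have hD' : (4 : ℝ) ≤ D := by exact_mod_cast hD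
  have hk : (0 : ℝ) ≤ k := Nat.cast_nonneg k
  unfold za
  apply Real.sqrt_pos.2
  apply div_pos
  · apply mul_pos <;> linarith
  · apply mul_pos <;> linarith

private lemma za_mono {D : ℕ} (hD : 4 ≤ D) : Monotone (za D) := by
  refine monotone_nat_of_le_succ fun k => ?_
  have hD' : (4 : ℝ) ≤ D := by exact_mod_cast hD
  have hk : (0 : ℝ) ≤ k := Nat.cast_nonneg k
  unfold za
  apply Real.sqrt_le_sqrt
  push_cast
  rw [div_le_div_iff₀ (mul_pos (by linarith) (by linarith)) (mul_pos (by linarith) (by linarith))]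
  have h1 : ((k : ℝ) + 1 + 1) * ((D : ℝ) + (k + 1) - 2) * (((D : ℝ) + 2 * k) * ((D : ℝ) + 2 * k - 2))
      - ((k : ℝ) + 1) * ((D : ℝ) + k - 2) *
        (((D : ℝ) + 2 * (k + 1)) * ((D : ℝ) + 2 * (k + 1) - 2))
      = ((D : ℝ) - 2) * ((D : ℝ) - 4) * ((D : ℝ) + 2 * k) := by ring
  have h2 : 0 ≤ ((D : ℝ) - 2) * ((D : ℝ) - 4) * ((D : ℝ) + 2 * k) := by
    apply mul_nonneg
    · apply mul_nonneg <;> linarith
    · linarith
  linarith

/-- the recurrence -/
private lemma zon_rec (D k : ℕ) (t : ℝ) :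
    t * zon D (k + 1) t = ((k : ℝ) + 2) * zon D (k + 2) t + zc D (k + 1) * zon D k t := by
  have hk : (k : ℝ) + 2 ≠ 0 := by positivity
  have h1 : zon D (k + 2) t = (t * zon D (k + 1) t - zc D (k + 1) * zon D k t) / ((k : ℝ) + 2) := by
    rw [zon]
  rw [h1]
  field_simp
  ring

private lemma zon_one_pos {D : ℕ} (hD : 4 ≤ D) (k : ℕ) :
    0 < zon D k 1 ∧ zon D (k + 1) 1 * (((k : ℝ) + 1) * ((D : ℝ) + 2 * k - 2))
      = zon D k 1 * ((D : ℝ) + k - 2) := by
  have hD' : (4 : ℝ) ≤ D := by exact_mod_cast hD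
  induction k with
  | zero =>
    constructor
    · rw [zon]
      exact one_pos
    · rw [zon, zon]
      push_cast
      ring
  | succ k ih =>
    obtain ⟨ih1, ih2⟩ := ih
    have hk : (0 : ℝ) ≤ k := Nat.cast_nonneg k
    have hp1 : 0 < ((k : ℝ) + 1) * ((D : ℝ) + 2 * k - 2) := mul_pos (by linarith) (by linarith)
    have hp2 : 0 < (D : ℝ) + k - 2 := by linarith
    have h1 : 0 < zon D (k + 1) 1 := by
      by_contra hcon
      have h2 : zon D (k + 1) 1 * (((k : ℝ) + 1) * ((D : ℝ) + 2 * k - 2)) ≤ 0 :=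
        mul_nonpos_of_nonpos_of_nonneg (not_lt.1 hcon) hp1.le
      have h3 : 0 < zon D k 1 * ((D : ℝ) + k - 2) := mul_pos ih1 hp2
      linarith
    refine ⟨h1, ?_⟩
    have h4 := zon_rec D k 1
    rw [one_mul] at h4
    -- `zc D (k+1) * zon D k 1` in terms of `zon D (k+1) 1`
    have h5 : zc D (k + 1) * zon D k 1 * ((D : ℝ) + 2 * k) = zon D (k + 1) 1 * ((k : ℝ) + 1) := by
      have hne : ((D : ℝ) + 2 * k - 2) ≠ 0 := by
        have : 0 < (D : ℝ) + 2 * k - 2 := by linarith
        exact this.ne'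
      have hne2 : ((D : ℝ) + 2 * k) ≠ 0 := by
        have : 0 < (D : ℝ) + 2 * k := by linarith
        exact this.ne'
      have h6 : zc D (k + 1) = ((D : ℝ) + k - 2) / (((D : ℝ) + 2 * k) * ((D : ℝ) + 2 * k - 2)) := by
        unfold zc
        push_cast
        congr 1
        · ring
        · ring
      have h8 : zc D (k + 1) * (((D : ℝ) + 2 * k) * ((D : ℝ) + 2 * k - 2)) = (D : ℝ) + k - 2 := by
        rw [h6, div_mul_cancel₀]
        exact mul_ne_zero hne2 hne
      refine mul_right_cancel₀ hne ?_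
      calc zc D (k + 1) * zon D k 1 * ((D : ℝ) + 2 * k) * ((D : ℝ) + 2 * k - 2)
          = zc D (k + 1) * (((D : ℝ) + 2 * k) * ((D : ℝ) + 2 * k - 2)) * zon D k 1 := by ring
        _ = zon D k 1 * ((D : ℝ) + k - 2) := by rw [h8]; ring
        _ = zon D (k + 1) 1 * ((k : ℝ) + 1) * ((D : ℝ) + 2 * k - 2) := by rw [← ih2]; ring
    push_cast
    have h7 : ((k : ℝ) + 2) * zon D (k + 1 + 1) 1 = zon D (k + 1) 1 - zc D (k + 1) * zon D k 1 := by
      linarith
    calc zon D (k + 1 + 1) 1 * (((k : ℝ) + 1 + 1) * ((D : ℝ) + 2 * (k + 1) - 2))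
        = (((k : ℝ) + 2) * zon D (k + 1 + 1) 1) * ((D : ℝ) + 2 * k) := by ring
      _ = zon D (k + 1) 1 * ((D : ℝ) + 2 * k) - zc D (k + 1) * zon D k 1 * ((D : ℝ) + 2 * k) := by
          rw [h7]
          ring
      _ = zon D (k + 1) 1 * ((D : ℝ) + (k + 1) - 2) := by
          rw [h5]
          ring

/-- the normalisation -/
private noncomputable def gam (D : ℕ) : ℕ → ℝ
  | 0 => 1
  | (k + 1) => za D k * gam D k / zc D (k + 1)

private lemma gam_pos {D : ℕ} (hD : 4 ≤ D) (k : ℕ) : 0 < gam D k := by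
  induction k with
  | zero =>
    rw [gam]
    exact one_pos
  | succ k ih =>
    rw [gam]
    exact div_pos (mul_pos (za_pos hD k) ih) (zc_pos hD k)

private lemma gam_c {D : ℕ} (hD : 4 ≤ D) (k : ℕ) :
    zc D (k + 1) * gam D (k + 1) = za D k * gam D k := by
  rw [gam]
  have := (zc_pos hD k).ne'
  field_simp

private lemma gam_k {D : ℕ} (hD : 4 ≤ D) (k : ℕ) :
    ((k : ℝ) + 1) * gam D k = za D k * gam D (k + 1) := by
  have h1 := za_sq hD k
  have h2 := (zc_pos hD k).ne'
  rw [gam, mul_div_assoc', ← mul_assoc, ← pow_two, h1]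
  field_simp

/-- the weights -/
private noncomputable def hw (m L k : ℕ) : ℝ :=
  if m - L ≤ k ∧ k ≤ m then Real.sin (Real.pi / (L + 2) * ((k - (m - L) : ℕ) + 1)) else 0

private lemma sin_nonneg' {L i : ℕ} (hi : i ≤ L + 2) : 0 ≤ Real.sin (Real.pi / (L + 2) * i) := by
  have hL : (0 : ℝ) < (L : ℝ) + 2 := by positivity
  apply Real.sin_nonneg_of_nonneg_of_le_pi
  · positivity
  · have h1 : (i : ℝ) ≤ (L : ℝ) + 2 := by exact_mod_cast hi
    calc Real.pi / (L + 2) * i ≤ Real.pi / (L + 2) * (L + 2) :=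
          mul_le_mul_of_nonneg_left h1 (by positivity)
      _ = Real.pi := by field_simp

private lemma hw_nonneg {m L : ℕ} (hL : L ≤ m) (k : ℕ) : 0 ≤ hw m L k := by
  unfold hw
  split_ifs with h
  · have h1 := sin_nonneg' (L := L) (i := k - (m - L) + 1) (by omega)
    push_cast at h1
    exact h1
  · exact le_refl _

private lemma hw_eq {m L k : ℕ} (h1 : m - L ≤ k) (h2 : k ≤ m) :
    hw m L k = Real.sin (Real.pi / (L + 2) * ((k - (m - L) : ℕ) + 1)) := by
  unfold hw
  rw [if_pos ⟨h1, h2⟩]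

private lemma hw_first_pos {m L : ℕ} (hL : L ≤ m) : 0 < hw m L (m - L) := by
  rw [hw_eq (le_refl _) (Nat.sub_le _ _), Nat.sub_self, Nat.cast_zero, zero_add, mul_one]
  have hL2 : (2 : ℝ) ≤ (L : ℝ) + 2 := by
    have : (0 : ℝ) ≤ L := Nat.cast_nonneg L
    linarith
  apply Real.sin_pos_of_pos_of_lt_pi
  · positivity
  · rw [div_lt_iff₀ (by linarith)]
    nlinarith [Real.pi_pos]

/-- upper neighbour -/
private lemma hw_up {D m L : ℕ} (hD : 4 ≤ D) (hL : L ≤ m) {j : ℕ} (h1 : m - L ≤ j) (h2 : j ≤ m) :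
    za D (m - L) * Real.sin (Real.pi / (L + 2) * ((j - (m - L) : ℕ) + 2))
      ≤ za D j * hw m L (j + 1) := by
  rcases Nat.lt_or_ge j m with h3 | h3
  · rw [hw_eq (by omega) (by omega)]
    have h4 : (((j + 1) - (m - L) : ℕ) : ℝ) + 1 = ((j - (m - L) : ℕ) : ℝ) + 2 := by
      have : (j + 1) - (m - L) = (j - (m - L)) + 1 := by omega
      rw [this]
      push_cast
      ring
    rw [h4]
    refine mul_le_mul_of_nonneg_right (za_mono hD h1) ?_
    have h5 := sin_nonneg' (L := L) (i := j - (m - L) + 2) (by omega)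
    push_cast at h5
    exact h5
  · have h4 : j = m := le_antisymm h2 h3
    have h5 : ((j - (m - L) : ℕ) : ℝ) = L := by
      have : j - (m - L) = L := by omega
      rw [this]
    have h6 : Real.pi / ((L : ℝ) + 2) * ((L : ℝ) + 2) = Real.pi := by
      have : (0 : ℝ) < (L : ℝ) + 2 := by positivity
      field_simp
    rw [h5, h6, Real.sin_pi, mul_zero]
    exact mul_nonneg (za_pos hD j).le (hw_nonneg hL _)

/-- the identity of the sines -/
private lemma sin_sum (θ x : ℝ) :
    2 * Real.cos θ * Real.sin (θ * (x + 1)) = Real.sin (θ * x) + Real.sin (θ * (x + 2)) := by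
  have h1 : θ * x = θ * (x + 1) - θ := by ring
  have h2 : θ * (x + 2) = θ * (x + 1) + θ := by ring
  rw [h1, h2, Real.sin_sub, Real.sin_add]
  ring

private lemma beta_zero {D m L : ℕ} (hD : 4 ≤ D) (hL : L ≤ m) {s' : ℝ}
    (h : s' ≤ 2 * za D (m - L) * Real.cos (Real.pi / (L + 2))) :
    s' * hw m L 0 ≤ za D 0 * hw m L 1 := by
  rcases Nat.eq_zero_or_pos (m - L) with h0 | h0
  · have h1 : hw m L 0 = Real.sin (Real.pi / (L + 2) * (0 + 1)) := by
      rw [hw_eq (by omega) (Nat.zero_le _)]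
      simp
    have h2 := hw_up hD hL (j := 0) (by omega) (Nat.zero_le _)
    have h3 := hw_nonneg hL (m := m) (L := L) 0
    have h4 := sin_sum (Real.pi / (L + 2)) 0
    calc s' * hw m L 0 ≤ (2 * za D (m - L) * Real.cos (Real.pi / (L + 2))) * hw m L 0 :=
          mul_le_mul_of_nonneg_right h h3
      _ = za D (m - L) * (2 * Real.cos (Real.pi / (L + 2)) *
            Real.sin (Real.pi / (L + 2) * (0 + 1))) := by rw [h1]; ring
      _ = za D (m - L) * Real.sin (Real.pi / (L + 2) * ((0 - (m - L) : ℕ) + 2)) := by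
          rw [h4]
          simp
      _ ≤ _ := h2
  · have h1 : hw m L 0 = 0 := by
      unfold hw
      rw [if_neg]
      omega
    rw [h1, mul_zero]
    exact mul_nonneg (za_pos hD 0).le (hw_nonneg hL _)

private lemma beta_succ {D m L : ℕ} (hD : 4 ≤ D) (hL : L ≤ m) {s' : ℝ}
    (h : s' ≤ 2 * za D (m - L) * Real.cos (Real.pi / (L + 2))) (k : ℕ) :
    s' * hw m L (k + 1) ≤ za D k * hw m L k + za D (k + 1) * hw m L (k + 2) := by
  by_cases hk : m - L ≤ k + 1 ∧ k + 1 ≤ m
  · obtain ⟨hk1, hk2⟩ := hk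
    have h1 := hw_eq hk1 hk2
    have h2 := hw_up hD hL hk1 hk2
    have h3 := hw_nonneg hL (m := m) (L := L) (k + 1)
    have h4 := sin_sum (Real.pi / (L + 2)) ((k + 1 - (m - L) : ℕ) : ℝ)
    have h5 : za D (m - L) * Real.sin (Real.pi / (L + 2) * ((k + 1 - (m - L) : ℕ) : ℝ))
        ≤ za D k * hw m L k := by
      rcases Nat.lt_or_ge k (m - L) with h6 | h6
      · have h7 : k + 1 - (m - L) = 0 := by omega
        rw [h7, Nat.cast_zero, mul_zero, Real.sin_zero, mul_zero]
        exact mul_nonneg (za_pos hD k).le (hw_nonneg hL _)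
      · rw [hw_eq h6 (by omega)]
        have h8 : ((k + 1 - (m - L) : ℕ) : ℝ) = ((k - (m - L) : ℕ) : ℝ) + 1 := by
          have : k + 1 - (m - L) = (k - (m - L)) + 1 := by omega
          rw [this]
          push_cast
          ring
        rw [h8]
        refine mul_le_mul_of_nonneg_right (za_mono hD h6) ?_
        have h9 := sin_nonneg' (L := L) (i := k - (m - L) + 1) (by omega)
        push_cast at h9
        exact h9
    calc s' * hw m L (k + 1)
        ≤ (2 * za D (m - L) * Real.cos (Real.pi / (L + 2))) * hw m L (k + 1) :=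
          mul_le_mul_of_nonneg_right h h3
      _ = za D (m - L) * (2 * Real.cos (Real.pi / (L + 2)) *
            Real.sin (Real.pi / (L + 2) * ((k + 1 - (m - L) : ℕ) + 1))) := by rw [h1]; ring
      _ = za D (m - L) * Real.sin (Real.pi / (L + 2) * ((k + 1 - (m - L) : ℕ) : ℝ))
          + za D (m - L) * Real.sin (Real.pi / (L + 2) * ((k + 1 - (m - L) : ℕ) + 2)) := by
          rw [h4]
          ring
      _ ≤ _ := add_le_add h5 h2
  · have h1 : hw m L (k + 1) = 0 := by
      unfold hw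
      rw [if_neg hk]
    rw [h1, mul_zero]
    exact add_nonneg (mul_nonneg (za_pos hD k).le (hw_nonneg hL _))
      (mul_nonneg (za_pos hD (k + 1)).le (hw_nonneg hL _))

/-- multiplication by `t` -/
private lemma mul_sum_zon (D : ℕ) (g : ℕ → ℝ) (t : ℝ) (M : ℕ) :
    t * ∑ k ∈ Finset.range (M + 1), g k * zon D k t
      = ∑ k ∈ Finset.range (M + 1), ((k : ℝ) + 1) * g k * zon D (k + 1) t
        + ∑ k ∈ Finset.range M, zc D (k + 1) * g (k + 1) * zon D k t := by
  induction M with
  | zero =>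
    simp only [zero_add, Finset.sum_range_one, Finset.sum_range_zero, add_zero, Nat.cast_zero]
    rw [zon, zon]
    ring
  | succ M ih =>
    rw [Finset.sum_range_succ (fun k => g k * zon D k t) (M + 1), mul_add, ih,
      Finset.sum_range_succ (fun k => ((k : ℝ) + 1) * g k * zon D (k + 1) t) (M + 1),
      Finset.sum_range_succ (fun k => zc D (k + 1) * g (k + 1) * zon D k t) M]
    have h1 := zon_rec D M t
    have h2 : t * (g (M + 1) * zon D (M + 1) t) = g (M + 1) * (t * zon D (M + 1) t) := by ring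
    rw [h2, h1]
    push_cast
    ring

/-- the coefficients of `(t - s') G` -/
private noncomputable def alp (D m L : ℕ) (s' : ℝ) : ℕ → ℝ
  | 0 => (za D 0 * hw m L 1 - s' * hw m L 0) * gam D 0
  | (k + 1) => (za D k * hw m L k + za D (k + 1) * hw m L (k + 2) - s' * hw m L (k + 1))
      * gam D (k + 1)

private lemma alp_nonneg {D m L : ℕ} (hD : 4 ≤ D) (hL : L ≤ m) {s' : ℝ}
    (h : s' ≤ 2 * za D (m - L) * Real.cos (Real.pi / (L + 2))) (k : ℕ) : 0 ≤ alp D m L s' k := by
  cases k with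
  | zero =>
    rw [alp]
    exact mul_nonneg (by linarith [beta_zero hD hL h]) (gam_pos hD 0).le
  | succ k =>
    rw [alp]
    exact mul_nonneg (by linarith [beta_succ hD hL h k]) (gam_pos hD _).le

private lemma hw_top {m L k : ℕ} (hk : m < k) : hw m L k = 0 := by
  unfold hw
  rw [if_neg]
  omega

private lemma kernel_eq {D m L : ℕ} (hD : 4 ≤ D) (s' t : ℝ) :
    (t - s') * ∑ k ∈ Finset.range (m + 1), (hw m L k * gam D k) * zon D k t
      = ∑ k ∈ Finset.range (m + 2), alp D m L s' k * zon D k t := by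
  rw [sub_mul, mul_sum_zon D (fun k => hw m L k * gam D k) t m]
  have h1 : ∑ k ∈ Finset.range (m + 1), ((k : ℝ) + 1) * (hw m L k * gam D k) * zon D (k + 1) t
      = ∑ k ∈ Finset.range (m + 1), za D k * hw m L k * gam D (k + 1) * zon D (k + 1) t := by
    refine Finset.sum_congr rfl fun k _ => ?_
    have := gam_k hD k
    calc ((k : ℝ) + 1) * (hw m L k * gam D k) * zon D (k + 1) t
        = (((k : ℝ) + 1) * gam D k) * hw m L k * zon D (k + 1) t := by ring
      _ = _ := by rw [this]; ring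
  have h2 : ∑ k ∈ Finset.range m, zc D (k + 1) * (hw m L (k + 1) * gam D (k + 1)) * zon D k t
      = ∑ k ∈ Finset.range (m + 2), za D k * hw m L (k + 1) * gam D k * zon D k t := by
    rw [Finset.sum_range_succ, Finset.sum_range_succ, hw_top (m := m) (L := L) (k := m + 1)
      (by omega), hw_top (m := m) (L := L) (k := m + 1 + 1) (by omega)]
    simp only [mul_zero, zero_mul, add_zero]
    refine Finset.sum_congr rfl fun k _ => ?_
    have := gam_c hD k
    calc zc D (k + 1) * (hw m L (k + 1) * gam D (k + 1)) * zon D k t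
        = (zc D (k + 1) * gam D (k + 1)) * hw m L (k + 1) * zon D k t := by ring
      _ = _ := by rw [this]; ring
  have h3 : s' * ∑ k ∈ Finset.range (m + 1), hw m L k * gam D k * zon D k t
      = ∑ k ∈ Finset.range (m + 2), s' * hw m L k * gam D k * zon D k t := by
    rw [Finset.sum_range_succ _ (m + 1), hw_top (m := m) (L := L) (k := m + 1) (by omega)]
    simp only [mul_zero, zero_mul, add_zero]
    rw [Finset.mul_sum]
    refine Finset.sum_congr rfl fun k _ => ?_
    ring
  rw [h1, h2, h3, add_sub_assoc, ← Finset.sum_sub_distrib, Finset.sum_range_succ' _ (m + 1),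
    Finset.sum_range_succ' (fun k => alp D m L s' k * zon D k t) (m + 1), ← add_assoc,
    ← Finset.sum_add_distrib]
  congr 1
  · refine Finset.sum_congr rfl fun k _ => ?_
    rw [alp]
    ring
  · rw [alp]
    ring

theorem code_bound {D : ℕ} (hD : 4 ≤ D) {m L : ℕ} (hL : L ≤ m) (C : Finset (E D))
    (hC : ∀ x ∈ C, ‖x‖ = 1) {s ε : ℝ} (hε : 0 < ε) (hs : s < 1)
    (hsep : ∀ x ∈ C, ∀ y ∈ C, x ≠ y → ⟪x, y⟫ ≤ s)
    (h : s + ε ≤ 2 * za D (m - L) * Real.cos (Real.pi / (L + 2))) :
    (C.card : ℝ) ≤ (1 - s) / ε * ((D + m).choose m : ℝ) := by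
  classical
  choose F hF using fun k : ℕ => zonal_features D (by omega : 3 ≤ D) k
  let ι : Type := Σ k : Fin (m + 1), Fin ((D + (k : ℕ) - 1).choose (k : ℕ))
  let FF : E D → ι → ℝ := fun x i =>
    Real.sqrt (hw m L i.1 * gam D i.1) * F (i.1 : ℕ) x i.2
  have hg : ∀ k, 0 ≤ hw m L k * gam D k := fun k => mul_nonneg (hw_nonneg hL k) (gam_pos hD k).le
  have hsum : ∀ x y : E D, ‖x‖ = 1 → ‖y‖ = 1 → ∑ i : ι, FF x i * FF y i
      = ∑ k ∈ Finset.range (m + 1), (hw m L k * gam D k) * zon D k ⟪x, y⟫ := by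
    intro x y hx hy
    rw [Fintype.sum_sigma, ← Fin.sum_univ_eq_sum_range
      (fun k => (hw m L k * gam D k) * zon D k ⟪x, y⟫) (m + 1)]
    refine Finset.sum_congr rfl fun k _ => ?_
    rw [hF k x y hx hy, Finset.mul_sum]
    refine Finset.sum_congr rfl fun i _ => ?_
    change (Real.sqrt (hw m L k * gam D k) * F (k : ℕ) x i)
      * (Real.sqrt (hw m L k * gam D k) * F (k : ℕ) y i) = _
    calc (Real.sqrt (hw m L k * gam D k) * F (k : ℕ) x i)
          * (Real.sqrt (hw m L k * gam D k) * F (k : ℕ) y i)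
        = (Real.sqrt (hw m L k * gam D k) * Real.sqrt (hw m L k * gam D k))
          * (F (k : ℕ) x i * F (k : ℕ) y i) := by ring
      _ = _ := by rw [Real.mul_self_sqrt (hg k)]
  have hcard : (Fintype.card ι : ℝ) = ((D + m).choose m : ℝ) := by
    have h1 : Fintype.card ι = (D + m).choose m := by
      rw [Fintype.card_sigma]
      simp only [Fintype.card_fin]
      rw [Fin.sum_univ_eq_sum_range (fun k => (D + k - 1).choose k) (m + 1)]
      exact sum_choose D (by omega) m
    rw [h1]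
  rw [← hcard]
  refine lp_bound (ι := ι) C hC hε hs hsep FF
    (g := ∑ k ∈ Finset.range (m + 1), (hw m L k * gam D k) * zon D k 1) ?_ ?_ ?_
  · refine Finset.sum_pos' (fun k _ => mul_nonneg (hg k) (zon_one_pos hD k).1.le)
      ⟨m - L, Finset.mem_range.2 (by omega), ?_⟩
    exact mul_pos (mul_pos (hw_first_pos hL) (gam_pos hD _)) (zon_one_pos hD _).1
  · intro x hx
    have h1 := hsum x x (hC x hx) (hC x hx)
    rw [real_inner_self_eq_norm_sq, hC x hx, one_pow] at h1
    rw [← h1]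
    refine Finset.sum_congr rfl fun i _ => ?_
    ring
  · intro w
    have h1 : ∑ x ∈ C, ∑ y ∈ C, w x * w y * ((⟪x, y⟫ - (s + ε)) * ∑ i, FF x i * FF y i)
        = ∑ k ∈ Finset.range (m + 2), alp D m L (s + ε) k *
          ∑ x ∈ C, ∑ y ∈ C, w x * w y * zon D k ⟪x, y⟫ := by
      have h2 : ∀ x ∈ C, ∀ y ∈ C, w x * w y * ((⟪x, y⟫ - (s + ε)) * ∑ i, FF x i * FF y i)
          = ∑ k ∈ Finset.range (m + 2), alp D m L (s + ε) k * (w x * w y * zon D k ⟪x, y⟫) := by
        intro x hx y hy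
        rw [hsum x y (hC x hx) (hC y hy), kernel_eq hD, Finset.mul_sum]
        refine Finset.sum_congr rfl fun k _ => ?_
        ring
      rw [Finset.sum_congr rfl fun x hx => Finset.sum_congr rfl fun y hy => h2 x hx y hy]
      have h3 : ∀ x ∈ C, ∑ y ∈ C, ∑ k ∈ Finset.range (m + 2),
          alp D m L (s + ε) k * (w x * w y * zon D k ⟪x, y⟫)
          = ∑ k ∈ Finset.range (m + 2), ∑ y ∈ C,
            alp D m L (s + ε) k * (w x * w y * zon D k ⟪x, y⟫) := fun x _ => Finset.sum_comm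
      rw [Finset.sum_congr rfl h3, Finset.sum_comm]
      refine Finset.sum_congr rfl fun k _ => ?_
      rw [Finset.mul_sum]
      refine Finset.sum_congr rfl fun x _ => ?_
      rw [Finset.mul_sum]
    rw [h1]
    refine Finset.sum_nonneg fun k _ => mul_nonneg (alp_nonneg hD hL h k) ?_
    have h4 : ∑ x ∈ C, ∑ y ∈ C, w x * w y * zon D k ⟪x, y⟫
        = ∑ i, (∑ x ∈ C, w x * F k x i) ^ 2 := by
      have h5 : ∀ x ∈ C, ∀ y ∈ C, w x * w y * zon D k ⟪x, y⟫
          = ∑ i, (w x * F k x i) * (w y * F k y i) := by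
        intro x hx y hy
        rw [hF k x y (hC x hx) (hC y hy), Finset.mul_sum]
        refine Finset.sum_congr rfl fun i _ => ?_
        ring
      rw [Finset.sum_congr rfl fun x hx => Finset.sum_congr rfl fun y hy => h5 x hx y hy]
      have h6 : ∀ x ∈ C, ∑ y ∈ C, ∑ i, (w x * F k x i) * (w y * F k y i)
          = ∑ i, ∑ y ∈ C, (w x * F k x i) * (w y * F k y i) := fun x _ => Finset.sum_comm
      rw [Finset.sum_congr rfl h6, Finset.sum_comm]
      refine Finset.sum_congr rfl fun i _ => ?_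
      rw [pow_two, Finset.sum_mul_sum]
    rw [h4]
    exact Finset.sum_nonneg fun i _ => sq_nonneg _

end Pool.Agent.Saus
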