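import Mathlib

/-!
# MP_dcaa2d_co: definitions

Finite packings of unit balls in `ℝ^d`, the volume `V (conv X + ρ B)`, the parametric quantity
`Δ_n(ρ)`.
-/

set_option autoImplicit false

open MeasureTheory Metric Set Filter Topology
open scoped Pointwise RealInnerProductSpace

namespace Pool.Agent.Saus

/-- Euclidean space of dimension `d`. -/
abbrev E (d : ℕ) := EuclideanSpace ℝ (Fin d)

/-- Volume of the unit ball of `ℝ^m`. -/
noncomputable def kappa (m : ℕ) : ℝ := (volume (closedBall (0 : E m) 1)).toReal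

/-- The unit balls with centres in `X` form a packing. -/
def IsPack {d : ℕ} (X : Finset (E d)) : Prop := ∀ x ∈ X, ∀ y ∈ X, x ≠ y → 2 ≤ dist x y

/-- The volume of `conv X + ρ B^d`. -/
noncomputable def V {d : ℕ} (X : Finset (E d)) (ρ : ℝ) : ℝ :=
  (volume (convexHull ℝ (X : Set (E d)) + closedBall (0 : E d) ρ)).toReal

/-- `Δ_n(ρ)`, the least value of `V (conv X + ρ B^d) / n` over all packings of `n` unit balls. -/
noncomputable def DeltaN (d : ℕ) (ρ : ℝ) (n : ℕ) : ℝ :=
  sInf {v : ℝ | ∃ X : Finset (E d), X.card = n ∧ IsPack X ∧ v = V X ρ / n}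

/-- The area of the triangle with vertices `x`, `a`, `b`. -/
noncomputable def area {d : ℕ} (x a b : E d) : ℝ :=
  (1 / 2) * Real.sqrt (‖a - x‖ ^ 2 * ‖b - x‖ ^ 2 - ⟪a - x, b - x⟫ ^ 2)

/-- The coefficients of the recurrence of the zonal kernels in dimension `D`. -/
noncomputable def zc (D k : ℕ) : ℝ := ((D : ℝ) + k - 3) / (((D : ℝ) + 2 * k - 2) * ((D : ℝ) + 2 * k - 4))

/-- The zonal polynomials of dimension `D` (Gegenbauer polynomials in the Fischer
normalisation). -/
noncomputable def zon (D : ℕ) : ℕ → ℝ → ℝ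
  | 0, _ => 1
  | 1, t => t
  | (k + 2), t => (t * zon D (k + 1) t - zc D (k + 1) * zon D k t) / ((k : ℝ) + 2)

/-- The off-diagonal entries of the Jacobi matrix of the zonal polynomials. -/
noncomputable def za (D k : ℕ) : ℝ :=
  Real.sqrt (((k : ℝ) + 1) * ((D : ℝ) + k - 2) / (((D : ℝ) + 2 * k) * ((D : ℝ) + 2 * k - 2)))

end Pool.Agent.Saus
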