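import Pool.Agent.Lib.Saus.Defs

/-!
# MP_dcaa2d_co: the Fischer inner product

`fis k p q = ∑ a! p_a q_a` over the exponents `a` of degree `k`.  Multiplication by `X i` is
adjoint to `∂_i`.  Differential operators `dy` (directional derivative) and `lap` (Laplacian) on
polynomials.
-/

set_option autoImplicit false

open MvPolynomial

namespace Pool.Agent.Saus

/-- `a!`. -/
noncomputable def wt {D : ℕ} (a : Fin D →₀ ℕ) : ℝ := ∏ i, ((a i).factorial : ℝ)

/-- The exponents of degree `k`. -/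
noncomputable def expo (D k : ℕ) : Finset (Fin D →₀ ℕ) :=
  Finset.finsuppAntidiag (Finset.univ : Finset (Fin D)) k

/-- The Fischer form in degree `k`. -/
noncomputable def fis {D : ℕ} (k : ℕ) (p q : MvPolynomial (Fin D) ℝ) : ℝ :=
  ∑ a ∈ expo D k, wt a * (coeff a p * coeff a q)

theorem wt_pos {D : ℕ} (a : Fin D →₀ ℕ) : 0 < wt a := by
  unfold wt
  exact Finset.prod_pos fun i _ => by exact_mod_cast Nat.factorial_pos _

theorem mem_expo {D k : ℕ} (a : Fin D →₀ ℕ) : a ∈ expo D k ↔ ∑ i, a i = k := by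
  unfold expo
  rw [Finset.mem_finsuppAntidiag]
  simp

theorem card_expo (D k : ℕ) : (expo D k).card = (D + k - 1).choose k := by
  unfold expo
  rw [Finset.card_finsuppAntidiag_nat_eq_choose]
  simp

theorem wt_add_single {D : ℕ} (b : Fin D →₀ ℕ) (i : Fin D) :
    wt (b + Finsupp.single i 1) = wt b * ((b i : ℝ) + 1) := by
  classical
  unfold wt
  rw [← Finset.mul_prod_erase Finset.univ _ (Finset.mem_univ i),
    ← Finset.mul_prod_erase Finset.univ (fun j => ((b j).factorial : ℝ)) (Finset.mem_univ i)]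
  have h1 : ∏ j ∈ Finset.univ.erase i, (((b + Finsupp.single i 1 : Fin D →₀ ℕ) j).factorial : ℝ)
      = ∏ j ∈ Finset.univ.erase i, ((b j).factorial : ℝ) := by
    refine Finset.prod_congr rfl fun j hj => ?_
    have hji : j ≠ i := Finset.ne_of_mem_erase hj
    rw [Finsupp.add_apply, Finsupp.single_eq_of_ne hji, add_zero]
  rw [h1, Finsupp.add_apply, Finsupp.single_eq_same, Nat.factorial_succ]
  push_cast
  ring

/-- `X i` is adjoint to `∂_i`. -/
theorem fis_X_mul {D : ℕ} (k : ℕ) (i : Fin D) (p q : MvPolynomial (Fin D) ℝ) :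
    fis (k + 1) (X i * p) q = fis k p (pderiv i q) := by
  classical
  unfold fis
  symm
  refine Finset.sum_of_injOn (fun b => b + Finsupp.single i 1) ?_ ?_ ?_ ?_
  · intro a _ b _ hab
    exact add_right_cancel hab
  · intro a ha
    have ha' : ∑ j, a j = k := (mem_expo a).1 (Finset.mem_coe.1 ha)
    refine Finset.mem_coe.2 ((mem_expo _).2 ?_)
    simp only [Finsupp.add_apply]
    rw [Finset.sum_add_distrib, ha', Finsupp.univ_sum_single_apply]
  · intro a ha hna
    rw [coeff_X_mul']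
    split_ifs with hi
    · exfalso
      apply hna
      have hpos : a i ≠ 0 := Finsupp.mem_support_iff.1 hi
      have hle : Finsupp.single i 1 ≤ a := by
        rw [Finsupp.single_le_iff]; omega
      refine ⟨a - Finsupp.single i 1, ?_, tsub_add_cancel_of_le hle⟩
      have h1 : a - Finsupp.single i 1 + Finsupp.single i 1 = a := tsub_add_cancel_of_le hle
      have h2 : ∑ j, a j = k + 1 := (mem_expo a).1 ha
      refine Finset.mem_coe.2 ((mem_expo _).2 ?_)
      have h3 : ∑ j, (a - Finsupp.single i 1 + Finsupp.single i 1 : Fin D →₀ ℕ) j = k + 1 := by rw [h1, h2]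
      simp only [Finsupp.add_apply] at h3
      rw [Finset.sum_add_distrib, Finsupp.univ_sum_single_apply] at h3
      omega
    · simp
  · intro b _
    have hmem : i ∈ (b + Finsupp.single i 1).support := by
      rw [Finsupp.mem_support_iff, Finsupp.add_apply, Finsupp.single_eq_same]; omega
    rw [coeff_X_mul', if_pos hmem, add_tsub_cancel_right, wt_add_single, coeff_pderiv]
    ring

theorem fis_add_left {D : ℕ} (k : ℕ) (p p' q : MvPolynomial (Fin D) ℝ) :
    fis k (p + p') q = fis k p q + fis k p' q := by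
  unfold fis
  rw [← Finset.sum_add_distrib]
  refine Finset.sum_congr rfl fun a _ => ?_
  rw [coeff_add]; ring

theorem fis_sub_left {D : ℕ} (k : ℕ) (p p' q : MvPolynomial (Fin D) ℝ) :
    fis k (p - p') q = fis k p q - fis k p' q := by
  unfold fis
  rw [← Finset.sum_sub_distrib]
  refine Finset.sum_congr rfl fun a _ => ?_
  rw [coeff_sub]; ring

theorem fis_C_mul_left {D : ℕ} (k : ℕ) (c : ℝ) (p q : MvPolynomial (Fin D) ℝ) :
    fis k (C c * p) q = c * fis k p q := by
  unfold fis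
  rw [Finset.mul_sum]
  refine Finset.sum_congr rfl fun a _ => ?_
  rw [coeff_C_mul]; ring

theorem fis_sum_left {D : ℕ} (k : ℕ) {ι : Type*} (s : Finset ι)
    (p : ι → MvPolynomial (Fin D) ℝ) (q : MvPolynomial (Fin D) ℝ) :
    fis k (∑ i ∈ s, p i) q = ∑ i ∈ s, fis k (p i) q := by
  classical
  induction s using Finset.induction_on with
  | empty => simp [fis]
  | insert a s ha ih => rw [Finset.sum_insert ha, Finset.sum_insert ha, fis_add_left, ih]

theorem fis_comm {D : ℕ} (k : ℕ) (p q : MvPolynomial (Fin D) ℝ) : fis k p q = fis k q p := by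
  unfold fis
  refine Finset.sum_congr rfl fun a _ => ?_
  ring

theorem fis_sum_right {D : ℕ} (k : ℕ) {ι : Type*} (s : Finset ι)
    (p : MvPolynomial (Fin D) ℝ) (q : ι → MvPolynomial (Fin D) ℝ) :
    fis k p (∑ i ∈ s, q i) = ∑ i ∈ s, fis k p (q i) := by
  rw [fis_comm, fis_sum_left]
  exact Finset.sum_congr rfl fun i _ => fis_comm _ _ _

theorem fis_C_mul_right {D : ℕ} (k : ℕ) (c : ℝ) (p q : MvPolynomial (Fin D) ℝ) :
    fis k p (C c * q) = c * fis k p q := by
  rw [fis_comm, fis_C_mul_left, fis_comm]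

theorem fis_zero_right {D : ℕ} (k : ℕ) (p : MvPolynomial (Fin D) ℝ) : fis k p 0 = 0 := by
  simp [fis]

/-- The linear form `⟨y, X⟩`. -/
noncomputable def ly {D : ℕ} (y : Fin D → ℝ) : MvPolynomial (Fin D) ℝ := ∑ i, C (y i) * X i

/-- `|X|²`. -/
noncomputable def r2 (D : ℕ) : MvPolynomial (Fin D) ℝ := ∑ i, X i * X i

/-- The derivative in direction `y`. -/
noncomputable def dy {D : ℕ} (y : Fin D → ℝ) (p : MvPolynomial (Fin D) ℝ) :
    MvPolynomial (Fin D) ℝ := ∑ i, C (y i) * pderiv i p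

/-- The Laplacian. -/
noncomputable def lap {D : ℕ} (p : MvPolynomial (Fin D) ℝ) : MvPolynomial (Fin D) ℝ :=
  ∑ i, pderiv i (pderiv i p)

theorem fis_ly_mul {D : ℕ} (k : ℕ) (y : Fin D → ℝ) (p q : MvPolynomial (Fin D) ℝ) :
    fis (k + 1) (ly y * p) q = fis k p (dy y q) := by
  unfold ly dy
  rw [Finset.sum_mul, fis_sum_left, fis_sum_right]
  refine Finset.sum_congr rfl fun i _ => ?_
  rw [mul_assoc, fis_C_mul_left, fis_X_mul, fis_C_mul_right]

theorem fis_r2_mul {D : ℕ} (k : ℕ) (p q : MvPolynomial (Fin D) ℝ) :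
    fis (k + 2) (r2 D * p) q = fis k p (lap q) := by
  unfold r2 lap
  rw [Finset.sum_mul, fis_sum_left, fis_sum_right]
  refine Finset.sum_congr rfl fun i _ => ?_
  rw [mul_assoc, fis_X_mul, fis_X_mul]

theorem pderiv_pderiv_comm' {D : ℕ} (i j : Fin D) (p : MvPolynomial (Fin D) ℝ) :
    pderiv i (pderiv j p) = pderiv j (pderiv i p) := by
  classical
  by_cases hij : i = j
  · rw [hij]
  ext m
  rw [coeff_pderiv, coeff_pderiv, coeff_pderiv, coeff_pderiv]
  have h1 : (m + Finsupp.single i 1 : Fin D →₀ ℕ) j = m j := by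
    rw [Finsupp.add_apply, Finsupp.single_eq_of_ne (Ne.symm hij), add_zero]
  have h2 : (m + Finsupp.single j 1 : Fin D →₀ ℕ) i = m i := by
    rw [Finsupp.add_apply, Finsupp.single_eq_of_ne hij, add_zero]
  rw [h1, h2, add_right_comm]
  ring

theorem dy_sub {D : ℕ} (y : Fin D → ℝ) (p q : MvPolynomial (Fin D) ℝ) :
    dy y (p - q) = dy y p - dy y q := by
  unfold dy
  rw [← Finset.sum_sub_distrib]
  refine Finset.sum_congr rfl fun i _ => ?_
  rw [map_sub, mul_sub]

theorem dy_C_mul {D : ℕ} (y : Fin D → ℝ) (c : ℝ) (p : MvPolynomial (Fin D) ℝ) :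
    dy y (C c * p) = C c * dy y p := by
  unfold dy
  rw [Finset.mul_sum]
  refine Finset.sum_congr rfl fun i _ => ?_
  rw [pderiv_C_mul]; ring

theorem dy_mul {D : ℕ} (y : Fin D → ℝ) (p q : MvPolynomial (Fin D) ℝ) :
    dy y (p * q) = dy y p * q + p * dy y q := by
  unfold dy
  rw [Finset.sum_mul, Finset.mul_sum, ← Finset.sum_add_distrib]
  refine Finset.sum_congr rfl fun i _ => ?_
  rw [pderiv_mul]; ring

theorem dy_one {D : ℕ} (y : Fin D → ℝ) : dy y (1 : MvPolynomial (Fin D) ℝ) = 0 := by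
  unfold dy
  simp

theorem pderiv_ly {D : ℕ} (y : Fin D → ℝ) (i : Fin D) : pderiv i (ly y) = C (y i) := by
  classical
  unfold ly
  rw [map_sum, Finset.sum_eq_single i]
  · rw [pderiv_C_mul, pderiv_X_self, mul_one]
  · intro j _ hj
    rw [pderiv_C_mul, pderiv_X_of_ne hj, mul_zero]
  · intro h; exact absurd (Finset.mem_univ i) h

theorem pderiv_r2 {D : ℕ} (i : Fin D) : pderiv i (r2 D) = C 2 * X i := by
  classical
  unfold r2
  rw [map_sum, Finset.sum_eq_single i]
  · rw [pderiv_mul, pderiv_X_self, one_mul, mul_one, show (2 : ℝ) = 1 + 1 by norm_num, C_add, C_1,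
      add_mul, one_mul]
  · intro j _ hj
    rw [pderiv_mul, pderiv_X_of_ne hj, mul_zero, zero_mul, add_zero]
  · intro h; exact absurd (Finset.mem_univ i) h

theorem dy_ly {D : ℕ} (y : Fin D → ℝ) : dy y (ly y) = C (∑ i, y i * y i) := by
  unfold dy
  rw [map_sum]
  refine Finset.sum_congr rfl fun i _ => ?_
  rw [pderiv_ly, ← C_mul]

theorem dy_r2 {D : ℕ} (y : Fin D → ℝ) : dy y (r2 D) = C 2 * ly y := by
  unfold dy ly
  rw [Finset.mul_sum]
  refine Finset.sum_congr rfl fun i _ => ?_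
  rw [pderiv_r2]; ring

theorem lap_sub {D : ℕ} (p q : MvPolynomial (Fin D) ℝ) : lap (p - q) = lap p - lap q := by
  unfold lap
  rw [← Finset.sum_sub_distrib]
  refine Finset.sum_congr rfl fun i _ => ?_
  rw [map_sub, map_sub]

theorem lap_C_mul {D : ℕ} (c : ℝ) (p : MvPolynomial (Fin D) ℝ) :
    lap (C c * p) = C c * lap p := by
  unfold lap
  rw [Finset.mul_sum]
  refine Finset.sum_congr rfl fun i _ => ?_
  rw [pderiv_C_mul, pderiv_C_mul]

theorem lap_one {D : ℕ} : lap (1 : MvPolynomial (Fin D) ℝ) = 0 := by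
  unfold lap
  simp

theorem lap_sum {D : ℕ} {ι : Type*} (s : Finset ι) (p : ι → MvPolynomial (Fin D) ℝ) :
    lap (∑ i ∈ s, p i) = ∑ i ∈ s, lap (p i) := by
  unfold lap
  rw [Finset.sum_comm]
  refine Finset.sum_congr rfl fun i _ => ?_
  rw [map_sum, map_sum]

theorem lap_ly_mul {D : ℕ} (y : Fin D → ℝ) (p : MvPolynomial (Fin D) ℝ) :
    lap (ly y * p) = C 2 * dy y p + ly y * lap p := by
  unfold lap dy
  rw [Finset.mul_sum, Finset.mul_sum, ← Finset.sum_add_distrib]
  refine Finset.sum_congr rfl fun i _ => ?_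
  rw [pderiv_mul, pderiv_ly, map_add, pderiv_C_mul, pderiv_mul, pderiv_ly,
    show (2 : ℝ) = 1 + 1 by norm_num, C_add, C_1]
  ring

theorem lap_r2_mul {D : ℕ} (n : ℕ) (p : MvPolynomial (Fin D) ℝ) (hp : p.IsHomogeneous n) :
    lap (r2 D * p) = C (2 * (D : ℝ) + 4 * n) * p + r2 D * lap p := by
  have h1 : ∀ i : Fin D, pderiv i (pderiv i (r2 D * p))
      = C 2 * p + C 4 * (X i * pderiv i p) + r2 D * pderiv i (pderiv i p) := by
    intro i
    rw [pderiv_mul, pderiv_r2, map_add, mul_assoc, pderiv_C_mul, pderiv_mul, pderiv_X_self,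
      pderiv_mul, pderiv_r2, show (4 : ℝ) = 2 + 2 by norm_num, C_add]
    ring
  unfold lap
  rw [Finset.sum_congr rfl fun i _ => h1 i, Finset.sum_add_distrib, Finset.sum_add_distrib,
    ← Finset.mul_sum, ← Finset.mul_sum, ← Finset.mul_sum, hp.sum_X_mul_pderiv]
  rw [Finset.sum_const, Finset.card_univ, Fintype.card_fin, nsmul_eq_mul, nsmul_eq_mul, C_add,
    C_mul, C_mul, map_natCast, map_natCast]
  ring

theorem lap_dy {D : ℕ} (y : Fin D → ℝ) (p : MvPolynomial (Fin D) ℝ) :
    lap (dy y p) = dy y (lap p) := by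
  unfold dy
  rw [lap_sum]
  refine Finset.sum_congr rfl fun i _ => ?_
  rw [lap_C_mul]
  congr 1
  unfold lap
  rw [map_sum]
  refine Finset.sum_congr rfl fun j _ => ?_
  rw [pderiv_pderiv_comm' i j (pderiv j p), pderiv_pderiv_comm' i j p]

theorem ly_homog {D : ℕ} (y : Fin D → ℝ) : (ly y).IsHomogeneous 1 := by
  unfold ly
  refine IsHomogeneous.sum _ _ _ fun i _ => ?_
  have h := (isHomogeneous_C (Fin D) (y i)).mul (isHomogeneous_X ℝ i)
  rwa [zero_add] at h

theorem r2_homog (D : ℕ) : (r2 D).IsHomogeneous 2 := by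
  unfold r2
  refine IsHomogeneous.sum _ _ _ fun i _ => ?_
  exact (isHomogeneous_X ℝ i).mul (isHomogeneous_X ℝ i)

theorem dy_homog {D : ℕ} (y : Fin D → ℝ) (n : ℕ) (p : MvPolynomial (Fin D) ℝ)
    (hp : p.IsHomogeneous (n + 1)) : (dy y p).IsHomogeneous n := by
  unfold dy
  refine IsHomogeneous.sum _ _ _ fun i _ => ?_
  have h := (isHomogeneous_C (Fin D) (y i)).mul (hp.pderiv (i := i))
  rwa [zero_add, Nat.add_sub_cancel] at h

theorem eval_dy {D : ℕ} (y : Fin D → ℝ) (n : ℕ) (p : MvPolynomial (Fin D) ℝ)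
    (hp : p.IsHomogeneous n) : eval y (dy y p) = n * eval y p := by
  have h := congrArg (eval y) hp.sum_X_mul_pderiv
  rw [nsmul_eq_mul, map_mul, map_natCast, map_sum] at h
  rw [← h]
  unfold dy
  rw [map_sum]
  refine Finset.sum_congr rfl fun i _ => ?_
  rw [map_mul, map_mul, eval_C, eval_X]

end Pool.Agent.Saus
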