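import Pool.Agent.Lib.Saus.Defs

/-!
The linear programming bound for spherical codes, in the form in which it is used.
-/

set_option autoImplicit false

open MeasureTheory Metric Set Filter Topology
open scoped Pointwise RealInnerProductSpace

namespace Pool.Agent.Saus

theorem lp_bound {D : ℕ} {ι : Type*} [Fintype ι] (C : Finset (E D)) (hC : ∀ x ∈ C, ‖x‖ = 1)
    {s ε : ℝ} (hε : 0 < ε) (hs : s < 1) (hsep : ∀ x ∈ C, ∀ y ∈ C, x ≠ y → ⟪x, y⟫ ≤ s)
    (F : E D → ι → ℝ) {g : ℝ} (hg : 0 < g) (hdiag : ∀ x ∈ C, ∑ i, F x i ^ 2 = g)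
    (hpsd : ∀ w : E D → ℝ, 0 ≤ ∑ x ∈ C, ∑ y ∈ C, w x * w y *
      ((⟪x, y⟫ - (s + ε)) * ∑ i, F x i * F y i)) :
    (C.card : ℝ) ≤ (1 - s) / ε * Fintype.card ι := by
  classical
  obtain ⟨f, hf⟩ : ∃ f : E D → E D → ℝ, f = fun x y => ∑ i, F x i * F y i := ⟨_, rfl⟩
  have hfx : ∀ x ∈ C, f x x = g := by
    intro x hx
    rw [hf, ← hdiag x hx]
    exact Finset.sum_congr rfl fun i _ => by ring
  -- the Schur square
  have h1 : 0 ≤ ∑ x ∈ C, ∑ y ∈ C, (⟪x, y⟫ - (s + ε)) * f x y ^ 2 := by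
    have h2 : ∑ x ∈ C, ∑ y ∈ C, (⟪x, y⟫ - (s + ε)) * f x y ^ 2
        = ∑ i, ∑ x ∈ C, ∑ y ∈ C, F x i * F y i * ((⟪x, y⟫ - (s + ε)) * ∑ j, F x j * F y j) := by
      symm
      rw [Finset.sum_comm]
      refine Finset.sum_congr rfl fun x _ => ?_
      rw [Finset.sum_comm]
      refine Finset.sum_congr rfl fun y _ => ?_
      rw [← Finset.sum_mul, hf]
      dsimp only
      ring
    rw [h2]
    exact Finset.sum_nonneg fun i _ => hpsd fun x => F x i
  -- the contribution of the pairs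
  have h3 : ∑ x ∈ C, ∑ y ∈ C, (⟪x, y⟫ - (s + ε)) * f x y ^ 2
      ≤ (C.card : ℝ) * ((1 - s) * g ^ 2) - ε * ∑ x ∈ C, ∑ y ∈ C, f x y ^ 2 := by
    have h4 : ∀ x ∈ C, ∑ y ∈ C, (⟪x, y⟫ - (s + ε)) * f x y ^ 2
        ≤ (1 - s) * g ^ 2 - ε * ∑ y ∈ C, f x y ^ 2 := by
      intro x hx
      have h5 : ∀ y ∈ C, (⟪x, y⟫ - (s + ε)) * f x y ^ 2
          ≤ (if y = x then (1 - s) * g ^ 2 else 0) - ε * f x y ^ 2 := by
        intro y hy
        by_cases hxy : y = x
        · rw [if_pos hxy, hxy, hfx x hx, real_inner_self_eq_norm_sq, hC x hx]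
          exact le_of_eq (by ring)
        · rw [if_neg hxy]
          have h6 := hsep x hx y hy (Ne.symm hxy)
          have h7 : (⟪x, y⟫ - s) * f x y ^ 2 ≤ 0 :=
            mul_nonpos_of_nonpos_of_nonneg (by linarith) (sq_nonneg _)
          linarith
      refine (Finset.sum_le_sum h5).trans (le_of_eq ?_)
      rw [Finset.sum_sub_distrib, Finset.sum_ite_eq' C x, if_pos hx, ← Finset.mul_sum]
    refine (Finset.sum_le_sum h4).trans (le_of_eq ?_)
    rw [Finset.sum_sub_distrib, Finset.sum_const, nsmul_eq_mul, ← Finset.mul_sum]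
  -- the rank
  have h8 : ((C.card : ℝ) * g) ^ 2 ≤ Fintype.card ι * ∑ x ∈ C, ∑ y ∈ C, f x y ^ 2 := by
    have h9 : ∑ x ∈ C, ∑ y ∈ C, f x y ^ 2 = ∑ i, ∑ j, (∑ x ∈ C, F x i * F x j) ^ 2 := by
      have h10 : ∀ x y, f x y ^ 2 = ∑ i, ∑ j, (F x i * F x j) * (F y i * F y j) := by
        intro x y
        rw [hf, sq]
        dsimp only
        rw [Finset.sum_mul_sum]
        refine Finset.sum_congr rfl fun i _ => Finset.sum_congr rfl fun j _ => ?_
        ring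
      have h11 : ∀ i j, (∑ x ∈ C, F x i * F x j) ^ 2
          = ∑ x ∈ C, ∑ y ∈ C, (F x i * F x j) * (F y i * F y j) := by
        intro i j
        rw [sq, Finset.sum_mul_sum]
      simp only [h10, h11]
      calc ∑ x ∈ C, ∑ y ∈ C, ∑ i, ∑ j, (F x i * F x j) * (F y i * F y j)
          = ∑ x ∈ C, ∑ i, ∑ j, ∑ y ∈ C, (F x i * F x j) * (F y i * F y j) := by
            refine Finset.sum_congr rfl fun x _ => ?_
            rw [Finset.sum_comm]
            refine Finset.sum_congr rfl fun i _ => ?_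
            rw [Finset.sum_comm]
        _ = ∑ i, ∑ j, ∑ x ∈ C, ∑ y ∈ C, (F x i * F x j) * (F y i * F y j) := by
            rw [Finset.sum_comm]
            refine Finset.sum_congr rfl fun i _ => ?_
            rw [Finset.sum_comm]
    rw [h9]
    have h12 : (C.card : ℝ) * g = ∑ i, ∑ x ∈ C, F x i ^ 2 := by
      rw [Finset.sum_comm, Finset.sum_congr rfl hdiag, Finset.sum_const, nsmul_eq_mul]
    have h13 : (∑ i, ∑ x ∈ C, F x i ^ 2) ^ 2 ≤ Fintype.card ι * ∑ i, (∑ x ∈ C, F x i ^ 2) ^ 2 := by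
      have := sq_sum_le_card_mul_sum_sq (s := (Finset.univ : Finset ι))
        (f := fun i => ∑ x ∈ C, F x i ^ 2)
      rwa [Finset.card_univ] at this
    rw [h12]
    refine h13.trans (mul_le_mul_of_nonneg_left ?_ (Nat.cast_nonneg _))
    refine Finset.sum_le_sum fun i _ => ?_
    have h14 : (∑ x ∈ C, F x i ^ 2) ^ 2 = (∑ x ∈ C, F x i * F x i) ^ 2 := by
      congr 1
      exact Finset.sum_congr rfl fun x _ => by ring
    rw [h14]
    exact Finset.single_le_sum (f := fun j => (∑ x ∈ C, F x i * F x j) ^ 2)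
      (fun j _ => sq_nonneg _) (Finset.mem_univ i)
  -- conclusion
  rcases Nat.eq_zero_or_pos C.card with h0 | h0
  · rw [h0, Nat.cast_zero]
    exact mul_nonneg (div_nonneg (by linarith) hε.le) (Nat.cast_nonneg _)
  have hN : (0 : ℝ) < C.card := by exact_mod_cast h0
  have h15 : ε * ∑ x ∈ C, ∑ y ∈ C, f x y ^ 2 ≤ (C.card : ℝ) * ((1 - s) * g ^ 2) := by linarith
  have h16 : ε * ((C.card : ℝ) * g) ^ 2
      ≤ Fintype.card ι * ((C.card : ℝ) * ((1 - s) * g ^ 2)) := by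
    calc ε * ((C.card : ℝ) * g) ^ 2
        ≤ ε * (Fintype.card ι * ∑ x ∈ C, ∑ y ∈ C, f x y ^ 2) := mul_le_mul_of_nonneg_left h8 hε.le
      _ = Fintype.card ι * (ε * ∑ x ∈ C, ∑ y ∈ C, f x y ^ 2) := by ring
      _ ≤ _ := mul_le_mul_of_nonneg_left h15 (Nat.cast_nonneg _)
  have h17 : 0 < (C.card : ℝ) * g ^ 2 := by positivity
  have h18 : (ε * C.card) * ((C.card : ℝ) * g ^ 2)
      ≤ ((1 - s) * Fintype.card ι) * ((C.card : ℝ) * g ^ 2) := by
    calc (ε * C.card) * ((C.card : ℝ) * g ^ 2) = ε * ((C.card : ℝ) * g) ^ 2 := by ring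
      _ ≤ _ := h16
      _ = _ := by ring
  have h19 := le_of_mul_le_mul_right h18 h17
  rw [div_mul_eq_mul_div, le_div_iff₀ hε]
  linarith

end Pool.Agent.Saus
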