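import Pool.Agent.Lib.Saus.Defs

/-!
# Rankin's bound: points with mutual distances `≥ 2` in a ball of radius `< √2`
-/

set_option autoImplicit false

open MeasureTheory Metric Set Filter Topology
open scoped Pointwise RealInnerProductSpace

namespace Pool.Agent.Saus

private theorem rankin_sum {d : ℕ} (Y : Finset (E d)) (p : E d) :
    ∑ x ∈ Y, ∑ y ∈ Y, dist x y ^ 2 + 2 * ‖∑ x ∈ Y, (x - p)‖ ^ 2
      = 2 * Y.card * ∑ x ∈ Y, dist x p ^ 2 := by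
  have h1 : ∀ x y : E d, dist x y ^ 2
      = dist x p ^ 2 + dist y p ^ 2 - 2 * ⟪x - p, y - p⟫ := by
    intro x y
    rw [dist_eq_norm, dist_eq_norm, dist_eq_norm]
    have : x - y = (x - p) - (y - p) := by abel
    rw [this, norm_sub_sq_real]
    ring
  have h2 : ‖∑ x ∈ Y, (x - p)‖ ^ 2 = ∑ x ∈ Y, ∑ y ∈ Y, ⟪x - p, y - p⟫ := by
    rw [← real_inner_self_eq_norm_sq, sum_inner]
    refine Finset.sum_congr rfl (fun x _ => ?_)
    rw [inner_sum]
  have h3 : ∑ x ∈ Y, ∑ y ∈ Y, dist x y ^ 2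
      = ∑ x ∈ Y, ∑ y ∈ Y, (dist x p ^ 2 + dist y p ^ 2 - 2 * ⟪x - p, y - p⟫) :=
    Finset.sum_congr rfl (fun x _ => Finset.sum_congr rfl (fun y _ => h1 x y))
  rw [h3, h2]
  simp only [Finset.sum_sub_distrib, Finset.sum_add_distrib, Finset.sum_const, nsmul_eq_mul,
    ← Finset.mul_sum]
  ring

/-! R -/
theorem rankin {d : ℕ} (Y : Finset (E d)) (hY : IsPack Y) (p : E d) {δ : ℝ} (hδ : 0 < δ)
    (h : ∀ y ∈ Y, dist y p ^ 2 ≤ 2 - δ) : (Y.card : ℝ) ≤ 2 / δ := by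
  classical
  rcases Y.eq_empty_or_nonempty with rfl | hne
  · simp only [Finset.card_empty, Nat.cast_zero]; positivity
  have hm : (0 : ℝ) < (Y.card : ℝ) := by exact_mod_cast hne.card_pos
  have hlow : (Y.card : ℝ) * (4 * ((Y.card : ℝ) - 1)) ≤ ∑ x ∈ Y, ∑ y ∈ Y, dist x y ^ 2 := by
    rw [← nsmul_eq_mul]
    refine Finset.card_nsmul_le_sum _ _ _ (fun x hx => ?_)
    have e : ∑ y ∈ Y, dist x y ^ 2 = ∑ y ∈ Y.erase x, dist x y ^ 2 := by
      rw [← Finset.sum_erase_add _ _ hx]; simp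
    rw [e]
    have e2 : 4 * ((Y.card : ℝ) - 1) = (Y.erase x).card • (4 : ℝ) := by
      rw [Finset.card_erase_of_mem hx, nsmul_eq_mul, Nat.cast_sub hne.card_pos]
      push_cast; ring
    rw [e2]
    refine Finset.card_nsmul_le_sum _ _ _ (fun y hy => ?_)
    rw [Finset.mem_erase] at hy
    have := hY x hx y hy.2 (fun e => hy.1 e.symm)
    nlinarith
  have hup : ∑ x ∈ Y, dist x p ^ 2 ≤ (Y.card : ℝ) * (2 - δ) := by
    rw [← nsmul_eq_mul]
    exact Finset.sum_le_card_nsmul _ _ _ h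
  have hs := rankin_sum Y p
  have hsq : 0 ≤ ‖∑ x ∈ Y, (x - p)‖ ^ 2 := by positivity
  have h5 : (Y.card : ℝ) * (4 * ((Y.card : ℝ) - 1))
      ≤ 2 * Y.card * ((Y.card : ℝ) * (2 - δ)) := by
    have : 2 * (Y.card : ℝ) * ∑ x ∈ Y, dist x p ^ 2
        ≤ 2 * (Y.card : ℝ) * ((Y.card : ℝ) * (2 - δ)) :=
      mul_le_mul_of_nonneg_left hup (by positivity)
    linarith
  rw [le_div_iff₀ hδ]
  have h6 : (Y.card : ℝ) * (2 * ((Y.card : ℝ) * δ)) ≤ (Y.card : ℝ) * 4 := by nlinarith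
  have := le_of_mul_le_mul_left h6 hm
  linarith

end Pool.Agent.Saus
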